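import Pool.Agent.Lib.MP_d5700b_nt.FW.RowJ

set_option autoImplicit false

/-!
The core: existence of a good integer.
-/

namespace Pool.Agent.Lib.MP_d5700b_nt.FW

open Finset

variable {ι : Type} [Fintype ι] [DecidableEq ι]

/-- The arithmetic data. -/
structure Setup (p a S : ι → ℕ) (Q N : ℕ) : Prop where
  prime : ∀ i, (p i).Prime
  inj : Function.Injective p
  cop : ∀ i, Nat.Coprime Q (p i)
  a1 : ∀ i, 1 ≤ a i
  S2 : ∀ i, 2 ≤ S i
  aS : ∀ i, a i + S i ≤ p i + 1
  SN : ∀ i, p i < N * S i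

/-- The admissible primes for the digit conditions. -/
def Adm (p : ι → ℕ) (Q q : ℕ) : Prop :=
  (∃ i, p i = q) ∨ ((∀ i, p i ≠ q) ∧ ∃ Q', Q = q * Q' ∧ Nat.Coprime Q' q)

/-- The words with large score. -/
noncomputable def TT (p a : ι → ℕ) (B : ℝ) : Finset (ι → ℕ) := by
  classical exact (Wd p).filter (fun b => B ≤ sc p a b)

lemma mem_TT {p a : ι → ℕ} {B : ℝ} {b : ι → ℕ} :
    b ∈ TT p a B ↔ (∀ i, b i < p i) ∧ B ≤ sc p a b := by
  classical
  unfold TT Wd
  rw [mem_filter, Fintype.mem_piFinset]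
  simp only [mem_range]

lemma mem_Wd {p : ι → ℕ} {b : ι → ℕ} : b ∈ Wd p ↔ ∀ i, b i < p i := by
  unfold Wd
  rw [Fintype.mem_piFinset]
  simp only [mem_range]

namespace Setup

variable {p a S : ι → ℕ} {Q N : ℕ}

lemma ppos (D : Setup p a S Q N) (i : ι) : 0 < p i := (D.prime i).pos

lemma ap (D : Setup p a S Q N) (i : ι) : a i ≤ p i := by
  have h1 := D.aS i
  have h2 := D.S2 i
  omega

lemma lnn (D : Setup p a S Q N) (i : ι) : 0 ≤ Real.log (p i) :=
  Real.log_nonneg (by exact_mod_cast (D.prime i).one_le)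

/-- The score moves by at most `L` when one letter is changed. -/
lemma sc_update (D : Setup p a S Q N) {L : ℝ} (hL : ∀ i, Real.log (p i) ≤ L) (b : ι → ℕ)
    (hb : ∀ i, b i < p i) (i0 : ι) (v : ℕ) :
    sc p a b ≤ sc p a (Function.update b i0 v) + L := by
  have h1 : sc p a b - sc p a (Function.update b i0 v) ≤ Real.log (p i0) := by
    unfold sc
    rw [← sum_sub_distrib]
    have h2 : ∀ i ∈ univ, i ≠ i0 → Real.log (p i) * mm (p i) (a i) (b i) -
        Real.log (p i) * mm (p i) (a i) (Function.update b i0 v i) = 0 := by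
      intro i _ hi
      rw [Function.update_of_ne hi, sub_self]
    rw [sum_eq_single i0 h2 (by intro h; exact absurd (mem_univ _) h)]
    rw [Function.update_self]
    have h3 := mm_le_one (p i0) (a i0) (b i0) (D.ppos i0) (D.a1 i0) (D.ap i0) (hb i0)
    have h4 := mm_nonneg (p i0) (a i0) v
    have h5 := D.lnn i0
    nlinarith
  have := hL i0
  linarith

lemma dif_eq_log (D : Setup p a S Q N) (b b' : ι → ℕ) :
    Real.log (∏ i, if b i = b' i then (1 : ℝ) else p i) = dif p b b' := by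
  unfold dif
  rw [Real.log_prod]
  · apply sum_congr rfl
    intro i _
    split_ifs
    · exact Real.log_one
    · rfl
  · intro i _
    split_ifs
    · exact one_ne_zero
    · exact_mod_cast (D.ppos i).ne'

lemma prod_dif_pos (D : Setup p a S Q N) (b b' : ι → ℕ) :
    (0 : ℝ) < ∏ i, if b i = b' i then (1 : ℝ) else p i := by
  apply prod_pos
  intro i _
  split_ifs
  · exact one_pos
  · exact_mod_cast D.ppos i

/-- Close words differ a lot (with digits). -/
lemma dif_ge_digit (D : Setup p a S Q N) {k T q : ℕ} {c V : ℝ} (hT1 : 1 ≤ T) (hc : 0 < c)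
    (hT : V + Real.log c + 2 * Real.log k ≤ Real.log T) (hq : q.Prime) (hqk : q ≤ k)
    (hadm : Adm p Q q) {b b' : ι → ℕ} (hb : ∀ i, b i < p i) (hb' : ∀ i, b' i < p i) {h h' : ℕ}
    (hh : h < q) (hh' : h' < q) (hne : b ≠ b' ∨ h ≠ h')
    (hnear : Near (c / T) (Q * (fr p b + h / q ^ 2)) (Q * (fr p b' + h' / q ^ 2))) :
    V ≤ dif p b b' := by
  have h1 := not_near p D.prime D.inj Q q D.cop hq hadm b b' hb hb' h h' hh hh' hne _ hnear
  have hTR : (0 : ℝ) < T := by exact_mod_cast hT1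
  have hqR : (0 : ℝ) < q := by exact_mod_cast hq.pos
  have hP := D.prod_dif_pos b b'
  have h2 := Real.log_lt_log one_pos h1
  rw [Real.log_one, Real.log_mul (by positivity) (by positivity),
    Real.log_div hc.ne' hTR.ne', Real.log_mul (by positivity) hP.ne', Real.log_pow,
    D.dif_eq_log b b'] at h2
  have h3 : Real.log q ≤ Real.log k := Real.log_le_log hqR (by exact_mod_cast hqk)
  push_cast at h2
  linarith

/-- Close words differ a lot. -/
lemma dif_ge (D : Setup p a S Q N) {k T : ℕ} {c V : ℝ} (hT1 : 1 ≤ T) (hc : 0 < c)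
    (hT : V + Real.log c + 2 * Real.log k ≤ Real.log T) (hk : ∀ i, p i ≤ k)
    {b b' : ι → ℕ} (hb : ∀ i, b i < p i) (hb' : ∀ i, b' i < p i) (hne : b ≠ b')
    (hnear : Near (c / T) (Q * fr p b) (Q * fr p b')) :
    V ≤ dif p b b' := by
  obtain ⟨i, hi⟩ := Function.ne_iff.mp hne
  apply D.dif_ge_digit hT1 hc hT (D.prime i) (hk i) (Or.inl ⟨i, rfl⟩) hb hb'
    (h := 0) (h' := 0) (D.ppos i) (D.ppos i) (Or.inl hne)
  simpa using hnear

/-- The cluster bound. -/
lemma cluster_card {α : Type} [DecidableEq α] (D : Setup p a S Q N) {K η V : ℝ} (hη : 0 < η)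
    (hK : K = ∑ i, Real.log (p i) * kap (p i) (a i))
    (hV : V = ∑ i, Real.log (p i) - K + 3 * η) {M : ℕ}
    (hM : ∑ i, Real.log (p i) + 3 * η ≤ M * η) (A : Finset α) (w : α → ι → ℕ)
    (hw : ∀ x ∈ A, w x ∈ TT p a (K - η))
    (hd : ∀ x ∈ A, ∀ y ∈ A, x ≠ y → V ≤ dif p (w x) (w y)) : A.card ≤ M := by
  have h1 := plotkin p (fun i => Real.log (p i)) D.lnn (fun i => mm (p i) (a i)) K η V
    (by rw [hK]; rfl) A w (fun x hx i => (mem_TT.mp (hw x hx)).1 i)
    (fun x hx => (mem_TT.mp (hw x hx)).2) hd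
  have hK0 : 0 ≤ K := by
    rw [hK]
    exact sum_nonneg (fun i _ => mul_nonneg (D.lnn i) (kap_nonneg _ _))
  by_contra hcon
  push Not at hcon
  have hm : (M : ℝ) + 1 ≤ A.card := by exact_mod_cast hcon
  have hM0 : (0 : ℝ) ≤ M := Nat.cast_nonneg _
  have hm0 : (0 : ℝ) < A.card := by linarith
  have e1 : ∑ i, Real.log (p i) - K + 2 * η = V - η := by rw [hV]; ring
  simp only [e1] at h1
  have h2 : ((A.card : ℝ) - 1) * V ≤ A.card * (V - η) := by
    have h3 : (A.card : ℝ) * (((A.card : ℝ) - 1) * V) ≤ A.card * (A.card * (V - η)) := by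
      calc (A.card : ℝ) * (((A.card : ℝ) - 1) * V) = A.card * (A.card - 1) * V := by ring
        _ ≤ (A.card : ℝ) ^ 2 * (V - η) := h1
        _ = _ := by ring
    exact le_of_mul_le_mul_left h3 hm0
  have h3 : (A.card : ℝ) * η ≤ V := by linarith
  have h4 : V ≤ M * η := by rw [hV]; linarith
  nlinarith

/-- The damping of close pairs. -/
lemma damping (D : Setup p a S Q N) {k : ℕ} (hk : ∀ i, p i ≤ k) (hL : 0 < Real.log k) {V : ℝ}
    (hN : 1 ≤ N)
    {b b' : ι → ℕ} (hb : ∀ i, b i < p i) (hb' : ∀ i, b' i < p i) (hV : V ≤ dif p b b') :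
    ∏ i, ‖∑ s ∈ range (S i), ee (-((((b i : ℤ) - (b' i : ℤ) : ℤ) : ℝ) * s / p i))‖ ≤
      Real.exp (-(V / (100 * N ^ 2 * Real.log k))) * ∏ i, (S i : ℝ) := by
  have hNR : (1 : ℝ) ≤ N := by exact_mod_cast hN
  set c : ℝ := 100 * N ^ 2 * Real.log k with hc
  have hc0 : 0 < c := by positivity
  have h1 : ∀ i, ‖∑ s ∈ range (S i), ee (-((((b i : ℤ) - (b' i : ℤ) : ℤ) : ℝ) * s / p i))‖ ≤
      Real.exp (-((if b i = b' i then 0 else Real.log (p i)) / c)) * S i := by
    intro i
    by_cases hi : b i = b' i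
    · rw [if_pos hi, zero_div, neg_zero, Real.exp_zero, one_mul]
      calc ‖∑ s ∈ range (S i), ee (-((((b i : ℤ) - (b' i : ℤ) : ℤ) : ℝ) * s / p i))‖
          ≤ ∑ s ∈ range (S i), ‖ee (-((((b i : ℤ) - (b' i : ℤ) : ℤ) : ℝ) * s / p i))‖ :=
            norm_sum_le _ _
        _ = S i := by simp [norm_ee]
    · rw [if_neg hi]
      have h2 : ¬ ((p i : ℤ) ∣ (b i : ℤ) - (b' i : ℤ)) := by
        intro hdvd
        have h3 := Int.eq_zero_of_abs_lt_dvd hdvd (by
          rw [abs_lt]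
          have := hb i
          have := hb' i
          constructor <;> omega)
        apply hi
        omega
      have h3 := damp (p i) (S i) N (D.ppos i) (D.S2 i) (D.SN i) _ h2
      refine h3.trans ?_
      apply mul_le_mul_of_nonneg_right _ (Nat.cast_nonneg _)
      have h4 : 1 - 1 / (100 * (N : ℝ) ^ 2) ≤ Real.exp (-(1 / (100 * (N : ℝ) ^ 2))) := by
        have := Real.add_one_le_exp (-(1 / (100 * (N : ℝ) ^ 2)))
        linarith
      refine h4.trans (Real.exp_le_exp.mpr ?_)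
      have h5 : Real.log (p i) ≤ Real.log k :=
        Real.log_le_log (by exact_mod_cast D.ppos i) (by exact_mod_cast hk i)
      rw [neg_le_neg_iff, hc, div_le_div_iff₀ (by positivity) (by positivity)]
      have h6 : (0 : ℝ) ≤ 100 * N ^ 2 := by positivity
      nlinarith
  calc ∏ i, ‖∑ s ∈ range (S i), ee (-((((b i : ℤ) - (b' i : ℤ) : ℤ) : ℝ) * s / p i))‖
      ≤ ∏ i, (Real.exp (-((if b i = b' i then 0 else Real.log (p i)) / c)) * S i) :=
        prod_le_prod (fun i _ => norm_nonneg _) (fun i _ => h1 i)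
    _ = Real.exp (-(dif p b b' / c)) * ∏ i, (S i : ℝ) := by
        rw [prod_mul_distrib, ← Real.exp_sum]
        congr 2
        rw [sum_neg_distrib, ← sum_div]
        rfl
    _ ≤ Real.exp (-(V / c)) * ∏ i, (S i : ℝ) := by
        apply mul_le_mul_of_nonneg_right _ (prod_nonneg (fun i _ => Nat.cast_nonneg _))
        apply Real.exp_le_exp.mpr
        rw [neg_le_neg_iff]
        exact div_le_div_of_nonneg_right hV hc0.le

/-- The total mass. -/
noncomputable def C0 (p a : ι → ℕ) : ℝ := ∏ i, (a i : ℝ) / p i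

lemma C0_pos (D : Setup p a S Q N) : 0 < C0 p a := by
  unfold C0
  apply prod_pos
  intro i _
  have h1 : (0 : ℝ) < a i := by exact_mod_cast D.a1 i
  have h2 : (0 : ℝ) < p i := by exact_mod_cast D.ppos i
  positivity

lemma prod_gam (D : Setup p a S Q N) (b : ι → ℕ) :
    ∏ i, ‖gam (p i) (a i) (b i)‖ ^ 2 = C0 p a * ms p a b := by
  unfold C0 ms
  rw [← prod_mul_distrib]
  apply prod_congr rfl
  intro i _
  unfold mm
  have h1 : (a i : ℝ) ≠ 0 := by exact_mod_cast (by have := D.a1 i; omega : a i ≠ 0)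
  have h2 : (p i : ℝ) ≠ 0 := by exact_mod_cast (D.ppos i).ne'
  field_simp

lemma ms_nonneg (b : ι → ℕ) : 0 ≤ ms p a b := prod_nonneg (fun i _ => mm_nonneg _ _ _)

lemma sum_ms (D : Setup p a S Q N) : ∑ b ∈ Wd p, ms p a b = 1 := by
  unfold Wd ms
  rw [← prod_univ_sum]
  apply prod_eq_one
  intro i _
  exact mm_sum (p i) (a i) (D.ppos i) (D.a1 i) (D.ap i)

/-- deviation for the score -/
lemma mass_dev (D : Setup p a S Q N) {K L lam η : ℝ} (hL : ∀ i, Real.log (p i) ≤ L)
    (hK : K = ∑ i, Real.log (p i) * kap (p i) (a i)) (hlam : 0 ≤ lam)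
    (X : Finset (ι → ℕ)) (hX : ∀ b ∈ X, (∀ i, b i < p i) ∧ sc p a b ≤ K - η) :
    ∑ b ∈ X, ms p a b ≤ Real.exp (-lam * η + lam ^ 2 * L * K / 2) := by
  classical
  have h1 := deviation p (fun i => mm (p i) (a i))
    (fun i v => Real.log (p i) * mm (p i) (a i) v) (fun i b _ => mm_nonneg _ _ _)
    (fun i => mm_sum (p i) (a i) (D.ppos i) (D.a1 i) (D.ap i)) L (by
      intro i b hb
      have h2 := mm_nonneg (p i) (a i) b
      have h3 := mm_le_one (p i) (a i) b (D.ppos i) (D.a1 i) (D.ap i) hb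
      have h4 := D.lnn i
      have h5 := hL i
      refine ⟨mul_nonneg h4 h2, ?_⟩
      nlinarith) K (by
      rw [hK]
      apply sum_congr rfl
      intro i _
      unfold kap
      rw [mul_sum]
      apply sum_congr rfl
      intro b _
      ring) lam η hlam
  refine le_trans ?_ h1
  apply sum_le_sum_of_subset_of_nonneg
  · intro b hb
    obtain ⟨h2, h3⟩ := hX b hb
    rw [mem_filter, Fintype.mem_piFinset]
    refine ⟨fun i => mem_range.mpr (h2 i), h3⟩
  · intro b _ _
    exact ms_nonneg b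

/-- the factors -/
noncomputable def ff (p a s : ι → ℕ) (Q t : ℕ) (i : ι) (b : ℕ) : ℂ :=
  gam (p i) (a i) b * ee ((b : ℝ) * (((Q * (t + 1) : ℕ) : ℤ) - (s i : ℤ) : ℤ) / p i)

lemma Fw_prod (s : ι → ℕ) (W : Finset (ι → ℕ)) (t : ℕ) :
    Fw p a s Q W t = ∑ b ∈ W, ∏ i, ff p a s Q t i (b i) := by
  unfold Fw co ff fr
  apply sum_congr rfl
  intro b _
  rw [sum_mul, ee_sum, ← prod_mul_distrib]
  apply prod_congr rfl
  intro i _
  rw [mul_assoc, ← ee_add]
  congr 2
  push_cast
  ring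

/-- the boundary words at a bad prime -/
noncomputable def bd (p : ι → ℕ) (W : Finset (ι → ℕ)) (i0 : ι) : Finset (ι → ℕ) := by
  classical exact W.filter (fun b => ∃ v < p i0, Function.update b i0 v ∉ W)

lemma bd_sub (W : Finset (ι → ℕ)) (i0 : ι) : bd p W i0 ⊆ W := by
  classical
  unfold bd
  exact filter_subset _ _

lemma Fw_bad (D : Setup p a S Q N) (s : ι → ℕ) (hs : ∀ i, s i < S i) (W : Finset (ι → ℕ))
    (hW : W ⊆ Wd p) (t : ℕ) (i0 : ι) (hbad : a i0 + S i0 - 1 ≤ Q * (t + 1) % p i0) :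
    Fw p a s Q W t = Fw p a s Q (bd p W i0) t := by
  classical
  rw [Fw_prod, Fw_prod]
  unfold bd
  have h0 : ∑ b ∈ range (p i0), ff p a s Q t i0 b = 0 := by
    unfold ff
    rw [gam_inv (p i0) (a i0) (D.ppos i0) (D.ap i0), if_neg]
    rw [not_lt]
    set n := Q * (t + 1) with hn
    have h1 : n % p i0 < p i0 := Nat.mod_lt _ (D.ppos i0)
    have h2 := hs i0
    have h3 := D.a1 i0
    have h4 := D.S2 i0
    have h5 : ((n : ℤ) - s i0) % (p i0 : ℤ) = ((n % p i0 : ℕ) : ℤ) - s i0 := by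
      have h6 : ((n : ℤ) - s i0) = (((n % p i0 : ℕ) : ℤ) - s i0) + p i0 * ((n / p i0 : ℕ) : ℤ) := by
        have h7 : (n : ℤ) = p i0 * ((n / p i0 : ℕ) : ℤ) + ((n % p i0 : ℕ) : ℤ) := by
          exact_mod_cast (Nat.div_add_mod n (p i0)).symm
        linarith
      rw [h6, Int.add_mul_emod_self_left]
      apply Int.emod_eq_of_lt
      · omega
      · omega
    rw [h5]
    omega
  have h1 := boundary p (ff p a s Q t) W hW i0 h0
  rw [h1]

/-- boundary words have small score -/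
lemma bd_score (D : Setup p a S Q N) {L B : ℝ} (hL : ∀ i, Real.log (p i) ≤ L) (i0 : ι)
    (b : ι → ℕ) (hb : b ∈ bd p (TT p a B) i0) : (∀ i, b i < p i) ∧ sc p a b ≤ B + L := by
  classical
  unfold bd at hb
  obtain ⟨h1, v, hv, h2⟩ := mem_filter.mp hb
  obtain ⟨h3, h4⟩ := mem_TT.mp h1
  refine ⟨h3, ?_⟩
  have h5 := D.sc_update hL b h3 i0 v
  rw [mem_TT, not_and] at h2
  have h6 : ∀ i, Function.update b i0 v i < p i := by
    intro i
    by_cases hi : i = i0
    · subst hi
      rwa [Function.update_self]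
    · rw [Function.update_of_ne hi]
      exact h3 i
  have h7 := h2 h6
  rw [not_le] at h7
  linarith

end Setup

end Pool.Agent.Lib.MP_d5700b_nt.FW
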