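import Pool.Agent.Lib.MP_d5700b_nt.FW.Core

set_option autoImplicit false

/-!
The core theorem.
-/

namespace Pool.Agent.Lib.MP_d5700b_nt.FW

open Finset

variable {ι : Type} [Fintype ι] [DecidableEq ι]

namespace Setup

variable {p a S : ι → ℕ} {Q N : ℕ}

/-- the coefficient with the phase of a shift -/
lemma norm_cs (s b : ι → ℕ) : ‖cb p a Q b * ph p s b‖ ^ 2 = ∏ i, ‖gam (p i) (a i) (b i)‖ ^ 2 := by
  rw [norm_mul, norm_ph, mul_one, norm_cb]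

/-- large sieve for a set of words -/
lemma sieve_words (D : Setup p a S Q N) (s : ι → ℕ) {T M : ℕ} (hT1 : 1 ≤ T)
    (W : Finset (ι → ℕ))
    (hcl : ∀ A ⊆ W, (∀ b ∈ A, ∀ b' ∈ A, b ≠ b' → Near (1 / T) (Q * fr p b) (Q * fr p b')) →
      A.card ≤ M) :
    ∑ t1 ∈ range T, ∑ t2 ∈ range T, ‖Fw p a s Q W (t1 + t2)‖ ^ 2 ≤
      5 * M * T ^ 2 * (C0 p a * ∑ b ∈ W, ms p a b) := by
  have h1 := large_sieve W (fun b => (Q : ℝ) * fr p b) (fun b => cb p a Q b * ph p s b) T M hT1 hcl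
  have h2 : ∑ b ∈ W, ‖cb p a Q b * ph p s b‖ ^ 2 = C0 p a * ∑ b ∈ W, ms p a b := by
    rw [mul_sum]
    apply sum_congr rfl
    intro b _
    rw [norm_cs, D.prod_gam]
  rw [h2] at h1
  refine le_trans (le_of_eq ?_) h1
  apply sum_congr rfl
  intro t1 _
  apply sum_congr rfl
  intro t2 _
  rw [Fw_eq]

/-- the digit factor -/
noncomputable def dg (J H q n : ℕ) : ℂ := (1 / (H : ℂ)) * ∑ h ∈ range H,
      ee ((h : ℝ) * ((n : ℝ) / q ^ 2 - (1 - J / (2 * q))))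

/-- large sieve for the digit events -/
lemma sieve_digit (D : Setup p a S Q N) (s : ι → ℕ) {T M J H q : ℕ} (hT1 : 1 ≤ T) (hH : 1 ≤ H)
    (hq : 0 < q)
    (W : Finset (ι → ℕ))
    (hcl : ∀ A ⊆ W ×ˢ range H, (∀ x ∈ A, ∀ y ∈ A, x ≠ y →
      Near (1 / T) (Q * (fr p x.1 + (x.2 : ℝ) / q ^ 2)) (Q * (fr p y.1 + (y.2 : ℝ) / q ^ 2))) →
      A.card ≤ M) :
    ∑ t1 ∈ range T, ∑ t2 ∈ range T,
      ‖dg J H q (Q * (t1 + t2 + 1)) * Fw p a s Q W (t1 + t2)‖ ^ 2 ≤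
      5 * M * T ^ 2 * (C0 p a * ∑ b ∈ W, ms p a b) / H := by
  have hHR : (0 : ℝ) < H := by exact_mod_cast hH
  have hHC : (H : ℂ) ≠ 0 := by exact_mod_cast (by omega : H ≠ 0)
  have hqR : (q : ℝ) ≠ 0 := by exact_mod_cast hq.ne'
  have h1 := large_sieve (W ×ˢ range H) (fun x => (Q : ℝ) * (fr p x.1 + (x.2 : ℝ) / q ^ 2))
    (fun x => (1 / (H : ℂ)) * (cb p a Q x.1 * ph p s x.1) *
      ee ((x.2 : ℝ) * ((Q : ℝ) / q ^ 2 - (1 - J / (2 * q))))) T M hT1 hcl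
  have h2 : ∑ x ∈ W ×ˢ range H, ‖(1 / (H : ℂ)) * (cb p a Q x.1 * ph p s x.1) *
      ee ((x.2 : ℝ) * ((Q : ℝ) / q ^ 2 - (1 - J / (2 * q))))‖ ^ 2 =
      (C0 p a * ∑ b ∈ W, ms p a b) / H := by
    have h3 : ∀ x ∈ W ×ˢ range H, ‖(1 / (H : ℂ)) * (cb p a Q x.1 * ph p s x.1) *
      ee ((x.2 : ℝ) * ((Q : ℝ) / q ^ 2 - (1 - J / (2 * q))))‖ ^ 2 =
      (1 / (H : ℝ)) ^ 2 * (C0 p a * ms p a x.1) := by
      intro x _
      rw [norm_mul, norm_ee, mul_one, norm_mul, mul_pow, norm_cs, D.prod_gam]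
      congr 2
      rw [norm_div, norm_one, Complex.norm_natCast]
    rw [sum_congr rfl h3, sum_product]
    simp only [sum_const, card_range, nsmul_eq_mul]
    rw [mul_sum, sum_div]
    apply sum_congr rfl
    intro b _
    field_simp
  rw [h2] at h1
  have h4 : ∀ t1 ∈ range T, ∀ t2 ∈ range T,
      dg J H q (Q * (t1 + t2 + 1)) * Fw p a s Q W (t1 + t2) =
      ∑ x ∈ W ×ˢ range H, (1 / (H : ℂ)) * (cb p a Q x.1 * ph p s x.1) *
      ee ((x.2 : ℝ) * ((Q : ℝ) / q ^ 2 - (1 - J / (2 * q)))) *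
        ee ((Q : ℝ) * (fr p x.1 + (x.2 : ℝ) / q ^ 2) * (t1 + t2)) := by
    intro t1 _ t2 _
    rw [Fw_eq, sum_product]
    unfold dg
    rw [mul_assoc, sum_mul_sum, mul_sum, sum_comm]
    rw [sum_comm]
    simp only [mul_sum]
    rw [sum_comm]
    apply sum_congr rfl
    intro b _
    apply sum_congr rfl
    intro h _
    have h5 : ee ((h : ℝ) * (((Q * (t1 + t2 + 1) : ℕ) : ℝ) / q ^ 2 - (1 - J / (2 * q)))) *
        ee (Q * fr p b * (t1 + t2)) =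
        ee ((h : ℝ) * ((Q : ℝ) / q ^ 2 - (1 - J / (2 * q)))) *
          ee ((Q : ℝ) * (fr p b + (h : ℝ) / q ^ 2) * (t1 + t2)) := by
      rw [← ee_add, ← ee_add]
      congr 1
      push_cast
      field_simp
      ring
    calc 1 / (H : ℂ) * (ee ((h : ℝ) * (((Q * (t1 + t2 + 1) : ℕ) : ℝ) / q ^ 2 -
          (1 - J / (2 * q)))) * (cb p a Q b * ph p s b * ee (Q * fr p b * (t1 + t2)))) =
        1 / (H : ℂ) * (cb p a Q b * ph p s b) *
          (ee ((h : ℝ) * (((Q * (t1 + t2 + 1) : ℕ) : ℝ) / q ^ 2 - (1 - J / (2 * q)))) *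
            ee (Q * fr p b * (t1 + t2))) := by ring
      _ = _ := by
          rw [h5]
          ring
  calc ∑ t1 ∈ range T, ∑ t2 ∈ range T,
      ‖dg J H q (Q * (t1 + t2 + 1)) * Fw p a s Q W (t1 + t2)‖ ^ 2 =
      ∑ t1 ∈ range T, ∑ t2 ∈ range T,
        ‖∑ x ∈ W ×ˢ range H, (1 / (H : ℂ)) * (cb p a Q x.1 * ph p s x.1) *
      ee ((x.2 : ℝ) * ((Q : ℝ) / q ^ 2 - (1 - J / (2 * q)))) *
        ee ((Q : ℝ) * (fr p x.1 + (x.2 : ℝ) / q ^ 2) * (t1 + t2))‖ ^ 2 := by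
        apply sum_congr rfl
        intro t1 ht1
        apply sum_congr rfl
        intro t2 ht2
        rw [h4 t1 ht1 t2 ht2]
    _ ≤ _ := h1
    _ = _ := by ring

/-- The core theorem. -/
theorem core (D : Setup p a S Q N) (Pr : Finset ℕ) {J k M m0 T : ℕ} {K η V lam P : ℝ}
    (hJ : 1 ≤ J) (hN : 1 ≤ N) (hk : ∀ i, p i ≤ k) (hL : 0 < Real.log k)
    (hPr : ∀ q ∈ Pr, q.Prime ∧ q ≤ k ∧ 4 * J ≤ q ∧ Adm p Q q)
    (hη : 0 < η) (hK : K = ∑ i, Real.log (p i) * kap (p i) (a i))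
    (hV : V = ∑ i, Real.log (p i) - K + 3 * η)
    (hM : ∑ i, Real.log (p i) + 3 * η ≤ M * η) (hm0 : 1 ≤ m0) (hT1 : 1 ≤ T)
    (hT : V + Real.log (m0 + 1) + 2 * Real.log k ≤ Real.log T)
    (hc : (2 * (m0 + 1) * Real.exp (-(V / (100 * N ^ 2 * Real.log k))) + 1 / m0) * M ≤ 1 / 2)
    (hlam : 0 ≤ lam)
    (hP : P = Real.exp (-lam * (η - Real.log k) + lam ^ 2 * Real.log k * K / 2))
    (hP1 : P < 1) (hP2 : 5 * M * (Fintype.card ι) * P + P / 4 < 1 / 4)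
    (hsum : ∑ q ∈ Pr, (10 * M : ℝ) / ((q / (4 * J) : ℕ) : ℝ) ≤ 1 / 4) :
    ∃ t < 2 * T, (∀ i, Q * (t + 1) % p i < a i + S i - 1) ∧
      ∀ q ∈ Pr, Q * (t + 1) % q ^ 2 < (q - J) * q := by
  classical
  by_contra hcon
  push Not at hcon
  set W := TT p a (K - η) with hW
  have hWW : W ⊆ Wd p := fun b hb => mem_Wd.mpr (mem_TT.mp hb).1
  have hTR : (0 : ℝ) < T := by exact_mod_cast hT1
  have hLi : ∀ i, Real.log (p i) ≤ Real.log k := fun i =>
    Real.log_le_log (by exact_mod_cast D.ppos i) (by exact_mod_cast hk i)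
  have hm0R : (1 : ℝ) ≤ m0 := by exact_mod_cast hm0
  have hlm0 : 0 ≤ Real.log ((m0 : ℝ) + 1) := Real.log_nonneg (by linarith)
  have hT' : V + Real.log 1 + 2 * Real.log k ≤ Real.log T := by
    rw [Real.log_one]
    linarith
  -- clusters
  have hcl : ∀ A ⊆ W, (∀ b ∈ A, ∀ b' ∈ A, b ≠ b' → Near (1 / T) (Q * fr p b) (Q * fr p b')) →
      A.card ≤ M := by
    intro A hA hnear
    apply D.cluster_card hη hK hV hM A (fun b => b) (fun b hb => hA hb)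
    intro b hb b' hb' hne
    exact D.dif_ge hT1 one_pos hT' hk (mem_TT.mp (hA hb)).1 (mem_TT.mp (hA hb')).1 hne
      (hnear b hb b' hb' hne)
  -- the shift
  obtain ⟨s, hs, hmain⟩ := exists_shift p a S (fun i => by have := D.S2 i; omega) Q T M m0 hT1 hm0 W
    hcl (Real.exp (-(V / (100 * N ^ 2 * Real.log k)))) (Real.exp_nonneg _) (by
      intro b hb b' hb' hne hnear
      apply D.damping hk hL hN (mem_TT.mp hb).1 (mem_TT.mp hb').1
      exact D.dif_ge (c := (m0 : ℝ) + 1) hT1 (by positivity) hT hk (mem_TT.mp hb).1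
        (mem_TT.mp hb').1 hne hnear) hc
  have hs' : ∀ i, s i < S i := by
    intro i
    exact mem_range.mp (Fintype.mem_piFinset.mp hs i)
  -- masses
  have hC0 := D.C0_pos
  have hmass : 1 - P ≤ ∑ b ∈ W, ms p a b := by
    have h1 := D.sum_ms
    have h2 : ∑ b ∈ Wd p, ms p a b = ∑ b ∈ W, ms p a b + ∑ b ∈ Wd p \ W, ms p a b := by
      rw [add_comm]
      exact (sum_sdiff hWW).symm
    have h3 : ∑ b ∈ Wd p \ W, ms p a b ≤ P := by
      rw [hP]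
      apply D.mass_dev (η := η - Real.log k) hLi hK hlam
      intro b hb
      obtain ⟨h4, h5⟩ := mem_sdiff.mp hb
      have h6 := mem_Wd.mp h4
      refine ⟨h6, ?_⟩
      rw [hW, mem_TT, not_and] at h5
      have h7 := h5 h6
      rw [not_le] at h7
      linarith
    linarith
  have hbd : ∀ i, ∑ b ∈ bd p W i, ms p a b ≤ P := by
    intro i
    rw [hP]
    apply D.mass_dev (η := η - Real.log k) hLi hK hlam
    intro b hb
    obtain ⟨h1, h2⟩ := D.bd_score hLi i b hb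
    refine ⟨h1, ?_⟩
    linarith
  set m := ∑ b ∈ W, ms p a b with hm
  have hm1 : m ≤ 1 := by
    rw [hm, ← D.sum_ms]
    exact sum_le_sum_of_subset_of_nonneg hWW (fun b _ _ => ms_nonneg b)
  -- pointwise bound
  have hpt : ∀ t1 ∈ range T, ∀ t2 ∈ range T, ‖Fw p a s Q W (t1 + t2)‖ ^ 2 ≤
      ∑ i, ‖Fw p a s Q (bd p W i) (t1 + t2)‖ ^ 2 +
      ∑ q ∈ Pr, 2 * ‖dg J (q / (4 * J)) q (Q * (t1 + t2 + 1)) * Fw p a s Q W (t1 + t2)‖ ^ 2 := by
    intro t1 ht1 t2 ht2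
    have n1 : 0 ≤ ∑ i, ‖Fw p a s Q (bd p W i) (t1 + t2)‖ ^ 2 :=
      sum_nonneg (fun _ _ => sq_nonneg _)
    have n2 : 0 ≤ ∑ q ∈ Pr, 2 * ‖dg J (q / (4 * J)) q (Q * (t1 + t2 + 1)) *
        Fw p a s Q W (t1 + t2)‖ ^ 2 := sum_nonneg (fun _ _ => by positivity)
    have ht : t1 + t2 < 2 * T := by
      have := mem_range.mp ht1
      have := mem_range.mp ht2
      omega
    by_cases hgood : ∀ i, Q * (t1 + t2 + 1) % p i < a i + S i - 1
    · obtain ⟨q, hq, hE⟩ := hcon (t1 + t2) ht hgood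
      obtain ⟨hq1, hq2, hq3, hq4⟩ := hPr q hq
      have hHq : 1 ≤ q / (4 * J) := (Nat.one_le_div_iff (by omega)).mpr hq3
      have h1 := digit_major q J (q / (4 * J)) (Q * (t1 + t2 + 1)) hJ (by omega) hHq
        (Nat.mul_div_le _ _) hE
      have h2 := single_le_sum (f := fun q => 2 * ‖dg J (q / (4 * J)) q (Q * (t1 + t2 + 1)) *
        Fw p a s Q W (t1 + t2)‖ ^ 2) (fun i _ => by positivity) hq
      rw [norm_mul, mul_pow] at h2
      have h3 : 1 ≤ 2 * ‖dg J (q / (4 * J)) q (Q * (t1 + t2 + 1))‖ ^ 2 := h1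
      have h4 : 0 ≤ ‖Fw p a s Q W (t1 + t2)‖ ^ 2 := sq_nonneg _
      nlinarith
    · push Not at hgood
      obtain ⟨i, hi⟩ := hgood
      have h1 := D.Fw_bad s hs' W hWW (t1 + t2) i hi
      have h2 := single_le_sum (f := fun i => ‖Fw p a s Q (bd p W i) (t1 + t2)‖ ^ 2)
        (fun i _ => sq_nonneg _) (mem_univ i)
      rw [← h1] at h2
      linarith
  -- the boundary terms
  have hB : ∀ i, ∑ t1 ∈ range T, ∑ t2 ∈ range T, ‖Fw p a s Q (bd p W i) (t1 + t2)‖ ^ 2 ≤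
      5 * M * T ^ 2 * (C0 p a * P) := by
    intro i
    have h1 := D.sieve_words s hT1 (bd p W i) (M := M) (fun A hA => hcl A (hA.trans (bd_sub W i)))
    refine h1.trans ?_
    have h2 := hbd i
    have h3 : C0 p a * ∑ b ∈ bd p W i, ms p a b ≤ C0 p a * P :=
      mul_le_mul_of_nonneg_left h2 hC0.le
    exact mul_le_mul_of_nonneg_left h3 (by positivity)
  -- the digit terms
  have hDg : ∀ q ∈ Pr, ∑ t1 ∈ range T, ∑ t2 ∈ range T,
      ‖dg J (q / (4 * J)) q (Q * (t1 + t2 + 1)) * Fw p a s Q W (t1 + t2)‖ ^ 2 ≤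
      5 * M * T ^ 2 * (C0 p a * m) / ((q / (4 * J) : ℕ) : ℝ) := by
    intro q hq
    obtain ⟨hq1, hq2, hq3, hq4⟩ := hPr q hq
    have hHq : 1 ≤ q / (4 * J) := (Nat.one_le_div_iff (by omega)).mpr hq3
    have hHlt : q / (4 * J) < q := Nat.div_lt_self hq1.pos (by omega)
    apply D.sieve_digit s hT1 hHq hq1.pos W
    intro A hA hnear
    apply D.cluster_card hη hK hV hM A (fun x => x.1) (fun x hx => (mem_product.mp (hA hx)).1)
    intro x hx y hy hne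
    have hx1 := mem_product.mp (hA hx)
    have hy1 := mem_product.mp (hA hy)
    apply D.dif_ge_digit hT1 one_pos hT' hq1 hq2 hq4 (mem_TT.mp hx1.1).1 (mem_TT.mp hy1.1).1
      ((mem_range.mp hx1.2).trans hHlt) ((mem_range.mp hy1.2).trans hHlt) _
      (hnear x hx y hy hne)
    by_contra hc2
    push Not at hc2
    exact hne (Prod.ext hc2.1 hc2.2)
  -- total
  have htot : ∑ t1 ∈ range T, ∑ t2 ∈ range T, ‖Fw p a s Q W (t1 + t2)‖ ^ 2 ≤
      ∑ i, ∑ t1 ∈ range T, ∑ t2 ∈ range T, ‖Fw p a s Q (bd p W i) (t1 + t2)‖ ^ 2 +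
      ∑ q ∈ Pr, 2 * ∑ t1 ∈ range T, ∑ t2 ∈ range T,
        ‖dg J (q / (4 * J)) q (Q * (t1 + t2 + 1)) * Fw p a s Q W (t1 + t2)‖ ^ 2 := by
    calc ∑ t1 ∈ range T, ∑ t2 ∈ range T, ‖Fw p a s Q W (t1 + t2)‖ ^ 2 ≤
        ∑ t1 ∈ range T, ∑ t2 ∈ range T, (∑ i, ‖Fw p a s Q (bd p W i) (t1 + t2)‖ ^ 2 +
      ∑ q ∈ Pr, 2 * ‖dg J (q / (4 * J)) q (Q * (t1 + t2 + 1)) *
        Fw p a s Q W (t1 + t2)‖ ^ 2) := by
          apply sum_le_sum
          intro t1 ht1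
          apply sum_le_sum
          intro t2 ht2
          exact hpt t1 ht1 t2 ht2
      _ = _ := by
          simp only [sum_add_distrib]
          congr 1
          · rw [sum_comm' (s := univ) (t := fun _ => range T) (t' := range T)
              (s' := fun _ => univ) (by simp)]
            apply sum_congr rfl
            intro t1 _
            rw [sum_comm]
          · rw [sum_congr rfl (fun t1 _ => sum_comm), sum_comm]
            apply sum_congr rfl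
            intro q _
            rw [mul_sum]
            apply sum_congr rfl
            intro t1 _
            rw [mul_sum]
  have h1 : ∑ i, ∑ t1 ∈ range T, ∑ t2 ∈ range T, ‖Fw p a s Q (bd p W i) (t1 + t2)‖ ^ 2 ≤
      (T ^ 2 * C0 p a) * (5 * M * (Fintype.card ι) * P) := by
    calc ∑ i, ∑ t1 ∈ range T, ∑ t2 ∈ range T, ‖Fw p a s Q (bd p W i) (t1 + t2)‖ ^ 2 ≤
        ∑ _i : ι, 5 * M * T ^ 2 * (C0 p a * P) := sum_le_sum (fun i _ => hB i)
      _ = _ := by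
          rw [sum_const, nsmul_eq_mul, card_univ]
          ring
  have h2 : ∑ q ∈ Pr, 2 * ∑ t1 ∈ range T, ∑ t2 ∈ range T,
        ‖dg J (q / (4 * J)) q (Q * (t1 + t2 + 1)) * Fw p a s Q W (t1 + t2)‖ ^ 2 ≤
      (T ^ 2 * C0 p a) * (m * (1 / 4)) := by
    calc ∑ q ∈ Pr, 2 * ∑ t1 ∈ range T, ∑ t2 ∈ range T,
        ‖dg J (q / (4 * J)) q (Q * (t1 + t2 + 1)) * Fw p a s Q W (t1 + t2)‖ ^ 2 ≤
        ∑ q ∈ Pr, 2 * (5 * M * T ^ 2 * (C0 p a * m) / ((q / (4 * J) : ℕ) : ℝ)) := by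
          apply sum_le_sum
          intro q hq
          exact mul_le_mul_of_nonneg_left (hDg q hq) (by norm_num)
      _ = (T ^ 2 * C0 p a * m) * ∑ q ∈ Pr, (10 * M : ℝ) / ((q / (4 * J) : ℕ) : ℝ) := by
          rw [mul_sum Pr]
          apply sum_congr rfl
          intro q _
          ring
      _ ≤ (T ^ 2 * C0 p a * m) * (1 / 4) := by
          apply mul_le_mul_of_nonneg_left hsum
          have : 0 ≤ m := sum_nonneg (fun b _ => ms_nonneg b)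
          positivity
      _ = _ := by ring
  have h3 : 1 / 2 * (T : ℝ) ^ 2 * ∑ b ∈ W, ∏ i, ‖gam (p i) (a i) (b i)‖ ^ 2 =
      (T ^ 2 * C0 p a) * (m * (1 / 2)) := by
    have : ∑ b ∈ W, ∏ i, ‖gam (p i) (a i) (b i)‖ ^ 2 = C0 p a * m := by
      rw [hm, mul_sum]
      exact sum_congr rfl (fun b _ => D.prod_gam b)
    rw [this]
    ring
  rw [h3] at hmain
  have h4 : (T ^ 2 * C0 p a) * (m * (1 / 2)) ≤
      (T ^ 2 * C0 p a) * (5 * M * (Fintype.card ι) * P + m * (1 / 4)) := by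
    calc (T ^ 2 * C0 p a) * (m * (1 / 2)) ≤ _ := hmain.trans (htot.trans (add_le_add h1 h2))
      _ = _ := by ring
  have h5 : (0 : ℝ) < T ^ 2 * C0 p a := by positivity
  have h6 := le_of_mul_le_mul_left h4 h5
  linarith

end Setup

end Pool.Agent.Lib.MP_d5700b_nt.FW
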