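import Mathlib

set_option autoImplicit false

/-!
Fourier words: definitions.
-/

namespace Pool.Agent.Lib.MP_d5700b_nt.FW

open Finset

/-- `e(x) = exp(2 pi i x)`. -/
noncomputable def ee (x : ℝ) : ℂ := Complex.exp (((2 * Real.pi * x : ℝ) : ℂ) * Complex.I)

/-- The Dirichlet kernel. -/
noncomputable def Dk (T : ℕ) (x : ℝ) : ℂ := ∑ s ∈ range T, ee (x * s)

/-- `x` and `y` are closer than `δ` modulo one. -/
def Near (δ x y : ℝ) : Prop := ∃ z : ℤ, |x - y - z| < δ

/-- The Fourier coefficients of the arc `0, ..., a - 1` modulo `p`. -/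
noncomputable def gam (p a b : ℕ) : ℂ := (1 / (p : ℂ)) * ∑ u ∈ range a, ee (-((b : ℝ) * u / p))

/-- The probability of the letter `b`. -/
noncomputable def mm (p a b : ℕ) : ℝ := ‖gam p a b‖ ^ 2 * p / a

/-- The collision probability. -/
noncomputable def kap (p a : ℕ) : ℝ := ∑ b ∈ range p, mm p a b ^ 2

/-- The limit of the collision probability for an arc of length `u p`. -/
noncomputable def kt (u : ℝ) : ℝ := (2 * u ^ 3 + (max (2 * u - 1) 0) ^ 3) / (3 * u ^ 2)

section Words

variable {ι : Type} [Fintype ι] [DecidableEq ι]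

/-- The words. -/
def Wd (p : ι → ℕ) : Finset (ι → ℕ) := Fintype.piFinset (fun i => range (p i))

/-- The frequency of a word. -/
noncomputable def fr (p b : ι → ℕ) : ℝ := ∑ i, (b i : ℝ) / p i

/-- The coefficient of a word, for the shift `s`. -/
noncomputable def co (p a s b : ι → ℕ) : ℂ :=
  ∏ i, gam (p i) (a i) (b i) * ee (-((b i : ℝ) * s i / p i))

/-- The exponential sum over a set of words. -/
noncomputable def Fw (p a s : ι → ℕ) (Q : ℕ) (W : Finset (ι → ℕ)) (t : ℕ) : ℂ :=
  ∑ b ∈ W, co p a s b * ee (fr p b * (Q * (t + 1)))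

/-- The weight of the positions where two words differ. -/
noncomputable def dif (p b b' : ι → ℕ) : ℝ := ∑ i, if b i = b' i then 0 else Real.log (p i)

/-- The score of a word. -/
noncomputable def sc (p a b : ι → ℕ) : ℝ := ∑ i, Real.log (p i) * mm (p i) (a i) (b i)

/-- The mass of a word. -/
noncomputable def ms (p a b : ι → ℕ) : ℝ := ∏ i, mm (p i) (a i) (b i)

end Words

end Pool.Agent.Lib.MP_d5700b_nt.FW
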