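import Pool.Agent.Lib.MP_d5700b_nt.FW.Defs
import Pool.Agent.Lib.MP_d5700b_nt.Limit

set_option autoImplicit false

/-!
Definitions of the rows L to O.
-/

namespace Pool.Agent.Lib.MP_d5700b_nt.FW

open Finset Filter Topology Pool.Agent.Lib.MP_d5700b_nt

/-- The large primes whose allowed arc is not too short. -/
def G2 (k J N : ℕ) : Finset ℕ := (La k J).filter (fun p => 2 * p ≤ N * (p - k % p))

/-- The other large primes. -/
def B2 (k J N : ℕ) : Finset ℕ := (La k J).filter (fun p => ¬ 2 * p ≤ N * (p - k % p))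

/-- The modulus. -/
def Q2 (k J N : ℕ) : ℕ := (∏ p ∈ Sm k J, p ^ (Nat.log p k + 1)) * ∏ p ∈ B2 k J N, p

/-- The cost of a prime with `⌊N (k mod p) / p⌋ = i`. -/
noncomputable def cst (N i : ℕ) : ℝ := if i + 2 < N then 1 - kt (1 - ((i : ℝ) + 2) / N) else 1

/-- The limit constant. -/
noncomputable def CF (N J : ℕ) : ℝ := cst N 0 + ∑ l ∈ Ico 1 N, (cst N l - cst N (l - 1)) *
  (1 / ((J : ℝ) + 1) + ∑ j ∈ Icc 1 J, ((N : ℝ) / (N * j + l) - 1 / ((j : ℝ) + 1)))

end Pool.Agent.Lib.MP_d5700b_nt.FW
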