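import Pool.Agent.Lib.MP_d5700b_nt.FW.Defs

set_option autoImplicit false

/-!
Row A : the exponential.
-/

namespace Pool.Agent.Lib.MP_d5700b_nt.FW

open Finset

lemma norm_ee (x : ℝ) : ‖ee x‖ = 1 := by
  unfold ee
  exact Complex.norm_exp_ofReal_mul_I _

lemma ee_zero : ee 0 = 1 := by
  unfold ee
  simp

lemma ee_add (x y : ℝ) : ee (x + y) = ee x * ee y := by
  unfold ee
  rw [← Complex.exp_add]
  congr 1
  push_cast
  ring

lemma ee_neg (x : ℝ) : ee (-x) = (starRingEnd ℂ) (ee x) := by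
  unfold ee
  rw [← Complex.exp_conj]
  congr 1
  rw [map_mul, Complex.conj_ofReal, Complex.conj_I]
  push_cast
  ring

lemma ee_int (z : ℤ) : ee (z : ℝ) = 1 := by
  unfold ee
  rw [Complex.exp_eq_one_iff]
  refine ⟨z, ?_⟩
  push_cast
  ring

lemma ee_add_int (x : ℝ) (z : ℤ) : ee (x + z) = ee x := by
  rw [ee_add, ee_int, mul_one]

lemma ee_mul_nat (x : ℝ) (n : ℕ) : ee (x * n) = ee x ^ n := by
  unfold ee
  rw [← Complex.exp_nat_mul]
  congr 1
  push_cast
  ring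

lemma ee_sum {ι : Type} (s : Finset ι) (f : ι → ℝ) : ee (∑ i ∈ s, f i) = ∏ i ∈ s, ee (f i) := by
  classical
  induction s using Finset.induction_on with
  | empty => simp [ee_zero]
  | insert a s ha ih => rw [sum_insert ha, prod_insert ha, ee_add, ih]

/-- trivial bound -/
lemma norm_Dk_le (T : ℕ) (x : ℝ) : ‖Dk T x‖ ≤ T := by
  unfold Dk
  refine (norm_sum_le _ _).trans ?_
  simp [norm_ee]

lemma ee_sub_int (x : ℝ) (z : ℤ) : ee (x - z) = ee x := by
  have := ee_add_int (x - z) z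
  rw [sub_add_cancel] at this
  exact this.symm

/-- `‖e(x) - 1‖ = 2 |sin (π x)|`. -/
lemma norm_ee_sub_one (x : ℝ) : ‖ee x - 1‖ = 2 * |Real.sin (Real.pi * x)| := by
  unfold ee
  have h1 := Complex.norm_exp_I_mul_ofReal_sub_one (2 * Real.pi * x)
  rw [mul_comm (Complex.I) _] at h1
  rw [h1, show 2 * Real.pi * x / 2 = Real.pi * x by ring, norm_mul, Real.norm_eq_abs,
    Real.norm_eq_abs, abs_two]

/-- geometric sum bound, `|sin (π x)| ≥ 2 ‖x‖` -/
lemma norm_Dk_le' (T : ℕ) (x d : ℝ) (hd : 0 < d) (h : ∀ z : ℤ, d ≤ |x - z|) :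
    ‖Dk T x‖ ≤ 1 / (2 * d) := by
  set y : ℝ := x - round x with hy
  have hyd : d ≤ |y| := h (round x)
  have hy2 : |y| ≤ 1 / 2 := abs_sub_round x
  have hee : ee y = ee x := ee_sub_int x (round x)
  have hlow : 4 * d ≤ ‖ee x - 1‖ := by
    rw [← hee, norm_ee_sub_one]
    have h1 : 2 / Real.pi * |Real.pi * y| ≤ |Real.sin (Real.pi * y)| := by
      apply Real.mul_abs_le_abs_sin
      rw [abs_mul, abs_of_pos Real.pi_pos]
      nlinarith [Real.pi_pos]
    rw [abs_mul, abs_of_pos Real.pi_pos] at h1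
    have h2 : 2 / Real.pi * (Real.pi * |y|) = 2 * |y| := by
      field_simp
    rw [h2] at h1
    linarith
  have hne : ee x - 1 ≠ 0 := by
    intro h0
    rw [h0, norm_zero] at hlow
    linarith
  have hgeom : Dk T x = (ee x ^ T - 1) / (ee x - 1) := by
    unfold Dk
    simp_rw [ee_mul_nat]
    rw [geom_sum_eq (fun h0 => hne (by rw [h0, sub_self]))]
  rw [hgeom, norm_div]
  have hnum : ‖ee x ^ T - 1‖ ≤ 2 := by
    refine (norm_sub_le _ _).trans ?_
    rw [norm_pow, norm_ee, one_pow, norm_one]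
    norm_num
  calc ‖ee x ^ T - 1‖ / ‖ee x - 1‖ ≤ 2 / (4 * d) := by
        apply div_le_div₀ (by norm_num) hnum (by positivity) hlow
    _ = 1 / (2 * d) := by
        field_simp
        norm_num

/-- the angles `2 π (β - z) s` are at most `π / 4`: take the real part -/
lemma le_norm_Dk (H : ℕ) (β : ℝ) (z : ℤ) (hβ : |β - z| * (8 * H) ≤ 1) :
    (H : ℝ) ^ 2 ≤ 2 * ‖Dk H β‖ ^ 2 := by
  have h1 : ∀ s ∈ range H, Real.sqrt 2 / 2 ≤ (ee (β * s)).re := by
    intro s hs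
    have hsH : (s : ℝ) ≤ H := by exact_mod_cast (mem_range.mp hs).le
    have e1 : ee (β * s) = ee ((β - z) * s) := by
      have : (β : ℝ) * s = (β - z) * s + ((z * s : ℤ) : ℝ) := by
        push_cast
        ring
      rw [this, ee_add_int]
    rw [e1]
    have e2 : (ee ((β - z) * s)).re = Real.cos (2 * Real.pi * ((β - z) * s)) := by
      unfold ee
      rw [Complex.exp_ofReal_mul_I_re]
    rw [e2, ← Real.cos_pi_div_four, ← Real.cos_abs (2 * Real.pi * ((β - z) * s))]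
    apply Real.cos_le_cos_of_nonneg_of_le_pi (abs_nonneg _)
      (by linarith [Real.pi_pos])
    rw [abs_mul (2 * Real.pi), abs_mul (β - z), abs_of_pos (by positivity : (0 : ℝ) < 2 * Real.pi),
      abs_of_nonneg (Nat.cast_nonneg s : (0 : ℝ) ≤ s)]
    have h3 : |β - z| * s ≤ |β - z| * H := mul_le_mul_of_nonneg_left hsH (abs_nonneg _)
    nlinarith [Real.pi_pos, h3]
  have h2 : (H : ℝ) * (Real.sqrt 2 / 2) ≤ (Dk H β).re := by
    unfold Dk
    rw [Complex.re_sum]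
    calc (H : ℝ) * (Real.sqrt 2 / 2) = ∑ _s ∈ range H, Real.sqrt 2 / 2 := by simp
      _ ≤ _ := sum_le_sum h1
  have h3 : (Dk H β).re ≤ ‖Dk H β‖ := Complex.re_le_norm _
  have h4 : (H : ℝ) * (Real.sqrt 2 / 2) ≤ ‖Dk H β‖ := h2.trans h3
  have h5 : ((H : ℝ) * (Real.sqrt 2 / 2)) ^ 2 ≤ ‖Dk H β‖ ^ 2 := by
    apply pow_le_pow_left₀ (by positivity) h4
  have h6 : ((H : ℝ) * (Real.sqrt 2 / 2)) ^ 2 = (H : ℝ) ^ 2 / 2 := by
    rw [mul_pow, div_pow, Real.sq_sqrt (by norm_num)]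
    ring
  linarith

end Pool.Agent.Lib.MP_d5700b_nt.FW
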