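import Pool.Agent.Lib.MP_d5700b_nt.FW.RowA

set_option autoImplicit false

/-!
Row B: cluster sums and the large sieve.
-/

namespace Pool.Agent.Lib.MP_d5700b_nt.FW

open Finset

/-- the weight of a distance class -/
noncomputable def bt (ρ : ℝ) (m0 m : ℕ) : ℝ :=
  if m ≤ m0 then ρ + 1 / (4 * ((m0 : ℝ) + 1) ^ 2) else 1 / (4 * (m : ℝ) ^ 2)

lemma bt_nonneg {ρ : ℝ} (hρ : 0 ≤ ρ) (m0 m : ℕ) : 0 ≤ bt ρ m0 m := by
  unfold bt
  split_ifs <;> positivity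

lemma bt_sum_aux {ρ : ℝ} (m0 : ℕ) (hm0 : 1 ≤ m0) (n : ℕ) :
    ∑ m ∈ range (m0 + 1 + n), bt ρ m0 m ≤
      ((m0 : ℝ) + 1) * (ρ + 1 / (4 * ((m0 : ℝ) + 1) ^ 2)) +
        (1 / 4) * (1 / (m0 : ℝ) - 1 / ((m0 : ℝ) + n)) := by
  have hm : (1 : ℝ) ≤ m0 := by exact_mod_cast hm0
  induction n with
  | zero =>
    have h1 : ∑ m ∈ range (m0 + 1 + 0), bt ρ m0 m =
        ∑ m ∈ range (m0 + 1 + 0), (ρ + 1 / (4 * ((m0 : ℝ) + 1) ^ 2)) := by
      refine sum_congr rfl (fun m hm => ?_)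
      have : m ≤ m0 := by
        have := mem_range.mp hm
        omega
      simp [bt, this]
    rw [h1, sum_const, card_range, nsmul_eq_mul]
    push_cast
    simp
  | succ n ih =>
    rw [← add_assoc, sum_range_succ]
    have h2 : bt ρ m0 (m0 + 1 + n) = 1 / (4 * (((m0 + 1 + n : ℕ) : ℝ)) ^ 2) := by
      unfold bt
      rw [if_neg (by omega)]
    have hn : (0 : ℝ) ≤ n := Nat.cast_nonneg n
    have h3 : 1 / (4 * (((m0 + 1 + n : ℕ) : ℝ)) ^ 2) ≤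
        (1 / 4) * (1 / ((m0 : ℝ) + n) - 1 / ((m0 : ℝ) + (n + 1 : ℕ))) := by
      push_cast
      have hx : 0 < (m0 : ℝ) + n := by linarith
      have e1 : (1 : ℝ) / 4 * (1 / ((m0 : ℝ) + n) - 1 / ((m0 : ℝ) + (n + 1))) =
          1 / (4 * (((m0 : ℝ) + n) * ((m0 : ℝ) + (n + 1)))) := by
        have : (m0 : ℝ) + (n + 1) ≠ 0 := by linarith
        field_simp
        ring
      rw [e1]
      apply one_div_le_one_div_of_le (by nlinarith)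
      nlinarith
    rw [h2]
    linarith

lemma bt_sum {ρ : ℝ} (hρ : 0 ≤ ρ) (m0 : ℕ) (hm0 : 1 ≤ m0) (T : ℕ) :
    2 * ∑ m ∈ range T, bt ρ m0 m ≤ 2 * (m0 + 1) * ρ + 1 / m0 := by
  have hm : (1 : ℝ) ≤ m0 := by exact_mod_cast hm0
  have h1 : ∑ m ∈ range T, bt ρ m0 m ≤ ∑ m ∈ range (m0 + 1 + T), bt ρ m0 m :=
    sum_le_sum_of_subset_of_nonneg (range_mono (by omega)) (fun m _ _ => bt_nonneg hρ m0 m)
  have h2 := bt_sum_aux (ρ := ρ) m0 hm0 T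
  have h3 : 0 ≤ 1 / ((m0 : ℝ) + T) := by positivity
  have h4 : ((m0 : ℝ) + 1) * (ρ + 1 / (4 * ((m0 : ℝ) + 1) ^ 2)) =
      ((m0 : ℝ) + 1) * ρ + 1 / (4 * ((m0 : ℝ) + 1)) := by
    have : (m0 : ℝ) + 1 ≠ 0 := by positivity
    field_simp
  have h5 : 1 / (4 * ((m0 : ℝ) + 1)) ≤ 1 / (4 * (m0 : ℝ)) :=
    one_div_le_one_div_of_le (by linarith) (by linarith)
  have h6 : 1 / (4 * (m0 : ℝ)) = (1 / 4) * (1 / (m0 : ℝ)) := by
    field_simp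
  rw [h4] at h2
  linarith

/-- the distance class of `x` -/
noncomputable def cl (T : ℕ) (x : ℝ) : ℕ := ⌊(T : ℝ) * Int.fract x⌋₊

lemma cl_lt {T : ℕ} (hT : 1 ≤ T) (x : ℝ) : cl T x < T := by
  have hT' : (0 : ℝ) < T := by exact_mod_cast hT
  have h1 := Int.fract_lt_one x
  have h0 := Int.fract_nonneg x
  unfold cl
  rw [Nat.floor_lt (by positivity)]
  nlinarith

lemma cl_le {T : ℕ} (x : ℝ) : (cl T x : ℝ) ≤ T * Int.fract x :=
  Nat.floor_le (mul_nonneg (Nat.cast_nonneg T) (Int.fract_nonneg x))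

lemma lt_cl {T : ℕ} (x : ℝ) : (T : ℝ) * Int.fract x < cl T x + 1 :=
  Nat.lt_floor_add_one _

lemma near_of_cl {T : ℕ} (hT : 1 ≤ T) (x0 x y : ℝ) (h : cl T (x0 - x) = cl T (x0 - y)) :
    Near (1 / T) x y := by
  have hT' : (0 : ℝ) < T := by exact_mod_cast hT
  refine ⟨⌊x0 - y⌋ - ⌊x0 - x⌋, ?_⟩
  have e1 : Int.fract (x0 - x) = x0 - x - ⌊x0 - x⌋ := rfl
  have e2 : Int.fract (x0 - y) = x0 - y - ⌊x0 - y⌋ := rfl
  have e3 : x - y - ((⌊x0 - y⌋ - ⌊x0 - x⌋ : ℤ) : ℝ) =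
      Int.fract (x0 - y) - Int.fract (x0 - x) := by
    rw [e1, e2]; push_cast; ring
  rw [e3, abs_lt]
  have a1 := cl_le (T := T) (x0 - x)
  have a2 := cl_le (T := T) (x0 - y)
  have b1 := lt_cl (T := T) (x0 - x)
  have b2 := lt_cl (T := T) (x0 - y)
  rw [h] at a1 b1
  constructor
  · rw [neg_lt, neg_sub, lt_div_iff₀ hT']
    nlinarith
  · rw [lt_div_iff₀ hT']
    nlinarith

/-- the distance to the integers is at least `min m (T - 1 - m) / T` -/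
lemma le_dist {T : ℕ} (hT : 1 ≤ T) (x : ℝ) (z : ℤ) :
    ((min (cl T x) (T - 1 - cl T x) : ℕ) : ℝ) / T ≤ |x - z| := by
  have hT' : (0 : ℝ) < T := by exact_mod_cast hT
  have a := cl_le (T := T) x
  have b := lt_cl (T := T) x
  have hc := cl_lt hT x
  have e1 : Int.fract x = x - ⌊x⌋ := rfl
  rw [div_le_iff₀ hT']
  rcases le_or_gt z ⌊x⌋ with h | h
  · have h1 : ((min (cl T x) (T - 1 - cl T x) : ℕ) : ℝ) ≤ cl T x := by
      exact_mod_cast min_le_left _ _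
    have h2 : (z : ℝ) ≤ ⌊x⌋ := by exact_mod_cast h
    have h3 : x - ⌊x⌋ ≤ |x - z| := le_trans (by linarith) (le_abs_self _)
    rw [e1] at a
    nlinarith
  · have h1 : ((min (cl T x) (T - 1 - cl T x) : ℕ) : ℝ) ≤ ((T - 1 - cl T x : ℕ) : ℝ) := by
      exact_mod_cast min_le_right _ _
    have h1' : ((T - 1 - cl T x : ℕ) : ℝ) = (T : ℝ) - 1 - cl T x := by
      rw [Nat.cast_sub (by omega), Nat.cast_sub hT]
      simp
    have h2 : (⌊x⌋ : ℝ) + 1 ≤ z := by exact_mod_cast h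
    have h3 : (z : ℝ) - x ≤ |x - z| := by
      rw [abs_sub_comm]; exact le_abs_self _
    rw [e1] at b
    nlinarith

/-- the bound of one term -/
lemma term_le {T m0 : ℕ} (hT : 1 ≤ T) (x0 x ρ lam : ℝ) (hρ : 0 ≤ ρ)
    (h1 : lam ≤ 1) (hn : Near ((m0 + 1) / T) x0 x → lam ≤ ρ) :
    lam * ‖Dk T (x0 - x)‖ ^ 2 ≤
      T ^ 2 * bt ρ m0 (min (cl T (x0 - x)) (T - 1 - cl T (x0 - x))) := by
  have hT' : (0 : ℝ) < T := by exact_mod_cast hT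
  have hD0 : 0 ≤ ‖Dk T (x0 - x)‖ := norm_nonneg _
  have hm0 : (0 : ℝ) ≤ m0 := Nat.cast_nonneg m0
  by_cases hN : Near ((m0 + 1) / T) x0 x
  · have hl := hn hN
    obtain ⟨z, hz⟩ := hN
    have h2 := le_dist hT (x0 - x) z
    have h3 : ((min (cl T (x0 - x)) (T - 1 - cl T (x0 - x)) : ℕ) : ℝ) < m0 + 1 := by
      have := lt_of_le_of_lt h2 hz
      rw [div_lt_div_iff_of_pos_right hT'] at this
      exact this
    have h4 : min (cl T (x0 - x)) (T - 1 - cl T (x0 - x)) ≤ m0 := by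
      have : min (cl T (x0 - x)) (T - 1 - cl T (x0 - x)) < m0 + 1 := by exact_mod_cast h3
      omega
    have h5 := norm_Dk_le T (x0 - x)
    have h6 : ‖Dk T (x0 - x)‖ ^ 2 ≤ (T : ℝ) ^ 2 := by
      exact pow_le_pow_left₀ hD0 h5 2
    unfold bt
    rw [if_pos h4]
    have h7 : 0 ≤ 1 / (4 * ((m0 : ℝ) + 1) ^ 2) := by positivity
    calc lam * ‖Dk T (x0 - x)‖ ^ 2 ≤ ρ * (T : ℝ) ^ 2 :=
          mul_le_mul hl h6 (by positivity) hρ
      _ ≤ (T : ℝ) ^ 2 * (ρ + 1 / (4 * ((m0 : ℝ) + 1) ^ 2)) := by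
          have : 0 ≤ (T : ℝ) ^ 2 * (1 / (4 * ((m0 : ℝ) + 1) ^ 2)) := by positivity
          linarith
  · -- far
    have key : ∀ d : ℝ, 0 < d → (∀ z : ℤ, d / T ≤ |x0 - x - z|) →
        lam * ‖Dk T (x0 - x)‖ ^ 2 ≤ (T : ℝ) ^ 2 * (1 / (4 * d ^ 2)) := by
      intro d hd hz
      have g1 := norm_Dk_le' T (x0 - x) (d / T) (by positivity) hz
      have g2 : ‖Dk T (x0 - x)‖ ^ 2 ≤ (1 / (2 * (d / T))) ^ 2 := pow_le_pow_left₀ hD0 g1 2
      have g3 : (1 / (2 * (d / T))) ^ 2 = (T : ℝ) ^ 2 * (1 / (4 * d ^ 2)) := by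
        field_simp
        ring
      rw [← g3]
      calc lam * ‖Dk T (x0 - x)‖ ^ 2 ≤ 1 * ‖Dk T (x0 - x)‖ ^ 2 :=
            mul_le_mul_of_nonneg_right h1 (by positivity)
        _ ≤ _ := by rw [one_mul]; exact g2
    have hfar : ∀ z : ℤ, ((m0 : ℝ) + 1) / T ≤ |x0 - x - z| := by
      intro z
      by_contra hc
      exact hN ⟨z, not_le.mp hc⟩
    unfold bt
    split_ifs with h4
    · refine (key ((m0 : ℝ) + 1) (by linarith) hfar).trans ?_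
      apply mul_le_mul_of_nonneg_left _ (by positivity)
      linarith
    · refine key _ ?_ (le_dist hT (x0 - x))
      have : 0 < min (cl T (x0 - x)) (T - 1 - cl T (x0 - x)) := by omega
      exact_mod_cast this

theorem sum_Dk_damped {α : Type} [DecidableEq α] (I : Finset α) (x : α → ℝ) (T M m0 : ℕ)
    (hT : 1 ≤ T) (hm0 : 1 ≤ m0)
    (hcl : ∀ A ⊆ I, (∀ i ∈ A, ∀ j ∈ A, i ≠ j → Near (1 / T) (x i) (x j)) → A.card ≤ M)
    (x0 ρ : ℝ) (hρ : 0 ≤ ρ) (lam : α → ℝ) (h0 : ∀ j ∈ I, 0 ≤ lam j ∧ lam j ≤ 1)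
    (h1 : ∀ j ∈ I, Near ((m0 + 1) / T) x0 (x j) → lam j ≤ ρ) :
    ∑ j ∈ I, lam j * ‖Dk T (x0 - x j)‖ ^ 2 ≤
      (2 * (m0 + 1) * ρ + 1 / m0) * M * T ^ 2 := by
  classical
  have hT' : (0 : ℝ) < T := by exact_mod_cast hT
  have step1 : ∑ j ∈ I, lam j * ‖Dk T (x0 - x j)‖ ^ 2 ≤
      ∑ j ∈ I, (T : ℝ) ^ 2 * (bt ρ m0 (cl T (x0 - x j)) +
        bt ρ m0 (T - 1 - cl T (x0 - x j))) := by
    refine sum_le_sum (fun j hj => ?_)
    refine (term_le hT x0 (x j) ρ (lam j) hρ (h0 j hj).2 (h1 j hj)).trans ?_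
    apply mul_le_mul_of_nonneg_left _ (by positivity)
    rcases min_choice (cl T (x0 - x j)) (T - 1 - cl T (x0 - x j)) with h | h
    · rw [h]
      linarith [bt_nonneg hρ m0 (T - 1 - cl T (x0 - x j))]
    · rw [h]
      linarith [bt_nonneg hρ m0 (cl T (x0 - x j))]
  have step2 : ∑ j ∈ I, (T : ℝ) ^ 2 * (bt ρ m0 (cl T (x0 - x j)) +
        bt ρ m0 (T - 1 - cl T (x0 - x j))) =
      ∑ m ∈ range T, ∑ j ∈ I.filter (fun j => cl T (x0 - x j) = m),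
        (T : ℝ) ^ 2 * (bt ρ m0 (cl T (x0 - x j)) + bt ρ m0 (T - 1 - cl T (x0 - x j))) :=
    (sum_fiberwise_of_maps_to (fun j _ => mem_range.mpr (cl_lt hT _)) _).symm
  have step3 : ∀ m ∈ range T, ∑ j ∈ I.filter (fun j => cl T (x0 - x j) = m),
        (T : ℝ) ^ 2 * (bt ρ m0 (cl T (x0 - x j)) + bt ρ m0 (T - 1 - cl T (x0 - x j))) ≤
      (M : ℝ) * T ^ 2 * (bt ρ m0 m + bt ρ m0 (T - 1 - m)) := by
    intro m _
    have e1 : ∑ j ∈ I.filter (fun j => cl T (x0 - x j) = m),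
        (T : ℝ) ^ 2 * (bt ρ m0 (cl T (x0 - x j)) + bt ρ m0 (T - 1 - cl T (x0 - x j))) =
        ∑ j ∈ I.filter (fun j => cl T (x0 - x j) = m),
          (T : ℝ) ^ 2 * (bt ρ m0 m + bt ρ m0 (T - 1 - m)) := by
      refine sum_congr rfl (fun j hj => ?_)
      rw [(mem_filter.mp hj).2]
    rw [e1, sum_const, nsmul_eq_mul, mul_assoc]
    apply mul_le_mul_of_nonneg_right
    · have := hcl (I.filter (fun j => cl T (x0 - x j) = m)) (filter_subset _ _) (by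
        intro i hi j hj _
        exact near_of_cl hT x0 (x i) (x j)
          ((mem_filter.mp hi).2.trans (mem_filter.mp hj).2.symm))
      exact_mod_cast this
    · have := bt_nonneg hρ m0 m
      have := bt_nonneg hρ m0 (T - 1 - m)
      positivity
  have step4 : ∑ m ∈ range T, (M : ℝ) * T ^ 2 * (bt ρ m0 m + bt ρ m0 (T - 1 - m)) =
      (M : ℝ) * T ^ 2 * (2 * ∑ m ∈ range T, bt ρ m0 m) := by
    rw [← mul_sum, sum_add_distrib, sum_range_reflect (fun m => bt ρ m0 m) T]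
    ring
  calc ∑ j ∈ I, lam j * ‖Dk T (x0 - x j)‖ ^ 2
      ≤ ∑ m ∈ range T, (M : ℝ) * T ^ 2 * (bt ρ m0 m + bt ρ m0 (T - 1 - m)) := by
        rw [step2] at step1
        exact step1.trans (sum_le_sum step3)
    _ = (M : ℝ) * T ^ 2 * (2 * ∑ m ∈ range T, bt ρ m0 m) := step4
    _ ≤ (M : ℝ) * T ^ 2 * (2 * (m0 + 1) * ρ + 1 / m0) :=
        mul_le_mul_of_nonneg_left (bt_sum hρ m0 hm0 T) (by positivity)
    _ = _ := by ring

lemma Dk_zero (T : ℕ) : Dk T 0 = T := by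
  unfold Dk
  simp [ee_zero]

lemma Dk_neg (T : ℕ) (x : ℝ) : Dk T (-x) = (starRingEnd ℂ) (Dk T x) := by
  unfold Dk
  rw [map_sum]
  refine sum_congr rfl (fun s _ => ?_)
  rw [neg_mul, ee_neg]

lemma norm_Dk_sub (T : ℕ) (x y : ℝ) : ‖Dk T (x - y)‖ = ‖Dk T (y - x)‖ := by
  rw [← neg_sub, Dk_neg, RCLike.norm_conj]

lemma near_symm {δ x y : ℝ} (h : Near δ x y) : Near δ y x := by
  obtain ⟨z, hz⟩ := h
  refine ⟨-z, ?_⟩
  rw [abs_lt] at hz ⊢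
  push_cast
  constructor <;> linarith [hz.1, hz.2]

lemma expand_sq {α : Type} (I : Finset α) (x : α → ℝ) (c : α → ℂ) (T : ℕ) :
    ((∑ s ∈ range T, ∑ s' ∈ range T, ‖∑ i ∈ I, c i * ee (x i * (s + s'))‖ ^ 2 : ℝ) : ℂ) =
      ∑ i ∈ I, ∑ j ∈ I, c i * (starRingEnd ℂ) (c j) * Dk T (x i - x j) ^ 2 := by
  have e1 : ∀ s s' : ℕ, ((‖∑ i ∈ I, c i * ee (x i * ((s : ℝ) + s'))‖ ^ 2 : ℝ) : ℂ) =
      ∑ i ∈ I, ∑ j ∈ I, c i * (starRingEnd ℂ) (c j) *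
        (ee ((x i - x j) * s) * ee ((x i - x j) * s')) := by
    intro s s'
    push_cast
    rw [← Complex.mul_conj', map_sum, sum_mul_sum]
    refine sum_congr rfl (fun i _ => sum_congr rfl (fun j _ => ?_))
    have h1 : (starRingEnd ℂ) (c j * ee (x j * ((s : ℝ) + s'))) =
        (starRingEnd ℂ) (c j) * ee (-(x j * ((s : ℝ) + s'))) := by
      rw [map_mul, ee_neg]
    have h2 : ee (x i * ((s : ℝ) + s')) * ee (-(x j * ((s : ℝ) + s'))) =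
        ee ((x i - x j) * s) * ee ((x i - x j) * s') := by
      rw [← ee_add, ← ee_add]
      congr 1
      ring
    rw [h1, ← h2]
    ring
  push_cast
  have e2 : ∀ s s' : ℕ, ((‖∑ i ∈ I, c i * ee (x i * ((s : ℝ) + s'))‖ : ℝ) : ℂ) ^ 2 =
      ∑ i ∈ I, ∑ j ∈ I, c i * (starRingEnd ℂ) (c j) *
        (ee ((x i - x j) * s) * ee ((x i - x j) * s')) := by
    intro s s'
    rw [← e1 s s']
    push_cast
    rfl
  simp only [e2]
  have e3 : ∀ s ∈ range T, ∑ s' ∈ range T, ∑ i ∈ I, ∑ j ∈ I,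
      c i * (starRingEnd ℂ) (c j) * (ee ((x i - x j) * (s : ℕ)) * ee ((x i - x j) * (s' : ℕ))) =
      ∑ i ∈ I, ∑ j ∈ I, c i * (starRingEnd ℂ) (c j) *
        (ee ((x i - x j) * (s : ℕ)) * Dk T (x i - x j)) := by
    intro s _
    rw [sum_comm]
    refine sum_congr rfl (fun i _ => ?_)
    rw [sum_comm]
    refine sum_congr rfl (fun j _ => ?_)
    rw [← mul_sum, ← mul_sum]
    rfl
  rw [sum_congr rfl e3, sum_comm]
  refine sum_congr rfl (fun i _ => ?_)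
  rw [sum_comm]
  refine sum_congr rfl (fun j _ => ?_)
  rw [← mul_sum, ← sum_mul, sq]
  rfl

/-- Schur test for a symmetric weight -/
lemma schur {α : Type} [DecidableEq α] (I : Finset α) (c : α → ℂ) (K : α → α → ℝ) (B : ℝ)
    (hK : ∀ i ∈ I, ∀ j ∈ I, 0 ≤ K i j) (h1 : ∀ i ∈ I, ∑ j ∈ I, K i j ≤ B)
    (h2 : ∀ j ∈ I, ∑ i ∈ I, K i j ≤ B) :
    ∑ i ∈ I, ∑ j ∈ I, ‖c i‖ * ‖c j‖ * K i j ≤ B * ∑ i ∈ I, ‖c i‖ ^ 2 := by
  have e1 : ∑ i ∈ I, ∑ j ∈ I, ‖c i‖ * ‖c j‖ * K i j ≤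
      ∑ i ∈ I, ∑ j ∈ I, ((1 / 2) * (‖c i‖ ^ 2 * K i j) + (1 / 2) * (‖c j‖ ^ 2 * K i j)) := by
    refine sum_le_sum (fun i hi => sum_le_sum (fun j hj => ?_))
    have := hK i hi j hj
    nlinarith [sq_nonneg (‖c i‖ - ‖c j‖), mul_nonneg (sq_nonneg (‖c i‖ - ‖c j‖)) this]
  have e2 : ∑ i ∈ I, ∑ j ∈ I, ‖c i‖ ^ 2 * K i j ≤ B * ∑ i ∈ I, ‖c i‖ ^ 2 := by
    rw [mul_sum]
    refine sum_le_sum (fun i hi => ?_)
    rw [← mul_sum, mul_comm]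
    exact mul_le_mul_of_nonneg_right (h1 i hi) (by positivity)
  have e3 : ∑ i ∈ I, ∑ j ∈ I, ‖c j‖ ^ 2 * K i j ≤ B * ∑ i ∈ I, ‖c i‖ ^ 2 := by
    rw [sum_comm, mul_sum]
    refine sum_le_sum (fun j hj => ?_)
    rw [← mul_sum, mul_comm]
    exact mul_le_mul_of_nonneg_right (h2 j hj) (by positivity)
  have e4 : ∑ i ∈ I, ∑ j ∈ I, ((1 / 2) * (‖c i‖ ^ 2 * K i j) + (1 / 2) * (‖c j‖ ^ 2 * K i j)) =
      (1 / 2) * (∑ i ∈ I, ∑ j ∈ I, ‖c i‖ ^ 2 * K i j) +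
        (1 / 2) * (∑ i ∈ I, ∑ j ∈ I, ‖c j‖ ^ 2 * K i j) := by
    rw [mul_sum, mul_sum, ← sum_add_distrib]
    refine sum_congr rfl (fun i _ => ?_)
    rw [mul_sum, mul_sum, ← sum_add_distrib]
  rw [e4] at e1
  linarith

theorem large_sieve {α : Type} [DecidableEq α] (I : Finset α) (x : α → ℝ) (c : α → ℂ) (T M : ℕ)
    (hT : 1 ≤ T)
    (hcl : ∀ A ⊆ I, (∀ i ∈ A, ∀ j ∈ A, i ≠ j → Near (1 / T) (x i) (x j)) → A.card ≤ M) :
    ∑ s ∈ range T, ∑ s' ∈ range T, ‖∑ i ∈ I, c i * ee (x i * (s + s'))‖ ^ 2 ≤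
      5 * M * T ^ 2 * ∑ i ∈ I, ‖c i‖ ^ 2 := by
  have hb : ∀ x0 : ℝ, ∑ j ∈ I, ‖Dk T (x0 - x j)‖ ^ 2 ≤ 5 * M * T ^ 2 := by
    intro x0
    have := sum_Dk_damped I x T M 1 hT le_rfl hcl x0 1 zero_le_one (fun _ => 1)
      (fun _ _ => ⟨zero_le_one, le_rfl⟩) (fun _ _ _ => le_rfl)
    norm_num at this
    linarith
  have h1 := congrArg Complex.re (expand_sq I x c T)
  rw [Complex.ofReal_re] at h1
  rw [h1]
  refine (Complex.re_le_norm _).trans ?_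
  refine (norm_sum_le _ _).trans ?_
  calc ∑ i ∈ I, ‖∑ j ∈ I, c i * (starRingEnd ℂ) (c j) * Dk T (x i - x j) ^ 2‖
      ≤ ∑ i ∈ I, ∑ j ∈ I, ‖c i‖ * ‖c j‖ * ‖Dk T (x i - x j)‖ ^ 2 := by
        refine sum_le_sum (fun i _ => (norm_sum_le _ _).trans (sum_le_sum (fun j _ => ?_)))
        rw [norm_mul, norm_mul, norm_pow, RCLike.norm_conj]
    _ ≤ _ := by
        refine schur I c (fun i j => ‖Dk T (x i - x j)‖ ^ 2) _ (fun _ _ _ _ => by positivity)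
          (fun i _ => hb (x i)) (fun j _ => ?_)
        refine (le_of_eq (sum_congr rfl (fun i _ => ?_))).trans (hb (x j))
        rw [norm_Dk_sub]

theorem off_diagonal {α : Type} [DecidableEq α] (I : Finset α) (x : α → ℝ) (c : α → ℂ)
    (T M m0 : ℕ) (hT : 1 ≤ T) (hm0 : 1 ≤ m0)
    (hcl : ∀ A ⊆ I, (∀ i ∈ A, ∀ j ∈ A, i ≠ j → Near (1 / T) (x i) (x j)) → A.card ≤ M)
    (ρ : ℝ) (hρ : 0 ≤ ρ) (lam : α → α → ℂ) (h0 : ∀ i ∈ I, ∀ j ∈ I, ‖lam i j‖ ≤ 1)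
    (hd : ∀ i ∈ I, lam i i = 1)
    (h1 : ∀ i ∈ I, ∀ j ∈ I, i ≠ j → Near ((m0 + 1) / T) (x i) (x j) → ‖lam i j‖ ≤ ρ) :
    (1 - (2 * (m0 + 1) * ρ + 1 / m0) * M) * T ^ 2 * ∑ i ∈ I, ‖c i‖ ^ 2 ≤
      (∑ i ∈ I, ∑ j ∈ I, c i * (starRingEnd ℂ) (c j) * lam i j * Dk T (x i - x j) ^ 2).re := by
  classical
  set B : ℝ := (2 * (m0 + 1) * ρ + 1 / m0) * M * T ^ 2 with hB
  -- the weight off the diagonal
  set K : α → α → ℝ := fun i j => if i = j then 0 else ‖lam i j‖ * ‖Dk T (x i - x j)‖ ^ 2 with hKd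
  have hK0 : ∀ i ∈ I, ∀ j ∈ I, 0 ≤ K i j := by
    intro i _ j _
    simp only [hKd]
    split_ifs <;> positivity
  have row : ∀ i ∈ I, ∑ j ∈ I, K i j ≤ B := by
    intro i hi
    have e1 : ∑ j ∈ I, K i j = ∑ j ∈ I.erase i, ‖lam i j‖ * ‖Dk T (x i - x j)‖ ^ 2 := by
      rw [← sum_erase I (f := K i) (a := i) (by simp [hKd])]
      refine sum_congr rfl (fun j hj => ?_)
      simp only [hKd]
      rw [if_neg (ne_of_mem_erase hj).symm]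
    rw [e1]
    exact sum_Dk_damped (I.erase i) x T M m0 hT hm0
      (fun A hA h => hcl A (hA.trans (erase_subset _ _)) h) (x i) ρ hρ (fun j => ‖lam i j‖)
      (fun j hj => ⟨norm_nonneg _, h0 i hi j (mem_of_mem_erase hj)⟩)
      (fun j hj hn => h1 i hi j (mem_of_mem_erase hj) (ne_of_mem_erase hj).symm hn)
  have col : ∀ j ∈ I, ∑ i ∈ I, K i j ≤ B := by
    intro j hj
    have e1 : ∑ i ∈ I, K i j = ∑ i ∈ I.erase j, ‖lam i j‖ * ‖Dk T (x j - x i)‖ ^ 2 := by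
      rw [← sum_erase I (f := fun i => K i j) (a := j) (by simp [hKd])]
      refine sum_congr rfl (fun i hi => ?_)
      simp only [hKd]
      rw [if_neg (ne_of_mem_erase hi), norm_Dk_sub]
    rw [e1]
    exact sum_Dk_damped (I.erase j) x T M m0 hT hm0
      (fun A hA h => hcl A (hA.trans (erase_subset _ _)) h) (x j) ρ hρ (fun i => ‖lam i j‖)
      (fun i hi => ⟨norm_nonneg _, h0 i (mem_of_mem_erase hi) j hj⟩)
      (fun i hi hn => h1 i (mem_of_mem_erase hi) j hj (ne_of_mem_erase hi) (near_symm hn))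
  have hs := schur I c K B hK0 row col
  -- split the diagonal
  have e5 : ∀ i ∈ I, ∑ j ∈ I, c i * (starRingEnd ℂ) (c j) * lam i j * Dk T (x i - x j) ^ 2 =
      ((‖c i‖ ^ 2 * (T : ℝ) ^ 2 : ℝ) : ℂ) + ∑ j ∈ I.erase i,
        c i * (starRingEnd ℂ) (c j) * lam i j * Dk T (x i - x j) ^ 2 := by
    intro i hi
    rw [← add_sum_erase I _ hi]
    congr 1
    rw [hd i hi, sub_self, Dk_zero, mul_one, Complex.mul_conj']
    push_cast
    ring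
  rw [sum_congr rfl e5, sum_add_distrib, Complex.add_re]
  have e6 : (∑ i ∈ I, ((‖c i‖ ^ 2 * (T : ℝ) ^ 2 : ℝ) : ℂ)).re =
      T ^ 2 * ∑ i ∈ I, ‖c i‖ ^ 2 := by
    rw [← Complex.ofReal_sum, Complex.ofReal_re, ← sum_mul]
    ring
  have e7 : ‖∑ i ∈ I, ∑ j ∈ I.erase i,
      c i * (starRingEnd ℂ) (c j) * lam i j * Dk T (x i - x j) ^ 2‖ ≤
      ∑ i ∈ I, ∑ j ∈ I, ‖c i‖ * ‖c j‖ * K i j := by
    refine (norm_sum_le _ _).trans (sum_le_sum (fun i hi => ?_))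
    refine (norm_sum_le _ _).trans ?_
    rw [← sum_erase I (f := fun j => ‖c i‖ * ‖c j‖ * K i j) (a := i) (by simp [hKd])]
    refine le_of_eq (sum_congr rfl (fun j hj => ?_))
    simp only [hKd]
    rw [if_neg (ne_of_mem_erase hj).symm, norm_mul, norm_mul, norm_mul, norm_pow,
      RCLike.norm_conj]
    ring
  have e8 := Complex.abs_re_le_norm (∑ i ∈ I, ∑ j ∈ I.erase i,
      c i * (starRingEnd ℂ) (c j) * lam i j * Dk T (x i - x j) ^ 2)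
  have e9 := neg_abs_le (∑ i ∈ I, ∑ j ∈ I.erase i,
      c i * (starRingEnd ℂ) (c j) * lam i j * Dk T (x i - x j) ^ 2).re
  rw [e6]
  have e10 : (1 - (2 * (m0 + 1) * ρ + 1 / m0) * M) * (T : ℝ) ^ 2 * ∑ i ∈ I, ‖c i‖ ^ 2 =
      T ^ 2 * ∑ i ∈ I, ‖c i‖ ^ 2 - B * ∑ i ∈ I, ‖c i‖ ^ 2 := by
    rw [hB]; ring
  rw [e10]
  linarith

end Pool.Agent.Lib.MP_d5700b_nt.FW
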