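import Pool.Agent.Lib.MP_d5700b_nt.FW.Defs

set_option autoImplicit false

/-!
Row C: Fourier analysis of arcs.
-/

namespace Pool.Agent.Lib.MP_d5700b_nt.FW.RC

open Finset

lemma norm_ee' (x : ℝ) : ‖ee x‖ = 1 := by
  unfold ee
  exact Complex.norm_exp_ofReal_mul_I _

lemma ee_zero' : ee 0 = 1 := by
  simp [ee]

lemma ee_add' (x y : ℝ) : ee (x + y) = ee x * ee y := by
  unfold ee
  rw [← Complex.exp_add]
  congr 1
  push_cast
  ring

lemma ee_neg' (x : ℝ) : ee (-x) = (starRingEnd ℂ) (ee x) := by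
  unfold ee
  rw [← Complex.exp_conj, map_mul, Complex.conj_ofReal, Complex.conj_I]
  congr 1
  push_cast
  ring

lemma ee_int' (z : ℤ) : ee (z : ℝ) = 1 := by
  unfold ee
  rw [Complex.exp_eq_one_iff]
  exact ⟨z, by push_cast; ring⟩

lemma ee_nat_mul (x : ℝ) (n : ℕ) : ee ((n : ℝ) * x) = ee x ^ n := by
  unfold ee
  rw [← Complex.exp_nat_mul]
  congr 1
  push_cast
  ring

lemma ee_eq_one (x : ℝ) : ee x = 1 ↔ ∃ z : ℤ, x = z := by
  unfold ee
  rw [Complex.exp_eq_one_iff]
  constructor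
  · rintro ⟨n, hn⟩
    refine ⟨n, ?_⟩
    have h1 : ((2 * Real.pi * x : ℝ) : ℂ) = ((n * (2 * Real.pi) : ℝ) : ℂ) := by
      have hI : (Complex.I : ℂ) ≠ 0 := Complex.I_ne_zero
      apply mul_right_cancel₀ hI
      rw [hn]
      push_cast
      ring
    have h2 : 2 * Real.pi * x = n * (2 * Real.pi) := by exact_mod_cast h1
    have hp := Real.pi_pos
    have : (2 * Real.pi) * (x - n) = 0 := by linarith
    rcases mul_eq_zero.mp this with h | h
    · linarith
    · linarith
  · rintro ⟨z, rfl⟩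
    exact ⟨z, by push_cast; ring⟩

/-- orthogonality -/
lemma orth (p : ℕ) (hp : 0 < p) (m : ℤ) :
    ∑ b ∈ range p, ee ((b : ℝ) * (m / p)) = if (p : ℤ) ∣ m then (p : ℂ) else 0 := by
  have hp' : (p : ℝ) ≠ 0 := by positivity
  simp only [ee_nat_mul]
  split_ifs with h
  · obtain ⟨k, rfl⟩ := h
    have : ee (((p * k : ℤ) : ℝ) / p) = 1 := by
      rw [ee_eq_one]
      refine ⟨k, ?_⟩
      push_cast
      field_simp
    rw [this]
    simp
  · have h1 : ee ((m : ℝ) / p) ≠ 1 := by
      intro h1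
      rw [ee_eq_one] at h1
      obtain ⟨z, hz⟩ := h1
      apply h
      refine ⟨z, ?_⟩
      rw [div_eq_iff hp'] at hz
      have : m = z * p := by exact_mod_cast hz
      rw [this]; ring
    have h2 : ee ((m : ℝ) / p) ^ p = 1 := by
      rw [← ee_nat_mul, ee_eq_one]
      exact ⟨m, by field_simp⟩
    rw [geom_sum_eq h1, h2]
    simp

lemma dvd_sub_iff (p a u : ℕ) (ha : a ≤ p) (hu : u < a) (n : ℤ) (hp : 0 < p) :
    (p : ℤ) ∣ n - u ↔ u = (n % p).toNat := by
  have hp' : (0 : ℤ) < p := by exact_mod_cast hp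
  have h0 : 0 ≤ n % p := Int.emod_nonneg _ hp'.ne'
  have h1 : n % p < p := Int.emod_lt_of_pos _ hp'
  have h2 : (u : ℤ) % p = u := Int.emod_eq_of_lt (by positivity) (by omega)
  constructor
  · intro h
    have : n % p = (u : ℤ) % p :=
      Int.emod_eq_emod_iff_emod_sub_eq_zero.mpr (Int.emod_eq_zero_of_dvd h)
    omega
  · intro h
    have : n % p = (u : ℤ) % p := by omega
    exact Int.dvd_of_emod_eq_zero (Int.emod_eq_emod_iff_emod_sub_eq_zero.mp this)

lemma gam_inv (p a : ℕ) (hp : 0 < p) (ha : a ≤ p) (n : ℤ) :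
    ∑ b ∈ range p, gam p a b * ee ((b : ℝ) * n / p) = if n % p < a then 1 else 0 := by
  have hp' : (p : ℂ) ≠ 0 := by exact_mod_cast hp.ne'
  have h1 : ∀ b ∈ range p, gam p a b * ee ((b : ℝ) * n / p) =
      (1 / (p : ℂ)) * ∑ u ∈ range a, ee ((b : ℝ) * (((n - u : ℤ) : ℝ) / p)) := by
    intro b _
    unfold gam
    rw [mul_assoc, Finset.sum_mul]
    congr 1
    apply Finset.sum_congr rfl
    intro u _
    rw [← ee_add']
    congr 1
    push_cast
    ring
  rw [Finset.sum_congr rfl h1, ← Finset.mul_sum, Finset.sum_comm]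
  have h2 : ∀ u ∈ range a, ∑ b ∈ range p, ee ((b : ℝ) * (((n - u : ℤ) : ℝ) / p)) =
      if u = (n % p).toNat then (p : ℂ) else 0 := by
    intro u hu
    rw [orth p hp]
    simp only [dvd_sub_iff p a u ha (mem_range.mp hu) n hp]
  rw [Finset.sum_congr rfl h2, Finset.sum_ite_eq' (range a) ((n % p).toNat)]
  have hp'' : (0 : ℤ) < p := by exact_mod_cast hp
  have h0 : 0 ≤ n % p := Int.emod_nonneg _ hp''.ne'
  by_cases h : n % p < a
  · rw [if_pos h, if_pos (by rw [mem_range]; omega)]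
    field_simp
  · rw [if_neg h, if_neg (by rw [mem_range]; omega)]
    simp

/-- general Parseval -/
lemma pars (p : ℕ) (hp : 0 < p) (c : ℕ → ℂ) :
    ∑ b ∈ range p, ‖∑ h ∈ range p, c h * ee (-((b : ℝ) * h / p))‖ ^ 2 =
      p * ∑ h ∈ range p, ‖c h‖ ^ 2 := by
  have key : ((∑ b ∈ range p, ‖∑ h ∈ range p, c h * ee (-((b : ℝ) * h / p))‖ ^ 2 : ℝ) : ℂ) =
      ((p * ∑ h ∈ range p, ‖c h‖ ^ 2 : ℝ) : ℂ) := by
    push_cast
    have h1 : ∀ b ∈ range p, ((‖∑ h ∈ range p, c h * ee (-((b : ℝ) * h / p))‖ : ℂ)) ^ 2 =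
        ∑ h ∈ range p, ∑ k ∈ range p, c h * (starRingEnd ℂ) (c k) *
          ee ((b : ℝ) * (((k - h : ℤ) : ℝ) / p)) := by
      intro b _
      rw [← Complex.mul_conj', map_sum, Finset.sum_mul_sum]
      apply Finset.sum_congr rfl
      intro h _
      apply Finset.sum_congr rfl
      intro k _
      rw [map_mul, ← ee_neg']
      have : ee ((b : ℝ) * (((k - h : ℤ) : ℝ) / p)) =
          ee (-((b : ℝ) * h / p)) * ee (- -((b : ℝ) * k / p)) := by
        rw [← ee_add']
        congr 1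
        push_cast
        ring
      rw [this]
      ring
    rw [Finset.sum_congr rfl h1, Finset.sum_comm]
    rw [Finset.mul_sum]
    apply Finset.sum_congr rfl
    intro h hh
    rw [Finset.sum_comm]
    have h2 : ∀ k ∈ range p, ∑ b ∈ range p, c h * (starRingEnd ℂ) (c k) *
        ee ((b : ℝ) * (((k - h : ℤ) : ℝ) / p)) =
        if k = h then (p : ℂ) * (‖c h‖ : ℂ) ^ 2 else 0 := by
      intro k hk
      rw [← Finset.mul_sum, orth p hp]
      have hd : (p : ℤ) ∣ (k - h : ℤ) ↔ k = h := by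
        constructor
        · rintro ⟨z, hz⟩
          have hk' := mem_range.mp hk
          have hh' := mem_range.mp hh
          have hz0 : z = 0 := by
            by_contra hne
            rcases lt_or_gt_of_ne hne with h' | h'
            · nlinarith
            · nlinarith
          subst hz0
          omega
        · rintro rfl
          simp
      simp only [hd]
      split_ifs with h3
      · subst h3
        rw [Complex.mul_conj']
        ring
      · simp
    rw [Finset.sum_congr rfl h2, Finset.sum_ite_eq' (range p) h, if_pos hh]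
  exact_mod_cast key

/-- the arc as a function on the whole period -/
lemma gam_eq (p a b : ℕ) (ha : a ≤ p) :
    gam p a b = ∑ h ∈ range p, (if h < a then (1 / (p : ℂ)) else 0) * ee (-((b : ℝ) * h / p)) := by
  unfold gam
  rw [Finset.mul_sum]
  have : ∀ h ∈ range p, (if h < a then (1 / (p : ℂ)) else 0) * ee (-((b : ℝ) * h / p)) =
      if h < a then (1 / (p : ℂ)) * ee (-((b : ℝ) * h / p)) else 0 := by
    intro h _
    split_ifs <;> simp
  rw [Finset.sum_congr rfl this, ← Finset.sum_filter]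
  apply Finset.sum_congr _ (fun _ _ => rfl)
  ext h
  simp only [mem_range, mem_filter]
  omega

lemma gam_parseval (p a : ℕ) (hp : 0 < p) (ha : a ≤ p) :
    ∑ b ∈ range p, ‖gam p a b‖ ^ 2 = (a : ℝ) / p := by
  have hp' : (p : ℝ) ≠ 0 := by positivity
  have h1 : ∀ b ∈ range p, ‖gam p a b‖ ^ 2 =
      ‖∑ h ∈ range p, (if h < a then (1 / (p : ℂ)) else 0) * ee (-((b : ℝ) * h / p))‖ ^ 2 := by
    intro b _
    rw [← gam_eq p a b ha]
  rw [Finset.sum_congr rfl h1, pars p hp]
  have h2 : ∀ h ∈ range p, ‖(if h < a then (1 / (p : ℂ)) else 0)‖ ^ 2 =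
      if h < a then (1 / (p : ℝ)) ^ 2 else 0 := by
    intro h _
    split_ifs
    · simp
    · simp
  rw [Finset.sum_congr rfl h2, ← Finset.sum_filter]
  have h3 : (range p).filter (fun h => h < a) = range a := by
    ext h
    simp only [mem_range, mem_filter]
    omega
  rw [h3, Finset.sum_const, card_range, nsmul_eq_mul]
  field_simp

/-- the number of representations of a difference -/
def R (p a h : ℕ) : ℕ := (a - h) + (a + h - p)

lemma R_card (p a h : ℕ) (ha : a ≤ p) (hh : h < p) :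
    ((range a).filter (fun u => (u + h) % p < a)).card = R p a h := by
  have h1 : (range a).filter (fun u => (u + h) % p < a) = range (a - h) ∪ Ico (p - h) a := by
    ext u
    simp only [mem_filter, mem_range, mem_union, mem_Ico]
    constructor
    · rintro ⟨h1, h2⟩
      by_cases h3 : u + h < p
      · rw [Nat.mod_eq_of_lt h3] at h2
        left; omega
      · right; omega
    · rintro (h1 | ⟨h1, h2⟩)
      · refine ⟨by omega, ?_⟩
        rw [Nat.mod_eq_of_lt (by omega)]
        omega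
      · refine ⟨h2, ?_⟩
        have h4 : (u + h) % p = u + h - p := by
          rw [Nat.mod_eq_sub_mod (by omega), Nat.mod_eq_of_lt (by omega)]
        rw [h4]; omega
  rw [h1, card_union_of_disjoint, card_range, Nat.card_Ico]
  · unfold R; omega
  · rw [disjoint_left]
    intro u hu hu'
    rw [mem_range] at hu
    rw [mem_Ico] at hu'
    omega

lemma gam_sq (p a b : ℕ) (hp : 0 < p) (ha : a ≤ p) :
    ((‖gam p a b‖ : ℂ)) ^ 2 =
      ∑ h ∈ range p, ((R p a h : ℂ) / p ^ 2) * ee (-((b : ℝ) * h / p)) := by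
  have hpr : (p : ℝ) ≠ 0 := by positivity
  have hpc : (p : ℂ) ≠ 0 := by exact_mod_cast hp.ne'
  have e1 : ((‖gam p a b‖ : ℂ)) ^ 2 = (1 / (p : ℂ) ^ 2) *
      ∑ v ∈ range a, ∑ u ∈ range a, ee (-((b : ℝ) * ((u : ℝ) - v) / p)) := by
    rw [← Complex.mul_conj']
    unfold gam
    rw [map_mul, map_sum]
    have : (starRingEnd ℂ) (1 / (p : ℂ)) = 1 / (p : ℂ) := by simp
    rw [this]
    have e2 : ∑ v ∈ range a, ∑ u ∈ range a, ee (-((b : ℝ) * ((u : ℝ) - v) / p)) =
        (∑ u ∈ range a, ee (-((b : ℝ) * u / p))) *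
          ∑ v ∈ range a, (starRingEnd ℂ) (ee (-((b : ℝ) * v / p))) := by
      rw [Finset.sum_mul_sum, Finset.sum_comm]
      apply Finset.sum_congr rfl
      intro u _
      apply Finset.sum_congr rfl
      intro v _
      rw [← ee_neg', ← ee_add']
      congr 1
      ring
    rw [e2]
    ring
  have e3 : ∀ v ∈ range a, ∑ u ∈ range a, ee (-((b : ℝ) * ((u : ℝ) - v) / p)) =
      ∑ h ∈ range p, if (v + h) % p < a then ee (-((b : ℝ) * h / p)) else 0 := by
    intro v hv
    have hv' : v < a := mem_range.mp hv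
    rw [← Finset.sum_filter]
    refine Finset.sum_nbij' (fun u => (u + (p - v)) % p) (fun h => (v + h) % p) ?_ ?_ ?_ ?_ ?_
    · intro u hu
      have hu' : u < a := mem_range.mp hu
      rw [mem_filter, mem_range]
      refine ⟨Nat.mod_lt _ hp, ?_⟩
      simp only [Nat.add_mod_mod]
      have : v + (u + (p - v)) = u + p := by omega
      rw [this, Nat.add_mod_right, Nat.mod_eq_of_lt (by omega)]
      exact hu'
    · intro h hh
      rw [mem_filter] at hh
      exact mem_range.mpr hh.2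
    · intro u hu
      have hu' : u < a := mem_range.mp hu
      simp only [Nat.add_mod_mod]
      have : v + (u + (p - v)) = u + p := by omega
      rw [this, Nat.add_mod_right, Nat.mod_eq_of_lt (by omega)]
    · intro h hh
      rw [mem_filter, mem_range] at hh
      simp only [Nat.mod_add_mod]
      have : v + h + (p - v) = h + p := by omega
      rw [this, Nat.add_mod_right, Nat.mod_eq_of_lt hh.1]
    · intro u hu
      have hu' : u < a := mem_range.mp hu
      by_cases huv : v ≤ u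
      · have h4 : (u + (p - v)) % p = u - v := by
          have : u + (p - v) = (u - v) + p := by omega
          rw [this, Nat.add_mod_right, Nat.mod_eq_of_lt (by omega)]
        rw [h4, Nat.cast_sub huv]
      · have h4 : (u + (p - v)) % p = u + p - v := by
          rw [Nat.mod_eq_of_lt (by omega)]
          omega
        rw [h4, Nat.cast_sub (by omega)]
        have h5 : -((b : ℝ) * (((u + p : ℕ) : ℝ) - v) / p) =
            -((b : ℝ) * ((u : ℝ) - v) / p) + ((-(b : ℤ) : ℤ) : ℝ) := by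
          push_cast
          field_simp
          ring
        rw [h5, ee_add', ee_int', mul_one]
  rw [e1, Finset.sum_congr rfl e3, Finset.sum_comm, Finset.mul_sum]
  apply Finset.sum_congr rfl
  intro h hh
  rw [← Finset.sum_filter, Finset.sum_const, R_card p a h ha (mem_range.mp hh), nsmul_eq_mul]
  ring

lemma four_eq (p a : ℕ) (hp : 0 < p) (ha : a ≤ p) :
    ∑ b ∈ range p, ‖gam p a b‖ ^ 4 = (∑ h ∈ range p, (R p a h : ℝ) ^ 2) / p ^ 3 := by
  have hpr : (p : ℝ) ≠ 0 := by positivity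
  have h1 : ∀ b ∈ range p, ‖gam p a b‖ ^ 4 =
      ‖∑ h ∈ range p, ((R p a h : ℂ) / p ^ 2) * ee (-((b : ℝ) * h / p))‖ ^ 2 := by
    intro b _
    rw [← gam_sq p a b hp ha]
    have : ‖((‖gam p a b‖ : ℂ)) ^ 2‖ = ‖gam p a b‖ ^ 2 := by
      rw [norm_pow, Complex.norm_real, norm_norm]
    rw [this]
    ring
  rw [Finset.sum_congr rfl h1, pars p hp]
  have h2 : ∀ h ∈ range p, ‖((R p a h : ℂ) / p ^ 2)‖ ^ 2 = (R p a h : ℝ) ^ 2 / p ^ 4 := by
    intro h _
    rw [norm_div, norm_pow, Complex.norm_natCast, Complex.norm_natCast]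
    ring
  rw [Finset.sum_congr rfl h2, ← Finset.sum_div]
  field_simp

lemma sum_sq (a : ℕ) : ∑ h ∈ range a, (((a - h : ℕ) : ℝ)) ^ 2 =
    (2 * (a : ℝ) ^ 3 + 3 * a ^ 2 + a) / 6 := by
  induction a with
  | zero => simp
  | succ n ih =>
    rw [Finset.sum_range_succ']
    have : ∀ h ∈ range n, (((n + 1 - (h + 1) : ℕ) : ℝ)) ^ 2 = (((n - h : ℕ) : ℝ)) ^ 2 := by
      intro h _
      rw [Nat.add_sub_add_right]
    rw [Finset.sum_congr rfl this, ih]
    push_cast
    ring

lemma sum_cross (D : ℕ) : ∑ j ∈ range D, ((D : ℝ) - j) * j = ((D : ℝ) ^ 3 - D) / 6 := by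
  have h1 : ∀ n : ℕ, ∑ j ∈ range n, ((D : ℝ) - j) * j =
      (D : ℝ) * (n * (n - 1)) / 2 - ((n : ℝ) * (n - 1) * (2 * n - 1)) / 6 := by
    intro n
    induction n with
    | zero => simp
    | succ m ih =>
      rw [Finset.sum_range_succ, ih]
      push_cast
      ring
  rw [h1]
  ring

lemma sum_one (p a : ℕ) (ha : a ≤ p) :
    ∑ h ∈ range p, (((a - h : ℕ) : ℝ)) ^ 2 = (2 * (a : ℝ) ^ 3 + 3 * a ^ 2 + a) / 6 := by
  rw [← sum_sq a]
  obtain ⟨d, rfl⟩ := Nat.exists_eq_add_of_le ha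
  rw [Finset.sum_range_add]
  have : ∀ x ∈ range d, (((a - (a + x) : ℕ) : ℝ)) ^ 2 = 0 := by
    intro x _
    have : a - (a + x) = 0 := by omega
    rw [this]; simp
  rw [Finset.sum_congr rfl this]
  simp

lemma sum_two (p a : ℕ) (ha : a ≤ p) :
    ∑ h ∈ range p, (((a + h - p : ℕ) : ℝ)) ^ 2 = (2 * (a : ℝ) ^ 3 - 3 * a ^ 2 + a) / 6 := by
  rcases Nat.eq_zero_or_pos a with h0 | h0
  · subst h0
    have : ∀ h ∈ range p, (((0 + h - p : ℕ) : ℝ)) ^ 2 = 0 := by
      intro h hh
      have hh' := mem_range.mp hh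
      have : 0 + h - p = 0 := by omega
      rw [this]; simp
    rw [Finset.sum_congr rfl this]
    simp
  rw [← Finset.sum_range_reflect]
  have : ∀ h ∈ range p, (((a + (p - 1 - h) - p : ℕ) : ℝ)) ^ 2 = ((((a - 1) - h : ℕ) : ℝ)) ^ 2 := by
    intro h hh
    have hh' := mem_range.mp hh
    have : a + (p - 1 - h) - p = a - 1 - h := by omega
    rw [this]
  rw [Finset.sum_congr rfl this, sum_one p (a - 1) (by omega), Nat.cast_sub h0]
  push_cast
  ring

lemma sum_three (p a : ℕ) (ha : a ≤ p) :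
    ((max (2 * (a : ℝ) - p) 0) ^ 3 - max (2 * (a : ℝ) - p) 0) / 6 ≤
      ∑ h ∈ range p, ((a - h : ℕ) : ℝ) * ((a + h - p : ℕ) : ℝ) := by
  by_cases hD : p ≤ 2 * a
  · have hDr : (p : ℝ) ≤ 2 * a := by exact_mod_cast hD
    rw [max_eq_left (by linarith)]
    obtain ⟨D, hD'⟩ := Nat.exists_eq_add_of_le hD
    have hDD : (2 * (a : ℝ) - p) = D := by
      have : ((2 * a : ℕ) : ℝ) = ((p + D : ℕ) : ℝ) := by rw [hD']
      push_cast at this
      linarith
    rw [hDD, ← sum_cross D]
    obtain ⟨c, hc⟩ := Nat.exists_eq_add_of_le ha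
    -- p = a + c, D = a - c
    have hDc : a = D + c := by omega
    have hp3 : p = c + (D + c) := by omega
    have e1 : ∑ h ∈ range p, ((a - h : ℕ) : ℝ) * ((a + h - p : ℕ) : ℝ) =
        ∑ h ∈ range (c + (D + c)), ((a - h : ℕ) : ℝ) * ((a + h - p : ℕ) : ℝ) := by
      rw [← hp3]
    rw [e1, Finset.sum_range_add, Finset.sum_range_add]
    have hA : 0 ≤ ∑ x ∈ range c, ((a - x : ℕ) : ℝ) * ((a + x - p : ℕ) : ℝ) :=
      Finset.sum_nonneg (fun _ _ => by positivity)
    have hB : 0 ≤ ∑ x ∈ range c, ((a - (c + (D + x)) : ℕ) : ℝ) *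
        ((a + (c + (D + x)) - p : ℕ) : ℝ) :=
      Finset.sum_nonneg (fun _ _ => by positivity)
    have hC : ∑ j ∈ range D, ((D : ℝ) - j) * j =
        ∑ x ∈ range D, ((a - (c + x) : ℕ) : ℝ) * ((a + (c + x) - p : ℕ) : ℝ) := by
      apply Finset.sum_congr rfl
      intro j hj
      have hj' := mem_range.mp hj
      have h1 : a - (c + j) = D - j := by omega
      have h2 : a + (c + j) - p = j := by omega
      rw [h1, h2, Nat.cast_sub hj'.le]
    rw [hC]
    linarith
  · have hDr : 2 * (a : ℝ) ≤ p := by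
      have : 2 * a ≤ p := by omega
      exact_mod_cast this
    rw [max_eq_right (by linarith)]
    have : (0 : ℝ) ≤ ∑ h ∈ range p, ((a - h : ℕ) : ℝ) * ((a + h - p : ℕ) : ℝ) :=
      Finset.sum_nonneg (fun _ _ => by positivity)
    simpa using this

/-- fourth moment: `p ^ 3` times it is the additive energy of an arc -/
theorem gam_four (p a : ℕ) (hp : 0 < p) (ha : a ≤ p) :
    (2 * (a : ℝ) ^ 3 + (max (2 * (a : ℝ) - p) 0) ^ 3) / (3 * p ^ 3) ≤
      ∑ b ∈ range p, ‖gam p a b‖ ^ 4 := by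
  rw [four_eq p a hp ha]
  have hpr : (0 : ℝ) < p := by exact_mod_cast hp
  have har : (a : ℝ) ≤ p := by exact_mod_cast ha
  have hsum : ∑ h ∈ range p, (R p a h : ℝ) ^ 2 =
      ∑ h ∈ range p, (((a - h : ℕ) : ℝ)) ^ 2 + ∑ h ∈ range p, (((a + h - p : ℕ) : ℝ)) ^ 2 +
        2 * ∑ h ∈ range p, ((a - h : ℕ) : ℝ) * ((a + h - p : ℕ) : ℝ) := by
    rw [Finset.mul_sum, ← Finset.sum_add_distrib, ← Finset.sum_add_distrib]
    apply Finset.sum_congr rfl
    intro h _
    unfold R
    push_cast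
    ring
  have h3 := sum_three p a ha
  rw [sum_one p a ha, sum_two p a ha] at hsum
  have hmax : max (2 * (a : ℝ) - p) 0 ≤ a := by
    apply max_le
    · linarith
    · positivity
  have key : (2 * (a : ℝ) ^ 3 + (max (2 * (a : ℝ) - p) 0) ^ 3) / 3 ≤
      ∑ h ∈ range p, (R p a h : ℝ) ^ 2 := by
    rw [hsum]
    linarith
  rw [div_le_div_iff₀ (by positivity) (by positivity)]
  have hp3 : (0 : ℝ) < (p : ℝ) ^ 3 := by positivity
  nlinarith [mul_le_mul_of_nonneg_right key hp3.le]

end Pool.Agent.Lib.MP_d5700b_nt.FW.RC
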