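import Pool.Agent.Lib.MP_d5700b_nt.FW.RowA

set_option autoImplicit false

/-!
Rows D, I, G.
-/

namespace Pool.Agent.Lib.MP_d5700b_nt.FW

open Finset Pool.Agent.Lib.MP_d5700b_nt.FW

/-! ### Row D : damping -/

lemma norm_one_add_ee {x : ℝ} (hx : |x| ≤ 1 / 2) : ‖1 + ee x‖ ≤ 2 * (1 - 2 * x ^ 2) := by
  have hpi := Real.pi_pos
  have hc0 : 0 ≤ Real.cos (Real.pi * x) := by
    apply Real.cos_nonneg_of_mem_Icc
    obtain ⟨h1, h2⟩ := abs_le.mp hx
    constructor <;> nlinarith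
  have hc1 : Real.cos (Real.pi * x) ≤ 1 - 2 * x ^ 2 := by
    have h := Real.cos_le_one_sub_mul_cos_sq (x := Real.pi * x) (by
      rw [abs_mul, abs_of_pos hpi]
      nlinarith)
    have e : 2 / Real.pi ^ 2 * (Real.pi * x) ^ 2 = 2 * x ^ 2 := by
      field_simp
    rw [e] at h
    exact h
  have hsq : ‖1 + ee x‖ ^ 2 = (2 * Real.cos (Real.pi * x)) ^ 2 := by
    rw [← Complex.normSq_eq_norm_sq, Complex.normSq_apply]
    have hre : (ee x).re = Real.cos (2 * Real.pi * x) := by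
      unfold ee
      rw [Complex.exp_ofReal_mul_I_re]
    have him : (ee x).im = Real.sin (2 * Real.pi * x) := by
      unfold ee
      rw [Complex.exp_ofReal_mul_I_im]
    simp only [Complex.add_re, Complex.add_im, Complex.one_re, Complex.one_im, hre, him]
    have e1 : 2 * Real.pi * x = 2 * (Real.pi * x) := by ring
    rw [e1, Real.cos_two_mul, Real.sin_two_mul]
    have e2 := Real.sin_sq_add_cos_sq (Real.pi * x)
    linear_combination (4 * Real.cos (Real.pi * x) ^ 2) * e2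
  have h0 : ‖1 + ee x‖ = 2 * Real.cos (Real.pi * x) := by
    have := (sq_eq_sq₀ (norm_nonneg _) (by linarith)).mp hsq
    exact this
  rw [h0]
  linarith

/-- The shift trick. -/
lemma shift_bound (β : ℝ) (S h : ℕ) (hh : h ≤ S) :
    ‖∑ s ∈ range S, ee (β * s)‖ ≤ (S - h : ℝ) * (‖1 + ee (β * h)‖ / 2) + h := by
  obtain ⟨R, rfl⟩ := Nat.exists_eq_add_of_le hh
  have e1 : ∑ s ∈ range (h + R), ee (β * s) =
      ∑ s ∈ range h, ee (β * s) + ∑ s ∈ range R, ee (β * (h + s : ℕ)) :=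
    sum_range_add _ _ _
  have e2 : ∑ s ∈ range (R + h), ee (β * s) =
      ∑ s ∈ range R, ee (β * s) + ∑ s ∈ range h, ee (β * (R + s : ℕ)) :=
    sum_range_add _ _ _
  have e3 : ∑ s ∈ range R, ee (β * s) + ∑ s ∈ range R, ee (β * (h + s : ℕ)) =
      (1 + ee (β * h)) * ∑ s ∈ range R, ee (β * s) := by
    rw [add_mul, one_mul, mul_sum]
    congr 1
    apply sum_congr rfl
    intro s _
    rw [← ee_add]
    congr 1
    push_cast
    ring
  have e4 : (2 : ℂ) * ∑ s ∈ range (h + R), ee (β * s) =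
      (1 + ee (β * h)) * ∑ s ∈ range R, ee (β * s) +
        (∑ s ∈ range h, ee (β * s) + ∑ s ∈ range h, ee (β * (R + s : ℕ))) := by
    rw [two_mul, ← e3]
    nth_rewrite 1 [e1]
    rw [add_comm h R, e2]
    ring
  have n1 : ‖∑ s ∈ range R, ee (β * s)‖ ≤ R := by
    refine (norm_sum_le _ _).trans ?_
    simp [norm_ee]
  have n2 : ‖∑ s ∈ range h, ee (β * s)‖ ≤ h := by
    refine (norm_sum_le _ _).trans ?_
    simp [norm_ee]
  have n3 : ‖∑ s ∈ range h, ee (β * (R + s : ℕ))‖ ≤ h := by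
    refine (norm_sum_le _ _).trans ?_
    simp [norm_ee]
  have n4 : ‖(2 : ℂ) * ∑ s ∈ range (h + R), ee (β * s)‖ ≤
      ‖1 + ee (β * h)‖ * R + (h + h) := by
    rw [e4]
    refine (norm_add_le _ _).trans ?_
    apply add_le_add
    · rw [norm_mul]
      exact mul_le_mul_of_nonneg_left n1 (norm_nonneg _)
    · exact (norm_add_le _ _).trans (add_le_add n2 n3)
  rw [norm_mul] at n4
  have e5 : ‖(2 : ℂ)‖ = 2 := by norm_num
  rw [e5] at n4
  push_cast
  nlinarith [n4]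

theorem damp (p S N : ℕ) (hp : 0 < p) (hS : 2 ≤ S) (hN : p < N * S) (d : ℤ) (hd : ¬ (p : ℤ) ∣ d) :
    ‖∑ s ∈ range S, ee (-((d : ℝ) * s / p))‖ ≤ (1 - 1 / (100 * (N : ℝ) ^ 2)) * S := by
  have hN1 : 1 ≤ N := by
    rcases Nat.eq_zero_or_pos N with h | h
    · subst h
      omega
    · exact h
  have hNr : (1 : ℝ) ≤ N := by exact_mod_cast hN1
  have hpr : (0 : ℝ) < p := by exact_mod_cast hp
  have hSr : (2 : ℝ) ≤ S := by exact_mod_cast hS
  have hNS : (p : ℝ) < N * S := by exact_mod_cast hN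
  -- balanced residue
  obtain ⟨e, z, hde, he0, he2⟩ : ∃ e z : ℤ, d = z * p + e ∧ e ≠ 0 ∧ 2 * |e| ≤ p := by
    have hpz : (0 : ℤ) < p := by exact_mod_cast hp
    have h1 := Int.emod_nonneg d hpz.ne'
    have h2 := Int.emod_lt_of_pos d hpz
    have h3 := Int.mul_ediv_add_emod d p
    have h4 : d % p ≠ 0 := fun h => hd (Int.dvd_of_emod_eq_zero h)
    by_cases hc : 2 * (d % p) ≤ p
    · refine ⟨d % p, d / p, ?_, h4, ?_⟩
      · linarith [mul_comm (p : ℤ) (d / p)]
      · rw [abs_of_nonneg h1]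
        exact hc
    · refine ⟨d % p - p, d / p + 1, ?_, by omega, ?_⟩
      · linear_combination -h3
      · rw [abs_of_nonpos (by omega)]
        omega
  have her : 1 ≤ |(e : ℝ)| := by
    have : 1 ≤ |e| := Int.one_le_abs he0
    exact_mod_cast this
  have her2 : 2 * |(e : ℝ)| ≤ p := by exact_mod_cast he2
  set y : ℝ := |(e : ℝ)| / p with hy
  have hy1 : 1 / p ≤ y := by
    rw [hy]
    gcongr
  have hy2 : y ≤ 1 / 2 := by
    rw [hy, div_le_iff₀ hpr]
    linarith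
  have hy0 : 0 < y := lt_of_lt_of_le (by positivity) hy1
  -- the shift
  obtain ⟨h, hh1, hh2, hh3, hh4⟩ : ∃ h : ℕ, 1 ≤ h ∧ 2 * h ≤ S ∧ 1 / (4 * N) ≤ h * y ∧
      h * y ≤ 1 / 2 := by
    by_cases hc : 1 / (4 * (N : ℝ)) ≤ y
    · exact ⟨1, le_rfl, hS, by simpa using hc, by simpa using hy2⟩
    · push Not at hc
      have hNy : 0 < 4 * (N : ℝ) * y := by positivity
      have hNy1 : 4 * (N : ℝ) * y < 1 := by
        rw [lt_div_iff₀ (by positivity)] at hc
        linarith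
      have hpy : 1 ≤ p * y := by
        rw [hy]
        rw [mul_div_cancel₀ _ hpr.ne']
        exact her
      refine ⟨⌈1 / (4 * (N : ℝ) * y)⌉₊, ?_, ?_, ?_, ?_⟩
      · exact Nat.one_le_ceil_iff.mpr (by positivity)
      · have h1 := Nat.ceil_lt_add_one (a := 1 / (4 * (N : ℝ) * y)) (by positivity)
        have h2 : 1 / (4 * (N : ℝ) * y) ≤ S / 4 := by
          rw [div_le_div_iff₀ hNy (by norm_num)]
          nlinarith
        have h3 : (4 : ℝ) < S := by
          nlinarith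
        have h4 : (2 : ℝ) * (⌈1 / (4 * (N : ℝ) * y)⌉₊ : ℝ) < S := by linarith
        have h5 : 2 * ⌈1 / (4 * (N : ℝ) * y)⌉₊ < S := by exact_mod_cast h4
        omega
      · have h1 := Nat.le_ceil (1 / (4 * (N : ℝ) * y))
        calc 1 / (4 * (N : ℝ)) = 1 / (4 * (N : ℝ) * y) * y := by field_simp
          _ ≤ _ := mul_le_mul_of_nonneg_right h1 hy0.le
      · have h1 := Nat.ceil_lt_add_one (a := 1 / (4 * (N : ℝ) * y)) (by positivity)
        have h2 : (⌈1 / (4 * (N : ℝ) * y)⌉₊ : ℝ) * y ≤ (1 / (4 * (N : ℝ) * y) + 1) * y :=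
          mul_le_mul_of_nonneg_right h1.le hy0.le
        have h3 : (1 / (4 * (N : ℝ) * y) + 1) * y = 1 / (4 * N) + y := by field_simp
        have h4 : 1 / (4 * (N : ℝ)) ≤ 1 / 4 := by
          apply one_div_le_one_div_of_le (by norm_num)
          linarith
        linarith
  -- conclusion
  have hhS : h ≤ S := by omega
  have e0 : ∑ s ∈ range S, ee (-((d : ℝ) * s / p)) = ∑ s ∈ range S, ee (-(e : ℝ) / p * s) := by
    apply sum_congr rfl
    intro s _
    have : -((d : ℝ) * s / p) = -(e : ℝ) / p * s + ((-(z * s) : ℤ) : ℝ) := by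
      rw [hde]
      push_cast
      field_simp
      ring
    rw [this, ee_add_int]
  have hb := shift_bound (-(e : ℝ) / p) S h hhS
  rw [← e0] at hb
  have habs : |(-(e : ℝ) / p * h)| = h * y := by
    rw [hy, abs_mul, abs_div, abs_neg, abs_of_pos hpr, Nat.abs_cast]
    ring
  have hn : ‖1 + ee (-(e : ℝ) / p * h)‖ ≤ 2 * (1 - 1 / (8 * (N : ℝ) ^ 2)) := by
    refine (norm_one_add_ee (by rw [habs]; exact hh4)).trans ?_
    have h1 : (1 / (4 * (N : ℝ))) ^ 2 ≤ (-(e : ℝ) / p * h) ^ 2 := by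
      rw [← sq_abs (-(e : ℝ) / p * h), habs]
      exact pow_le_pow_left₀ (by positivity) hh3 2
    have h2 : (1 / (4 * (N : ℝ))) ^ 2 = 1 / (16 * (N : ℝ) ^ 2) := by
      field_simp
      norm_num
    rw [h2] at h1
    have h3 : 1 / (8 * (N : ℝ) ^ 2) = 2 * (1 / (16 * (N : ℝ) ^ 2)) := by
      field_simp
      norm_num
    rw [h3]
    linarith
  have hhr : (2 : ℝ) * h ≤ S := by exact_mod_cast hh2
  have h5 : ((S : ℝ) - h) * (‖1 + ee (-(e : ℝ) / p * h)‖ / 2) ≤
      ((S : ℝ) - h) * (1 - 1 / (8 * (N : ℝ) ^ 2)) := by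
    apply mul_le_mul_of_nonneg_left _ (by linarith)
    linarith
  have h6 : 1 / (100 * (N : ℝ) ^ 2) ≤ 1 / (8 * (N : ℝ) ^ 2) / 2 := by
    rw [div_div]
    apply one_div_le_one_div_of_le (by positivity)
    nlinarith [sq_nonneg (N : ℝ)]
  have h7 : 0 < 1 / (8 * (N : ℝ) ^ 2) := by positivity
  nlinarith [hb, h5, h6, h7, mul_nonneg h7.le (by linarith : (0:ℝ) ≤ S - 2 * h),
    mul_le_mul_of_nonneg_right h6 (by linarith : (0:ℝ) ≤ S)]

/-! ### Row I : the digit majorant -/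

theorem digit_major (q J H n : ℕ) (hJ : 1 ≤ J) (hJq : J ≤ q) (hH : 1 ≤ H) (hHJ : 4 * J * H ≤ q)
    (hE : (q - J) * q ≤ n % q ^ 2) :
    1 ≤ 2 * ‖(1 / (H : ℂ)) * ∑ h ∈ range H,
      ee ((h : ℝ) * ((n : ℝ) / q ^ 2 - (1 - J / (2 * q))))‖ ^ 2 := by
  have hq : 0 < q := by omega
  have hqr : (0 : ℝ) < q := by exact_mod_cast hq
  have hHr : (0 : ℝ) < H := by exact_mod_cast hH
  set β : ℝ := (n : ℝ) / q ^ 2 - (1 - J / (2 * q)) with hβ
  have hq2 : 0 < q ^ 2 := by positivity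
  have h1 : (n : ℝ) = (q : ℝ) ^ 2 * (n / q ^ 2 : ℕ) + (n % q ^ 2 : ℕ) := by
    have := Nat.div_add_mod n (q ^ 2)
    exact_mod_cast this.symm
  have h2 : ((n % q ^ 2 : ℕ) : ℝ) < (q : ℝ) ^ 2 := by
    have := Nat.mod_lt n hq2
    exact_mod_cast this
  have h3 : ((q : ℝ) - J) * q ≤ (n % q ^ 2 : ℕ) := by
    have : (((q - J) * q : ℕ) : ℝ) ≤ (n % q ^ 2 : ℕ) := by exact_mod_cast hE
    rw [Nat.cast_mul, Nat.cast_sub hJq] at this
    exact this
  have hkey : |β - ((n / q ^ 2 : ℕ) : ℤ)| * (8 * H) ≤ 1 := by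
    have e1 : β - (((n / q ^ 2 : ℕ) : ℤ) : ℝ) = (n % q ^ 2 : ℕ) / (q : ℝ) ^ 2 - 1 + J / (2 * q) := by
      rw [hβ]
      nth_rewrite 1 [h1]
      rw [Int.cast_natCast]
      field_simp
      ring
    have b1 : ((n % q ^ 2 : ℕ) : ℝ) / (q : ℝ) ^ 2 < 1 := by
      rw [div_lt_one (by positivity)]
      exact h2
    have b2 : 1 - (J : ℝ) / q ≤ ((n % q ^ 2 : ℕ) : ℝ) / (q : ℝ) ^ 2 := by
      rw [le_div_iff₀ (by positivity)]
      calc (1 - (J : ℝ) / q) * (q : ℝ) ^ 2 = ((q : ℝ) - J) * q := by field_simp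
        _ ≤ _ := h3
    have b3 : (J : ℝ) / (2 * q) = (J : ℝ) / q / 2 := by
      field_simp
    have b4 : |β - (((n / q ^ 2 : ℕ) : ℤ) : ℝ)| ≤ (J : ℝ) / (2 * q) := by
      rw [e1, abs_le]
      constructor <;> rw [b3] <;> linarith
    have b5 : (J : ℝ) / (2 * q) * (8 * H) ≤ 1 := by
      rw [div_mul_eq_mul_div, div_le_one (by positivity)]
      have : ((4 * J * H : ℕ) : ℝ) ≤ q := by exact_mod_cast hHJ
      push_cast at this
      linarith
    exact (mul_le_mul_of_nonneg_right b4 (by positivity)).trans b5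
  have hD := le_norm_Dk H β _ hkey
  have e2 : ∑ h ∈ range H, ee ((h : ℝ) * β) = Dk H β := by
    unfold Dk
    apply sum_congr rfl
    intro s _
    rw [mul_comm]
  rw [e2, norm_mul, mul_pow]
  have e3 : ‖(1 / (H : ℂ))‖ = 1 / H := by
    rw [norm_div, norm_one, Complex.norm_natCast]
  rw [e3]
  have e4 : 2 * ((1 / (H : ℝ)) ^ 2 * ‖Dk H β‖ ^ 2) = 2 * ‖Dk H β‖ ^ 2 / (H : ℝ) ^ 2 := by
    field_simp
  rw [e4, le_div_iff₀ (by positivity), one_mul]
  exact hD

/-! ### Row G : the boundary identity -/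

theorem boundary {ι : Type} [Fintype ι] [DecidableEq ι] (p : ι → ℕ) (f : ι → ℕ → ℂ)
    (W : Finset (ι → ℕ)) (hW : W ⊆ Fintype.piFinset (fun i => range (p i))) (i0 : ι)
    (h0 : ∑ b ∈ range (p i0), f i0 b = 0) :
    ∑ b ∈ W, ∏ i, f i (b i) =
      ∑ b ∈ W.filter (fun b => ∃ v < p i0, Function.update b i0 v ∉ W), ∏ i, f i (b i) := by
  classical
  rw [← sum_filter_add_sum_filter_not W (fun b => ∃ v < p i0, Function.update b i0 v ∉ W)]
  convert add_zero _
  set W' := W.filter (fun b => ¬ ∃ v < p i0, Function.update b i0 v ∉ W) with hW'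
  have hmem : ∀ b, b ∈ W' ↔ b ∈ W ∧ ∀ v < p i0, Function.update b i0 v ∈ W := by
    intro b
    rw [hW', mem_filter]
    push Not
    rfl
  have hlt : ∀ b ∈ W', ∀ i, b i < p i := by
    intro b hb i
    have := hW ((hmem b).1 hb).1
    rw [Fintype.mem_piFinset] at this
    exact mem_range.mp (this i)
  have hcl : ∀ b ∈ W', ∀ v < p i0, Function.update b i0 v ∈ W' := by
    intro b hb v hv
    rw [hmem] at hb ⊢
    refine ⟨hb.2 v hv, fun v' hv' => ?_⟩
    rw [Function.update_idem]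
    exact hb.2 v' hv'
  have hsplit : ∑ b ∈ W', ∏ i, f i (b i) =
      ∑ x ∈ (W'.filter (fun b => b i0 = 0)) ×ˢ range (p i0),
        ∏ i, f i (Function.update x.1 i0 x.2 i) := by
    symm
    apply sum_nbij' (fun x => Function.update x.1 i0 x.2)
      (fun b => (Function.update b i0 0, b i0))
    · intro x hx
      rw [mem_product, mem_filter, mem_range] at hx
      exact hcl _ hx.1.1 _ hx.2
    · intro b hb
      rw [mem_product, mem_filter, mem_range]
      have hp0 : 0 < p i0 := lt_of_le_of_lt (Nat.zero_le _) (hlt b hb i0)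
      exact ⟨⟨hcl b hb 0 hp0, by simp⟩, hlt b hb i0⟩
    · intro x hx
      rw [mem_product, mem_filter, mem_range] at hx
      ext1
      · simp only [Function.update_idem]
        rw [← hx.1.2, Function.update_eq_self]
      · simp
    · intro b _
      simp
    · intro x _
      rfl
  rw [hsplit, sum_product]
  apply sum_eq_zero
  intro b _
  have hb : ∀ v ∈ range (p i0), ∏ i, f i (Function.update b i0 v i) =
      f i0 v * ∏ i ∈ univ.erase i0, f i (b i) := by
    intro v _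
    rw [← mul_prod_erase univ _ (mem_univ i0)]
    congr 1
    · simp
    · apply prod_congr rfl
      intro i hi
      rw [Function.update_of_ne (ne_of_mem_erase hi)]
  rw [sum_congr rfl hb, ← sum_mul, h0, zero_mul]

end Pool.Agent.Lib.MP_d5700b_nt.FW
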