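import Pool.Agent.Lib.MP_d5700b_nt.FW.Defs

set_option autoImplicit false

/-!
Row E : the Plotkin / Johnson count.
-/

namespace Pool.Agent.Lib.MP_d5700b_nt.FW

open Finset

lemma fibre_sum {α : Type} [DecidableEq α] (A : Finset α) (u : α → ℕ) (P : ℕ)
    (hu : ∀ x ∈ A, u x < P) (f : ℕ → ℝ) :
    ∑ x ∈ A, f (u x) = ∑ b ∈ range P, ((A.filter (fun x => u x = b)).card : ℝ) * f b := by
  rw [← sum_fiberwise_of_maps_to (s := A) (t := range P) (g := u)
    (fun x hx => mem_range.mpr (hu x hx)) (fun x => f (u x))]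
  apply sum_congr rfl
  intro b _
  rw [sum_congr rfl (g := fun _ => f b) (fun x hx => by rw [(mem_filter.mp hx).2]),
    sum_const, nsmul_eq_mul]

lemma pair_sum {α : Type} [DecidableEq α] (A : Finset α) (u : α → ℕ) (P : ℕ)
    (hu : ∀ x ∈ A, u x < P) (l : ℝ) :
    ∑ x ∈ A, ∑ y ∈ A, (if u x = u y then (0 : ℝ) else l) =
      l * ((A.card : ℝ) ^ 2 - ∑ b ∈ range P, ((A.filter (fun x => u x = b)).card : ℝ) ^ 2) := by
  have h1 : ∀ x ∈ A, ∑ y ∈ A, (if u x = u y then (0 : ℝ) else l) =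
      l * (A.card - ((A.filter (fun y => u y = u x)).card : ℝ)) := by
    intro x _
    have h2 : ∀ y ∈ A, (if u x = u y then (0 : ℝ) else l) = l - (if u y = u x then l else 0) := by
      intro y _
      by_cases h : u x = u y
      · rw [if_pos h, if_pos h.symm, sub_self]
      · rw [if_neg h, if_neg (fun h' => h h'.symm), sub_zero]
    rw [sum_congr rfl h2, sum_sub_distrib, sum_const, nsmul_eq_mul, ← sum_filter, sum_const,
      nsmul_eq_mul]
    ring
  rw [sum_congr rfl h1, ← mul_sum, sum_sub_distrib, sum_const, nsmul_eq_mul,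
    fibre_sum A u P hu (fun b => ((A.filter (fun y => u y = b)).card : ℝ))]
  congr 1
  rw [pow_two]
  congr 1
  apply sum_congr rfl
  intro b _
  ring

theorem plotkin {ι α : Type} [Fintype ι] [DecidableEq ι] [DecidableEq α] (p : ι → ℕ) (l : ι → ℝ)
    (hl : ∀ i, 0 ≤ l i) (mu : ι → ℕ → ℝ) (K η V : ℝ)
    (hK : K = ∑ i, l i * ∑ b ∈ range (p i), mu i b ^ 2)
    (A : Finset α) (w : α → ι → ℕ) (hw : ∀ x ∈ A, ∀ i, w x i < p i)
    (hX : ∀ x ∈ A, K - η ≤ ∑ i, l i * mu i (w x i))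
    (hV : ∀ x ∈ A, ∀ y ∈ A, x ≠ y → V ≤ ∑ i, if w x i = w y i then 0 else l i) :
    (A.card : ℝ) * (A.card - 1) * V ≤ (A.card : ℝ) ^ 2 * (∑ i, l i - K + 2 * η) := by
  set m : ℝ := (A.card : ℝ) with hm
  set n : ι → ℕ → ℝ := fun i b => ((A.filter (fun x => w x i = b)).card : ℝ) with hn
  -- the pairs
  have h1 : m * (m - 1) * V ≤
      ∑ x ∈ A, ∑ y ∈ A, ∑ i, (if w x i = w y i then (0 : ℝ) else l i) := by
    have h2 : ∀ x ∈ A, (m - 1) * V ≤
        ∑ y ∈ A, ∑ i, (if w x i = w y i then (0 : ℝ) else l i) := by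
      intro x hx
      rw [← sum_erase_add A _ hx]
      have h3 : ∑ i, (if w x i = w x i then (0 : ℝ) else l i) = 0 := by simp
      rw [h3, add_zero]
      have h4 : ∑ _y ∈ A.erase x, V ≤
          ∑ y ∈ A.erase x, ∑ i, (if w x i = w y i then (0 : ℝ) else l i) := by
        apply sum_le_sum
        intro y hy
        exact hV x hx y (mem_of_mem_erase hy) (ne_of_mem_erase hy).symm
      rw [sum_const, nsmul_eq_mul, card_erase_of_mem hx,
        Nat.cast_pred (card_pos.mpr ⟨x, hx⟩)] at h4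
      exact h4
    calc m * (m - 1) * V = ∑ _x ∈ A, (m - 1) * V := by
          rw [sum_const, nsmul_eq_mul]
          ring
      _ ≤ _ := sum_le_sum h2
  have h2 : ∑ x ∈ A, ∑ y ∈ A, ∑ i, (if w x i = w y i then (0 : ℝ) else l i) =
      ∑ i, l i * (m ^ 2 - ∑ b ∈ range (p i), n i b ^ 2) := by
    rw [sum_congr rfl (fun x _ => sum_comm), sum_comm]
    apply sum_congr rfl
    intro i _
    exact pair_sum A (fun x => w x i) (p i) (fun x hx => hw x hx i) (l i)
  -- the score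
  have h3 : m * (K - η) ≤ ∑ i, l i * ∑ b ∈ range (p i), n i b * mu i b := by
    have h4 : ∑ _x ∈ A, (K - η) ≤ ∑ x ∈ A, ∑ i, l i * mu i (w x i) := sum_le_sum hX
    rw [sum_const, nsmul_eq_mul, sum_comm] at h4
    refine h4.trans (le_of_eq ?_)
    apply sum_congr rfl
    intro i _
    rw [← mul_sum, fibre_sum A (fun x => w x i) (p i) (fun x hx => hw x hx i) (mu i)]
  -- the square
  have h4 : ∑ i, l i * (2 * m * (∑ b ∈ range (p i), n i b * mu i b) -
      m ^ 2 * ∑ b ∈ range (p i), mu i b ^ 2) ≤ ∑ i, l i * ∑ b ∈ range (p i), n i b ^ 2 := by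
    apply sum_le_sum
    intro i _
    apply mul_le_mul_of_nonneg_left _ (hl i)
    rw [mul_sum, mul_sum, ← sum_sub_distrib]
    apply sum_le_sum
    intro b _
    nlinarith [sq_nonneg (n i b - m * mu i b)]
  have h5 : ∑ i, l i * (2 * m * (∑ b ∈ range (p i), n i b * mu i b) -
      m ^ 2 * ∑ b ∈ range (p i), mu i b ^ 2) =
      2 * m * (∑ i, l i * ∑ b ∈ range (p i), n i b * mu i b) - m ^ 2 * K := by
    rw [hK, mul_sum, mul_sum, ← sum_sub_distrib]
    apply sum_congr rfl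
    intro i _
    ring
  have h6 : ∑ i, l i * (m ^ 2 - ∑ b ∈ range (p i), n i b ^ 2) =
      m ^ 2 * ∑ i, l i - ∑ i, l i * ∑ b ∈ range (p i), n i b ^ 2 := by
    rw [mul_sum, ← sum_sub_distrib]
    apply sum_congr rfl
    intro i _
    ring
  have hm0 : 0 ≤ m := Nat.cast_nonneg _
  rw [h2, h6] at h1
  rw [h5] at h4
  have h7 := mul_le_mul_of_nonneg_left h3 (by linarith : 0 ≤ 2 * m)
  nlinarith

end Pool.Agent.Lib.MP_d5700b_nt.FW
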