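import Pool.Agent.Lib.MP_d5700b_nt.FW.Defs

set_option autoImplicit false

/-!
Row F : large deviations.
-/

namespace Pool.Agent.Lib.MP_d5700b_nt.FW

open Finset

lemma exp_neg_le_quad {x : ℝ} (hx : 0 ≤ x) : Real.exp (-x) ≤ 1 - x + x ^ 2 / 2 := by
  have h1 := Real.quadratic_le_exp_of_nonneg hx
  have h2 : 0 < 1 + x + x ^ 2 / 2 := by positivity
  have h3 : Real.exp (-x) * Real.exp x = 1 := by
    rw [← Real.exp_add, neg_add_cancel, Real.exp_zero]
  have h4 : Real.exp (-x) * (1 + x + x ^ 2 / 2) ≤ 1 :=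
    (mul_le_mul_of_nonneg_left h1 (Real.exp_pos _).le).trans h3.le
  have h5 : 1 ≤ (1 - x + x ^ 2 / 2) * (1 + x + x ^ 2 / 2) := by
    nlinarith [sq_nonneg (x ^ 2)]
  exact le_of_mul_le_mul_right (h4.trans h5) h2

theorem deviation {ι : Type} [Fintype ι] [DecidableEq ι] (p : ι → ℕ) (m X : ι → ℕ → ℝ)
    (hm : ∀ i, ∀ b < p i, 0 ≤ m i b) (hm1 : ∀ i, ∑ b ∈ range (p i), m i b = 1)
    (L : ℝ) (hX : ∀ i, ∀ b < p i, 0 ≤ X i b ∧ X i b ≤ L)
    (K : ℝ) (hK : K = ∑ i, ∑ b ∈ range (p i), m i b * X i b) (lam η : ℝ) (hlam : 0 ≤ lam) :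
    ∑ b ∈ (Fintype.piFinset (fun i => range (p i))).filter (fun b => ∑ i, X i (b i) ≤ K - η),
      ∏ i, m i (b i) ≤ Real.exp (-lam * η + lam ^ 2 * L * K / 2) := by
  classical
  have hmem : ∀ b ∈ Fintype.piFinset (fun i => range (p i)), ∀ i, b i < p i := by
    intro b hb i
    exact mem_range.mp (Fintype.mem_piFinset.mp hb i)
  have hprod : ∀ b ∈ Fintype.piFinset (fun i => range (p i)), 0 ≤ ∏ i, m i (b i) :=
    fun b hb => prod_nonneg (fun i _ => hm i _ (hmem b hb i))
  -- Markov
  have h1 : ∑ b ∈ (Fintype.piFinset (fun i => range (p i))).filter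
      (fun b => ∑ i, X i (b i) ≤ K - η), ∏ i, m i (b i) ≤
      ∑ b ∈ Fintype.piFinset (fun i => range (p i)),
        Real.exp (lam * (K - η)) * ∏ i, (m i (b i) * Real.exp (-(lam * X i (b i)))) := by
    calc ∑ b ∈ (Fintype.piFinset (fun i => range (p i))).filter
          (fun b => ∑ i, X i (b i) ≤ K - η), ∏ i, m i (b i)
        ≤ ∑ b ∈ (Fintype.piFinset (fun i => range (p i))).filter
          (fun b => ∑ i, X i (b i) ≤ K - η),
          Real.exp (lam * (K - η)) * ∏ i, (m i (b i) * Real.exp (-(lam * X i (b i)))) := by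
          apply sum_le_sum
          intro b hb
          obtain ⟨hb1, hb2⟩ := mem_filter.mp hb
          rw [prod_mul_distrib, ← Real.exp_sum, sum_neg_distrib, ← mul_sum]
          have h2 : 1 ≤ Real.exp (lam * (K - η)) * Real.exp (-(lam * ∑ i, X i (b i))) := by
            rw [← Real.exp_add]
            apply Real.one_le_exp
            nlinarith
          have h3 := mul_le_mul_of_nonneg_left h2 (hprod b hb1)
          linarith
      _ ≤ _ := by
          apply sum_le_sum_of_subset_of_nonneg (filter_subset _ _)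
          intro b hb _
          apply mul_nonneg (Real.exp_pos _).le
          exact prod_nonneg (fun i _ => mul_nonneg (hm i _ (hmem b hb i)) (Real.exp_pos _).le)
  -- the product
  have h2 : ∑ b ∈ Fintype.piFinset (fun i => range (p i)),
        Real.exp (lam * (K - η)) * ∏ i, (m i (b i) * Real.exp (-(lam * X i (b i)))) =
      Real.exp (lam * (K - η)) *
        ∏ i, ∑ b ∈ range (p i), m i b * Real.exp (-(lam * X i b)) := by
    rw [← mul_sum, prod_univ_sum]
  set E : ι → ℝ := fun i => ∑ b ∈ range (p i), m i b * X i b with hE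
  have h3 : ∀ i, ∑ b ∈ range (p i), m i b * Real.exp (-(lam * X i b)) ≤
      Real.exp (-(lam * E i) + lam ^ 2 * L * E i / 2) := by
    intro i
    have h4 : ∑ b ∈ range (p i), m i b * Real.exp (-(lam * X i b)) ≤
        ∑ b ∈ range (p i), (m i b - lam * (m i b * X i b) +
          lam ^ 2 * L / 2 * (m i b * X i b)) := by
      apply sum_le_sum
      intro b hb
      have hb' := mem_range.mp hb
      obtain ⟨hx0, hxL⟩ := hX i b hb'
      have h5 := exp_neg_le_quad (mul_nonneg hlam hx0)
      have h6 := mul_le_mul_of_nonneg_left h5 (hm i b hb')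
      have h7 : X i b ^ 2 ≤ L * X i b := by nlinarith
      have h8 : m i b * (lam ^ 2 * X i b ^ 2) ≤ m i b * (lam ^ 2 * (L * X i b)) := by
        apply mul_le_mul_of_nonneg_left _ (hm i b hb')
        exact mul_le_mul_of_nonneg_left h7 (sq_nonneg _)
      nlinarith
    rw [sum_add_distrib, sum_sub_distrib, ← mul_sum, ← mul_sum, hm1 i] at h4
    refine h4.trans ?_
    have h9 := Real.add_one_le_exp (-(lam * E i) + lam ^ 2 * L * E i / 2)
    have h10 : 1 - lam * (∑ b ∈ range (p i), m i b * X i b) +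
        lam ^ 2 * L / 2 * (∑ b ∈ range (p i), m i b * X i b) =
        -(lam * E i) + lam ^ 2 * L * E i / 2 + 1 := by
      simp only [hE]
      ring
    rw [h10]
    exact h9
  have h4 : ∏ i, ∑ b ∈ range (p i), m i b * Real.exp (-(lam * X i b)) ≤
      ∏ i, Real.exp (-(lam * E i) + lam ^ 2 * L * E i / 2) := by
    apply prod_le_prod
    · intro i _
      exact sum_nonneg (fun b hb => mul_nonneg (hm i b (mem_range.mp hb)) (Real.exp_pos _).le)
    · intro i _
      exact h3 i
  have h5 : ∏ i, Real.exp (-(lam * E i) + lam ^ 2 * L * E i / 2) =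
      Real.exp (-(lam * K) + lam ^ 2 * L * K / 2) := by
    rw [← Real.exp_sum, sum_add_distrib, sum_neg_distrib, ← mul_sum]
    congr 1
    rw [hK]
    congr 1
    rw [mul_sum, sum_div]
  refine h1.trans ?_
  rw [h2]
  refine (mul_le_mul_of_nonneg_left h4 (Real.exp_pos _).le).trans ?_
  rw [h5, ← Real.exp_add]
  apply Real.exp_le_exp.mpr
  linarith

end Pool.Agent.Lib.MP_d5700b_nt.FW
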