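import Pool.Agent.Lib.MP_d5700b_nt.FW.Defs

set_option autoImplicit false

/-!
Row H: two different words are not near.
-/

namespace Pool.Agent.Lib.MP_d5700b_nt.FW

open Finset

lemma small_dvd {q a b : ℕ} (ha : a < q) (hb : b < q) (h : (q : ℤ) ∣ (a : ℤ) - b) : a = b := by
  obtain ⟨k, hk⟩ := h
  have hq : (0 : ℤ) < q := by omega
  have h1 : k < 1 := by
    by_contra hc
    push Not at hc
    have : (q : ℤ) * 1 ≤ q * k := mul_le_mul_of_nonneg_left hc hq.le
    omega
  have h2 : -1 < k := by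
    by_contra hc
    push Not at hc
    have : (q : ℤ) * k ≤ q * (-1) := mul_le_mul_of_nonneg_left hc hq.le
    omega
  have h3 : k = 0 := by omega
  rw [h3, mul_zero] at hk
  omega

theorem not_near {ι : Type} [Fintype ι] [DecidableEq ι] (p : ι → ℕ) (hp : ∀ i, (p i).Prime)
    (hinj : Function.Injective p) (Q q : ℕ) (hcop : ∀ i, Nat.Coprime Q (p i)) (hq : q.Prime)
    (hcase : (∃ i, p i = q) ∨ ((∀ i, p i ≠ q) ∧ ∃ Q', Q = q * Q' ∧ Nat.Coprime Q' q))
    (b b' : ι → ℕ) (hb : ∀ i, b i < p i) (hb' : ∀ i, b' i < p i) (h h' : ℕ) (hh : h < q)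
    (hh' : h' < q) (hne : b ≠ b' ∨ h ≠ h') (δ : ℝ)
    (hnear : Near δ (Q * (fr p b + h / q ^ 2)) (Q * (fr p b' + h' / q ^ 2))) :
    1 < δ * ((q : ℝ) ^ 2 * ∏ i, if b i = b' i then (1 : ℝ) else p i) := by
  obtain ⟨z, hz⟩ := hnear
  obtain ⟨Df, hDf⟩ : ∃ Df : Finset ι, Df = univ.filter (fun i => b i ≠ b' i) := ⟨_, rfl⟩
  have hmem : ∀ i, i ∈ Df ↔ b i ≠ b' i := fun i => by rw [hDf]; simp
  have hq0 : 0 < q := hq.pos
  have hqZ : (0 : ℤ) < q := by exact_mod_cast hq0
  have hqR : (0 : ℝ) < q := by exact_mod_cast hq0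
  have hpR : ∀ i, (0 : ℝ) < p i := fun i => by exact_mod_cast (hp i).pos
  have hprod : (∏ i, if b i = b' i then (1 : ℝ) else p i) = ∏ i ∈ Df, (p i : ℝ) := by
    rw [hDf, Finset.prod_filter]
    refine Finset.prod_congr rfl fun i _ => ?_
    by_cases hi : b i = b' i <;> simp [hi]
  rw [hprod]
  have hPpos : (0 : ℝ) < ∏ i ∈ Df, (p i : ℝ) := Finset.prod_pos fun i _ => hpR i
  obtain ⟨M, hM⟩ : ∃ M : ℤ, M = Q * (∑ i ∈ Df, ((b i : ℤ) - b' i) *
      ((q : ℤ) ^ 2 * ∏ j ∈ Df.erase i, (p j : ℤ)) + ((h : ℤ) - h') * ∏ j ∈ Df, (p j : ℤ)) -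
      (q : ℤ) ^ 2 * (∏ j ∈ Df, (p j : ℤ)) * z := ⟨_, rfl⟩
  have hMR : (M : ℝ) = ((q : ℝ) ^ 2 * ∏ i ∈ Df, (p i : ℝ)) *
      (Q * (fr p b + h / q ^ 2) - Q * (fr p b' + h' / q ^ 2) - z) := by
    have hfr : fr p b - fr p b' = ∑ i ∈ Df, ((b i : ℝ) - b' i) / p i := by
      unfold fr
      rw [← Finset.sum_sub_distrib, hDf, Finset.sum_filter]
      refine Finset.sum_congr rfl fun i _ => ?_
      by_cases hi : b i = b' i
      · simp [hi]
      · simp only [ne_eq, hi, not_false_eq_true, if_true]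
        ring
    have hs : ∀ i ∈ Df, ((b i : ℝ) - b' i) * ((q : ℝ) ^ 2 * ∏ j ∈ Df.erase i, (p j : ℝ)) =
        ((q : ℝ) ^ 2 * ∏ j ∈ Df, (p j : ℝ)) * (((b i : ℝ) - b' i) / p i) := by
      intro i hi
      rw [← Finset.mul_prod_erase Df (fun j => (p j : ℝ)) hi]
      have := (hpR i).ne'
      field_simp
    have e1 : Q * (fr p b + h / q ^ 2) - Q * (fr p b' + h' / q ^ 2) - (z : ℝ) =
        Q * ((fr p b - fr p b') + ((h : ℝ) - h') / q ^ 2) - z := by ring
    rw [e1, hfr, hM]
    push_cast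
    rw [Finset.sum_congr rfl hs, ← Finset.mul_sum]
    have := hqR.ne'
    field_simp
  have hM0 : M ≠ 0 := by
    intro h0
    by_cases hex : ∃ i ∈ Df, p i ≠ q
    · obtain ⟨i0, hi0, hpq⟩ := hex
      have hpI : Prime (p i0 : ℤ) := Nat.prime_iff_prime_int.1 (hp i0)
      have hdP : (p i0 : ℤ) ∣ ∏ j ∈ Df, (p j : ℤ) := Finset.dvd_prod_of_mem _ hi0
      have hd1 : (p i0 : ℤ) ∣ Q * (((b i0 : ℤ) - b' i0) *
          ((q : ℤ) ^ 2 * ∏ j ∈ Df.erase i0, (p j : ℤ))) := by
        have hsum := Finset.add_sum_erase Df (fun i => ((b i : ℤ) - b' i) *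
          ((q : ℤ) ^ 2 * ∏ j ∈ Df.erase i, (p j : ℤ))) hi0
        have hrest : (p i0 : ℤ) ∣ ∑ i ∈ Df.erase i0, ((b i : ℤ) - b' i) *
            ((q : ℤ) ^ 2 * ∏ j ∈ Df.erase i, (p j : ℤ)) := by
          refine Finset.dvd_sum fun i hi => ?_
          refine Dvd.dvd.mul_left (Dvd.dvd.mul_left ?_ _) _
          refine Finset.dvd_prod_of_mem _ ?_
          rw [Finset.mem_erase] at hi ⊢
          exact ⟨fun h => hi.1 h.symm, hi0⟩
        have e : Q * (((b i0 : ℤ) - b' i0) * ((q : ℤ) ^ 2 * ∏ j ∈ Df.erase i0, (p j : ℤ))) =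
            M - (Q * (∑ i ∈ Df.erase i0, ((b i : ℤ) - b' i) *
              ((q : ℤ) ^ 2 * ∏ j ∈ Df.erase i, (p j : ℤ))) +
              Q * ((h : ℤ) - h') * (∏ j ∈ Df, (p j : ℤ)) -
              (q : ℤ) ^ 2 * z * (∏ j ∈ Df, (p j : ℤ))) := by
          rw [hM, ← hsum]; ring
        rw [e, h0, zero_sub, dvd_neg]
        exact dvd_sub (dvd_add (Dvd.dvd.mul_left hrest _) (Dvd.dvd.mul_left hdP _))
          (Dvd.dvd.mul_left hdP _)
      rcases hpI.dvd_or_dvd hd1 with hd | hd
      · have h2 : p i0 ∣ Q := by exact_mod_cast hd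
        have := Nat.Coprime.eq_one_of_dvd (hcop i0).symm h2
        exact (hp i0).one_lt.ne' this
      rcases hpI.dvd_or_dvd hd with hd | hd
      · exact (hmem i0).1 hi0 (small_dvd (hb i0) (hb' i0) hd)
      rcases hpI.dvd_or_dvd hd with hd | hd
      · have h2 := hpI.dvd_of_dvd_pow hd
        have h3 : p i0 ∣ q := by exact_mod_cast h2
        exact hpq ((Nat.prime_dvd_prime_iff_eq (hp i0) hq).1 h3)
      · obtain ⟨j, hj, hdj⟩ := hpI.exists_mem_finset_dvd hd
        have h3 : p i0 ∣ p j := by exact_mod_cast hdj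
        have h4 := (Nat.prime_dvd_prime_iff_eq (hp i0) (hp j)).1 h3
        exact (Finset.mem_erase.1 hj).1 (hinj h4).symm
    · push Not at hex
      have hqI : Prime (q : ℤ) := Nat.prime_iff_prime_int.1 hq
      rcases Finset.eq_empty_or_nonempty Df with hE | ⟨i1, hi1⟩
      · have hbb : b = b' := by
          funext i
          by_contra hc
          have := (hmem i).2 hc
          rw [hE] at this
          exact absurd this (Finset.notMem_empty i)
        have hhne : h ≠ h' := by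
          rcases hne with h1 | h1
          · exact absurd hbb h1
          · exact h1
        rw [hE] at hM
        simp only [Finset.sum_empty, Finset.prod_empty, zero_add, mul_one] at hM
        rcases hcase with ⟨i, hi⟩ | ⟨_, Q', hQ', hc'⟩
        · have hd : (q : ℤ) ∣ Q * ((h : ℤ) - h') := ⟨q * z, by
            have : (Q : ℤ) * ((h : ℤ) - h') = (q : ℤ) ^ 2 * z := by linarith
            rw [this]; ring⟩
          rcases hqI.dvd_or_dvd hd with hd | hd
          · have h2 : q ∣ Q := by exact_mod_cast hd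
            have h3 := hcop i
            rw [hi] at h3
            exact hq.one_lt.ne' (Nat.Coprime.eq_one_of_dvd h3.symm h2)
          · exact hhne (small_dvd hh hh' hd)
        · have hd : (q : ℤ) ∣ Q' * ((h : ℤ) - h') := ⟨z, by
            have h1 : (Q : ℤ) = q * Q' := by exact_mod_cast hQ'
            have h2 : (q : ℤ) * (Q' * ((h : ℤ) - h')) = q * (q * z) := by
              rw [h1] at hM
              linear_combination hM.symm.trans h0
            exact mul_left_cancel₀ hqZ.ne' h2⟩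
          rcases hqI.dvd_or_dvd hd with hd | hd
          · have h2 : q ∣ Q' := by exact_mod_cast hd
            exact hq.one_lt.ne' (Nat.Coprime.eq_one_of_dvd hc'.symm h2)
          · exact hhne (small_dvd hh hh' hd)
      · have hDs : Df = {i1} := by
          refine Finset.eq_singleton_iff_unique_mem.2 ⟨hi1, fun j hj => hinj ?_⟩
          rw [hex j hj, hex i1 hi1]
        have hpi : p i1 = q := hex i1 hi1
        rw [hDs] at hM
        simp only [Finset.sum_singleton, Finset.prod_singleton, Finset.erase_singleton,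
          Finset.prod_empty, mul_one, hpi] at hM
        have h1 : (Q : ℤ) * (((b i1 : ℤ) - b' i1) * q + ((h : ℤ) - h')) = q * (q * z) := by
          have h2 : (q : ℤ) * (Q * (((b i1 : ℤ) - b' i1) * q + ((h : ℤ) - h'))) =
              q * (q * (q * z)) := by
            linear_combination hM.symm.trans h0
          exact mul_left_cancel₀ hqZ.ne' h2
        have hQq : ¬ (q : ℤ) ∣ Q := by
          intro hd
          have h2 : q ∣ Q := by exact_mod_cast hd
          have h3 := hcop i1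
          rw [hpi] at h3
          exact hq.one_lt.ne' (Nat.Coprime.eq_one_of_dvd h3.symm h2)
        have hd1 : (q : ℤ) ∣ Q * (((b i1 : ℤ) - b' i1) * q + ((h : ℤ) - h')) := ⟨_, h1⟩
        have hd2 := (hqI.dvd_or_dvd hd1).resolve_left hQq
        have hd3 : (q : ℤ) ∣ (h : ℤ) - h' := by
          have := dvd_sub hd2 (Dvd.intro_left ((b i1 : ℤ) - b' i1) rfl)
          simpa using this
        have hhe := small_dvd hh hh' hd3
        rw [hhe, sub_self, add_zero] at h1
        have h4 : (Q : ℤ) * ((b i1 : ℤ) - b' i1) = q * z := by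
          have h2 : (q : ℤ) * (Q * ((b i1 : ℤ) - b' i1)) = q * (q * z) := by
            linear_combination h1
          exact mul_left_cancel₀ hqZ.ne' h2
        have hd4 : (q : ℤ) ∣ Q * ((b i1 : ℤ) - b' i1) := ⟨_, h4⟩
        have hd5 := (hqI.dvd_or_dvd hd4).resolve_left hQq
        rw [← hpi] at hd5
        exact (hmem i1).1 hi1 (small_dvd (hb i1) (hb' i1) hd5)
  have h1 : (1 : ℝ) ≤ |(M : ℝ)| := by
    have : (1 : ℤ) ≤ |M| := Int.one_le_abs hM0
    exact_mod_cast this
  have hD : 0 < (q : ℝ) ^ 2 * ∏ i ∈ Df, (p i : ℝ) := by positivity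
  rw [hMR, abs_mul, abs_of_pos hD] at h1
  calc (1 : ℝ) ≤ _ := h1
    _ < ((q : ℝ) ^ 2 * ∏ i ∈ Df, (p i : ℝ)) * δ := mul_lt_mul_of_pos_left hz hD
    _ = _ := by ring

end Pool.Agent.Lib.MP_d5700b_nt.FW
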