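import Pool.Agent.Lib.MP_d5700b_nt.FW.Rows

set_option autoImplicit false

/-!
Row J: the shift average.
-/

namespace Pool.Agent.Lib.MP_d5700b_nt.FW

open Finset

variable {ι : Type} [Fintype ι] [DecidableEq ι]

/-- the coefficient without shift -/
noncomputable def cb (p a : ι → ℕ) (Q : ℕ) (b : ι → ℕ) : ℂ :=
  (∏ i, gam (p i) (a i) (b i)) * ee (Q * fr p b)

/-- the phase of a shift -/
noncomputable def ph (p s b : ι → ℕ) : ℂ := ∏ i, ee (-((b i : ℝ) * s i / p i))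

lemma co_eq (p a s b : ι → ℕ) : co p a s b = (∏ i, gam (p i) (a i) (b i)) * ph p s b := by
  unfold co ph
  rw [prod_mul_distrib]

lemma Fw_eq (p a s : ι → ℕ) (Q : ℕ) (W : Finset (ι → ℕ)) (t1 t2 : ℕ) :
    Fw p a s Q W (t1 + t2) =
      ∑ b ∈ W, (cb p a Q b * ph p s b) * ee (Q * fr p b * (t1 + t2)) := by
  unfold Fw
  apply sum_congr rfl
  intro b _
  have h : fr p b * ((Q : ℝ) * (((t1 + t2 : ℕ) : ℝ) + 1)) =
      Q * fr p b + Q * fr p b * (t1 + t2) := by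
    push_cast
    ring
  rw [h, ee_add, co_eq, cb]
  ring

lemma norm_ph (p s b : ι → ℕ) : ‖ph p s b‖ = 1 := by
  unfold ph
  rw [norm_prod]
  exact prod_eq_one (fun i _ => norm_ee _)

lemma norm_cb (p a : ι → ℕ) (Q : ℕ) (b : ι → ℕ) :
    ‖cb p a Q b‖ ^ 2 = ∏ i, ‖gam (p i) (a i) (b i)‖ ^ 2 := by
  unfold cb
  rw [norm_mul, norm_ee, mul_one, norm_prod, prod_pow]

/-- the phases of a pair, summed over the shifts -/
lemma sum_ph (p S : ι → ℕ) (b b' : ι → ℕ) :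
    ∑ s ∈ Fintype.piFinset (fun i => range (S i)), ph p s b * (starRingEnd ℂ) (ph p s b') =
      ∏ i, ∑ s ∈ range (S i), ee (-((((b i : ℤ) - (b' i : ℤ) : ℤ) : ℝ) * s / p i)) := by
  rw [prod_univ_sum]
  apply sum_congr rfl
  intro s _
  unfold ph
  rw [map_prod, ← prod_mul_distrib]
  apply prod_congr rfl
  intro i _
  rw [← ee_neg, ← ee_add]
  congr 1
  push_cast
  ring

theorem exists_shift (p a S : ι → ℕ) (hS : ∀ i, 1 ≤ S i) (Q T M m0 : ℕ)
    (hT : 1 ≤ T) (hm0 : 1 ≤ m0) (W : Finset (ι → ℕ))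
    (hcl : ∀ A ⊆ W, (∀ b ∈ A, ∀ b' ∈ A, b ≠ b' → Near (1 / T) (Q * fr p b) (Q * fr p b')) →
      A.card ≤ M)
    (ρ : ℝ) (hρ : 0 ≤ ρ)
    (hdamp : ∀ b ∈ W, ∀ b' ∈ W, b ≠ b' → Near ((m0 + 1) / T) (Q * fr p b) (Q * fr p b') →
      ∏ i, ‖∑ s ∈ range (S i), ee (-((((b i : ℤ) - (b' i : ℤ) : ℤ) : ℝ) * s / p i))‖ ≤
        ρ * ∏ i, (S i : ℝ))
    (hc : (2 * (m0 + 1) * ρ + 1 / m0) * M ≤ 1 / 2) :
    ∃ s ∈ Fintype.piFinset (fun i => range (S i)),
      1 / 2 * T ^ 2 * ∑ b ∈ W, ∏ i, ‖gam (p i) (a i) (b i)‖ ^ 2 ≤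
        ∑ t1 ∈ range T, ∑ t2 ∈ range T, ‖Fw p a s Q W (t1 + t2)‖ ^ 2 := by
  classical
  set Sh := Fintype.piFinset (fun i => range (S i)) with hSh
  have hcard : (Sh.card : ℝ) = ∏ i, (S i : ℝ) := by
    rw [hSh, Fintype.card_piFinset]
    simp
  have hSpos : (0 : ℝ) < ∏ i, (S i : ℝ) := prod_pos (fun i _ => by exact_mod_cast hS i)
  have hne : Sh.Nonempty := by
    rw [← card_pos]
    have : (0 : ℝ) < Sh.card := by rw [hcard]; exact hSpos
    exact_mod_cast this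
  set C : ℝ := ∑ b ∈ W, ∏ i, ‖gam (p i) (a i) (b i)‖ ^ 2 with hC
  have hC' : C = ∑ b ∈ W, ‖cb p a Q b‖ ^ 2 := by
    rw [hC]
    exact sum_congr rfl (fun b _ => (norm_cb p a Q b).symm)
  -- the total over the shifts
  have htot : ((∑ s ∈ Sh, ∑ t1 ∈ range T, ∑ t2 ∈ range T, ‖Fw p a s Q W (t1 + t2)‖ ^ 2 : ℝ) : ℂ) =
      ∑ b ∈ W, ∑ b' ∈ W, cb p a Q b * (starRingEnd ℂ) (cb p a Q b') *
        (∏ i, ∑ s ∈ range (S i), ee (-((((b i : ℤ) - (b' i : ℤ) : ℤ) : ℝ) * s / p i))) *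
          Dk T (Q * fr p b - Q * fr p b') ^ 2 := by
    rw [Complex.ofReal_sum]
    have h1 : ∀ s ∈ Sh, ((∑ t1 ∈ range T, ∑ t2 ∈ range T, ‖Fw p a s Q W (t1 + t2)‖ ^ 2 : ℝ) : ℂ) =
        ∑ b ∈ W, ∑ b' ∈ W, cb p a Q b * (starRingEnd ℂ) (cb p a Q b') *
          (ph p s b * (starRingEnd ℂ) (ph p s b')) * Dk T (Q * fr p b - Q * fr p b') ^ 2 := by
      intro s _
      have h2 := expand_sq W (fun b => (Q : ℝ) * fr p b) (fun b => cb p a Q b * ph p s b) T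
      have h3 : (∑ t1 ∈ range T, ∑ t2 ∈ range T, ‖Fw p a s Q W (t1 + t2)‖ ^ 2 : ℝ) =
          ∑ t1 ∈ range T, ∑ t2 ∈ range T,
            ‖∑ b ∈ W, cb p a Q b * ph p s b * ee (Q * fr p b * (t1 + t2))‖ ^ 2 := by
        apply sum_congr rfl
        intro t1 _
        apply sum_congr rfl
        intro t2 _
        rw [Fw_eq]
      rw [h3, h2]
      apply sum_congr rfl
      intro b _
      apply sum_congr rfl
      intro b' _
      rw [map_mul]
      ring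
    rw [sum_congr rfl h1, sum_comm]
    apply sum_congr rfl
    intro b _
    rw [sum_comm]
    apply sum_congr rfl
    intro b' _
    rw [← sum_ph p S b b', mul_sum, sum_mul]
  -- apply the off-diagonal bound
  have hoff := off_diagonal W (fun b => (Q : ℝ) * fr p b) (cb p a Q) T M m0 hT hm0 hcl ρ hρ
    (fun b b' => (∏ i, ∑ s ∈ range (S i), ee (-((((b i : ℤ) - (b' i : ℤ) : ℤ) : ℝ) * s / p i))) /
      ((∏ i, (S i : ℝ) : ℝ) : ℂ)) (by
      intro b _ b' _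
      rw [norm_div, Complex.norm_real, Real.norm_of_nonneg hSpos.le, norm_prod,
        div_le_one hSpos]
      apply prod_le_prod (fun i _ => norm_nonneg _)
      intro i _
      calc ‖∑ s ∈ range (S i), ee (-((((b i : ℤ) - (b' i : ℤ) : ℤ) : ℝ) * s / p i))‖
          ≤ ∑ s ∈ range (S i), ‖ee (-((((b i : ℤ) - (b' i : ℤ) : ℤ) : ℝ) * s / p i))‖ :=
            norm_sum_le _ _
        _ = S i := by simp [norm_ee]) (by
      intro b _
      have h1 : ∀ i, ∑ s ∈ range (S i), ee (-((((b i : ℤ) - (b i : ℤ) : ℤ) : ℝ) * s / p i)) =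
          (S i : ℂ) := by
        intro i
        have : ∀ s ∈ range (S i), ee (-((((b i : ℤ) - (b i : ℤ) : ℤ) : ℝ) * s / p i)) = 1 := by
          intro s _
          rw [sub_self, Int.cast_zero, zero_mul, zero_div, neg_zero, ee_zero]
        rw [sum_congr rfl this]
        simp
      simp only [h1]
      rw [Complex.ofReal_prod]
      simp only [Complex.ofReal_natCast]
      apply div_self
      rw [prod_ne_zero_iff]
      intro i _
      exact_mod_cast (by have := hS i; omega : S i ≠ 0)) (by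
      intro b hb b' hb' hne hnear
      rw [norm_div, Complex.norm_real, Real.norm_of_nonneg hSpos.le, norm_prod,
        div_le_iff₀ hSpos]
      exact hdamp b hb b' hb' hne hnear)
  rw [← hC'] at hoff
  have hCn : 0 ≤ C := by
    rw [hC']
    exact sum_nonneg (fun b _ => sq_nonneg _)
  have hT2 : (0 : ℝ) ≤ T ^ 2 := by positivity
  -- lower bound of the total
  have hlow : (∏ i, (S i : ℝ)) * (1 / 2 * T ^ 2 * C) ≤
      ∑ s ∈ Sh, ∑ t1 ∈ range T, ∑ t2 ∈ range T, ‖Fw p a s Q W (t1 + t2)‖ ^ 2 := by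
    have h1 : (∑ s ∈ Sh, ∑ t1 ∈ range T, ∑ t2 ∈ range T, ‖Fw p a s Q W (t1 + t2)‖ ^ 2 : ℝ) =
        (∏ i, (S i : ℝ)) * (∑ b ∈ W, ∑ b' ∈ W, cb p a Q b * (starRingEnd ℂ) (cb p a Q b') *
          ((∏ i, ∑ s ∈ range (S i), ee (-((((b i : ℤ) - (b' i : ℤ) : ℤ) : ℝ) * s / p i))) /
            ((∏ i, (S i : ℝ) : ℝ) : ℂ)) * Dk T (Q * fr p b - Q * fr p b') ^ 2).re := by
      rw [← Complex.ofReal_re (∑ s ∈ Sh, ∑ t1 ∈ range T, ∑ t2 ∈ range T,
        ‖Fw p a s Q W (t1 + t2)‖ ^ 2), htot, ← Complex.re_ofReal_mul]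
      congr 1
      rw [mul_sum]
      apply sum_congr rfl
      intro b _
      rw [mul_sum]
      apply sum_congr rfl
      intro b' _
      have h2 : ((∏ i, (S i : ℝ) : ℝ) : ℂ) ≠ 0 := by exact_mod_cast hSpos.ne'
      field_simp
    rw [h1]
    apply mul_le_mul_of_nonneg_left _ hSpos.le
    refine le_trans ?_ hoff
    have h3 : (1 : ℝ) / 2 ≤ 1 - (2 * (m0 + 1) * ρ + 1 / m0) * M := by linarith
    calc 1 / 2 * (T : ℝ) ^ 2 * C = (1 / 2) * (T ^ 2 * C) := by ring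
      _ ≤ (1 - (2 * (m0 + 1) * ρ + 1 / m0) * M) * (T ^ 2 * C) :=
          mul_le_mul_of_nonneg_right h3 (mul_nonneg hT2 hCn)
      _ = _ := by ring
  by_contra hcon
  push Not at hcon
  have h4 := sum_lt_sum_of_nonempty hne hcon
  rw [sum_const, nsmul_eq_mul, hcard] at h4
  linarith

end Pool.Agent.Lib.MP_d5700b_nt.FW
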