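import Pool.Agent.Lib.MP_d5700b_nt.FW.RowC

set_option autoImplicit false

/-!
Row K: the collision probability.
-/

namespace Pool.Agent.Lib.MP_d5700b_nt.FW

open Finset

lemma gam_inv (p a : ℕ) (hp : 0 < p) (ha : a ≤ p) (n : ℤ) :
    ∑ b ∈ range p, gam p a b * ee ((b : ℝ) * n / p) = if n % p < a then 1 else 0 :=
  RC.gam_inv p a hp ha n

lemma gam_parseval (p a : ℕ) (hp : 0 < p) (ha : a ≤ p) :
    ∑ b ∈ range p, ‖gam p a b‖ ^ 2 = (a : ℝ) / p := RC.gam_parseval p a hp ha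

/-- The fourth moment. -/
theorem gam_four (p a : ℕ) (hp : 0 < p) (ha : a ≤ p) :
    (2 * (a : ℝ) ^ 3 + (max (2 * (a : ℝ) - p) 0) ^ 3) / (3 * p ^ 3) ≤
      ∑ b ∈ range p, ‖gam p a b‖ ^ 4 := RC.gam_four p a hp ha

lemma mm_nonneg (p a b : ℕ) : 0 ≤ mm p a b := by
  unfold mm
  positivity

lemma kap_nonneg (p a : ℕ) : 0 ≤ kap p a := sum_nonneg (fun _ _ => sq_nonneg _)

/-- from `gam_parseval` -/
lemma mm_sum (p a : ℕ) (hp : 0 < p) (ha : 1 ≤ a) (hap : a ≤ p) :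
    ∑ b ∈ range p, mm p a b = 1 := by
  have h1 : (p : ℝ) ≠ 0 := by exact_mod_cast hp.ne'
  have h2 : (a : ℝ) ≠ 0 := by exact_mod_cast (by omega : a ≠ 0)
  unfold mm
  rw [← sum_div, ← sum_mul, gam_parseval p a hp hap]
  field_simp

lemma mm_le_one (p a b : ℕ) (hp : 0 < p) (ha : 1 ≤ a) (hap : a ≤ p) (hb : b < p) :
    mm p a b ≤ 1 := by
  rw [← mm_sum p a hp ha hap]
  exact single_le_sum (fun i _ => mm_nonneg p a i) (mem_range.mpr hb)

lemma kap_le_one (p a : ℕ) (hp : 0 < p) (ha : 1 ≤ a) (hap : a ≤ p) : kap p a ≤ 1 := by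
  unfold kap
  rw [← mm_sum p a hp ha hap]
  apply sum_le_sum
  intro b hb
  have h1 := mm_nonneg p a b
  have h2 := mm_le_one p a b hp ha hap (mem_range.mp hb)
  nlinarith

/-- from `gam_four` -/
lemma kap_ge (p a : ℕ) (hp : 0 < p) (ha : 1 ≤ a) (hap : a ≤ p) :
    kt ((a : ℝ) / p) ≤ kap p a := by
  have h1 : (0 : ℝ) < p := by exact_mod_cast hp
  have h2 : (0 : ℝ) < a := by exact_mod_cast (by omega : 0 < a)
  have h3 := gam_four p a hp hap
  have h4 : kap p a = (p ^ 2 / a ^ 2) * ∑ b ∈ range p, ‖gam p a b‖ ^ 4 := by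
    unfold kap mm
    rw [mul_sum]
    apply sum_congr rfl
    intro b _
    field_simp
  have h5 : kt ((a : ℝ) / p) =
      (p ^ 2 / a ^ 2) * ((2 * (a : ℝ) ^ 3 + (max (2 * (a : ℝ) - p) 0) ^ 3) / (3 * p ^ 3)) := by
    have h6 : max (2 * ((a : ℝ) / p) - 1) 0 = max (2 * (a : ℝ) - p) 0 / p := by
      rw [max_div_div_right h1.le (2 * (a : ℝ) - p) 0 |>.symm.trans _]
      all_goals simp
      field_simp
    unfold kt
    rw [h6]
    field_simp
  rw [h4, h5]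
  exact mul_le_mul_of_nonneg_left h3 (by positivity)

lemma kt_mono (u v : ℝ) (hu : 0 < u) (huv : u ≤ v) (hv : v ≤ 1) : kt u ≤ kt v := by
  have h1 : ∀ x : ℝ, 0 < x → kt x = 2 / 3 * x + (max (2 * x - 1) 0) ^ 3 / (3 * x ^ 2) := by
    intro x hx
    unfold kt
    field_simp
  rw [h1 u hu, h1 v (lt_of_lt_of_le hu huv)]
  have hv0 : 0 < v := lt_of_lt_of_le hu huv
  have h2 : (max (2 * u - 1) 0) ^ 3 / (3 * u ^ 2) ≤ (max (2 * v - 1) 0) ^ 3 / (3 * v ^ 2) := by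
    rcases le_or_gt (2 * u - 1) 0 with h | h
    · rw [max_eq_right h]
      have : 0 ≤ (max (2 * v - 1) 0) ^ 3 / (3 * v ^ 2) := by positivity
      simpa using this
    · have h3 : 0 < 2 * v - 1 := by linarith
      rw [max_eq_left h.le, max_eq_left h3.le, div_le_div_iff₀ (by positivity) (by positivity)]
      -- (2u-1)^3 v^2 ≤ (2v-1)^3 u^2
      have h4 : (2 * u - 1) * v ≤ (2 * v - 1) * u := by nlinarith
      have h5 : ((2 * u - 1) * v) ^ 2 ≤ ((2 * v - 1) * u) ^ 2 :=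
        pow_le_pow_left₀ (by positivity) h4 2
      have h6 : (2 * u - 1) * ((2 * u - 1) * v) ^ 2 ≤ (2 * v - 1) * ((2 * v - 1) * u) ^ 2 :=
        mul_le_mul (by linarith) h5 (by positivity) h3.le
      nlinarith
  linarith

end Pool.Agent.Lib.MP_d5700b_nt.FW
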