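import Pool.Agent.Lib.MP_d5700b_nt.FW.Defs2

set_option autoImplicit false

/-!
Row L: the construction.
-/

namespace Pool.Agent.Lib.MP_d5700b_nt.FW

open Finset Filter Topology Pool.Agent.Lib.MP_d5700b_nt

lemma mem_G2 {k J N p : ℕ} :
    p ∈ G2 k J N ↔ ((p ≤ k ∧ p.Prime) ∧ k < J * p) ∧ 2 * p ≤ N * (p - k % p) := by
  simp [G2, mem_La]

lemma mem_B2 {k J N p : ℕ} :
    p ∈ B2 k J N ↔ ((p ≤ k ∧ p.Prime) ∧ k < J * p) ∧ ¬ 2 * p ≤ N * (p - k % p) := by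
  simp [B2, mem_La]

lemma coprime_Q2 {k J N p : ℕ} (hp : p ∈ G2 k J N) : Nat.Coprime (Q2 k J N) p := by
  obtain ⟨⟨⟨h1, h2⟩, h3⟩, h4⟩ := mem_G2.mp hp
  unfold Q2
  apply Nat.Coprime.mul_left
  · apply Nat.Coprime.prod_left
    intro q hq
    obtain ⟨⟨h5, h6⟩, h7⟩ := mem_Sm.mp hq
    apply Nat.Coprime.pow_left
    rw [Nat.coprime_primes h6 h2]
    rintro rfl
    omega
  · apply Nat.Coprime.prod_left
    intro q hq
    obtain ⟨⟨⟨h5, h6⟩, h7⟩, h8⟩ := mem_B2.mp hq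
    rw [Nat.coprime_primes h6 h2]
    rintro rfl
    exact h8 h4

lemma Q2_eq {k J N p : ℕ} (hp : p ∈ B2 k J N) :
    ∃ Q', Q2 k J N = p * Q' ∧ Nat.Coprime Q' p := by
  obtain ⟨⟨⟨h1, h2⟩, h3⟩, h4⟩ := mem_B2.mp hp
  refine ⟨(∏ q ∈ Sm k J, q ^ (Nat.log q k + 1)) * ∏ q ∈ (B2 k J N).erase p, q, ?_, ?_⟩
  · unfold Q2
    rw [← mul_prod_erase (B2 k J N) (fun q => q) hp]
    ring
  · apply Nat.Coprime.mul_left
    · apply Nat.Coprime.prod_left
      intro q hq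
      obtain ⟨⟨h5, h6⟩, h7⟩ := mem_Sm.mp hq
      apply Nat.Coprime.pow_left
      rw [Nat.coprime_primes h6 h2]
      rintro rfl
      omega
    · apply Nat.Coprime.prod_left
      intro q hq
      obtain ⟨h8, h9⟩ := mem_erase.mp hq
      obtain ⟨⟨⟨h5, h6⟩, h7⟩, h10⟩ := mem_B2.mp h9
      rw [Nat.coprime_primes h6 h2]
      exact h8

lemma Q2_pos (k J N : ℕ) : 0 < Q2 k J N := by
  unfold Q2
  apply Nat.mul_pos
  · exact prod_pos (fun q hq => pow_pos (mem_Sm.mp hq).1.2.pos _)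
  · exact prod_pos (fun q hq => (mem_B2.mp hq).1.1.2.pos)

lemma two_le_Q2 {k J : ℕ} (N : ℕ) (hJ : 2 ≤ J) (hk : J * J < k) : 2 ≤ Q2 k J N := by
  have h2 : 2 ∈ Sm k J := by
    rw [mem_Sm]
    refine ⟨⟨by nlinarith, Nat.prime_two⟩, by nlinarith⟩
  have h3 : 2 ∣ Q2 k J N := by
    unfold Q2
    apply Dvd.dvd.mul_right
    exact (dvd_pow_self 2 (by omega)).trans (dvd_prod_of_mem (fun p => p ^ (Nat.log p k + 1)) h2)
  exact Nat.le_of_dvd (Q2_pos k J N) h3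

theorem construct2 {k J N : ℕ} (hJ : 2 ≤ J) (hk : J * J < k) (t : ℕ)
    (h1 : ∀ p ∈ G2 k J N, Q2 k J N * (t + 1) % p < p - k % p)
    (h2 : ∀ p ∈ La k J, Q2 k J N * (t + 1) % p ^ 2 < (p - J) * p) :
    ∀ p, p.Prime → p ≤ k → ¬ p ∣ (Q2 k J N * (t + 1) + k).choose k := by
  have hJp : ∀ {p}, k < J * p → J ≤ p := by
    intro p h
    by_contra hcon
    push Not at hcon
    have : J * p ≤ J * J := Nat.mul_le_mul_left _ hcon.le
    omega
  intro p hp hpk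
  by_cases h3 : J * p ≤ k
  · have h4 : p ∈ Sm k J := mem_Sm.mpr ⟨⟨hpk, hp⟩, h3⟩
    apply not_dvd_small (a := Nat.log p k + 1) hp
    · apply Dvd.dvd.mul_right
      unfold Q2
      apply Dvd.dvd.mul_right
      exact dvd_prod_of_mem (fun p => p ^ (Nat.log p k + 1)) h4
    · exact Nat.lt_pow_succ_log_self hp.one_lt k
  · push Not at h3
    have hLa : p ∈ La k J := mem_La.mpr ⟨⟨hpk, hp⟩, h3⟩
    have hmod : k % p < p := Nat.mod_lt _ hp.pos
    apply not_dvd_large hp (hJp h3) h3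
    · by_cases h4 : 2 * p ≤ N * (p - k % p)
      · have := h1 p (mem_G2.mpr ⟨⟨⟨hpk, hp⟩, h3⟩, h4⟩)
        omega
      · obtain ⟨Q', hQ', _⟩ := Q2_eq (mem_B2.mpr ⟨⟨⟨hpk, hp⟩, h3⟩, h4⟩)
        rw [hQ', mul_assoc, Nat.mul_mod_right, zero_add]
        exact hmod
    · exact h2 p hLa

lemma log_Q2_le {k J N : ℕ} :
    Real.log (Q2 k J N) ≤ 2 * Real.log k * (Sm k J).card + ∑ p ∈ B2 k J N, Real.log p := by
  unfold Q2
  have hne1 : ∀ p ∈ Sm k J, ((p : ℝ) ^ (Nat.log p k + 1)) ≠ 0 := by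
    intro p hp
    have := (mem_Sm.mp hp).1.2.pos
    positivity
  have hne2 : ∀ p ∈ B2 k J N, (p : ℝ) ≠ 0 := by
    intro p hp
    have := (mem_B2.mp hp).1.1.2.pos
    positivity
  push_cast
  rw [Real.log_mul (prod_ne_zero_iff.mpr hne1) (prod_ne_zero_iff.mpr hne2),
    Real.log_prod hne1, Real.log_prod hne2]
  apply add_le_add _ le_rfl
  have h : ∀ p ∈ Sm k J, Real.log ((p : ℝ) ^ (Nat.log p k + 1)) ≤ 2 * Real.log k := by
    intro p hp
    obtain ⟨⟨h1, h2⟩, h3⟩ := mem_Sm.mp hp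
    have hp0 : (0 : ℝ) < p := by exact_mod_cast h2.pos
    have hk0 : k ≠ 0 := by
      have := h2.pos
      omega
    have h4 : (p : ℝ) ^ (Nat.log p k) ≤ k := by exact_mod_cast Nat.pow_log_le_self p hk0
    have h5 : (p : ℝ) ≤ k := by exact_mod_cast h1
    rw [pow_succ, Real.log_mul (by positivity) (by positivity)]
    have h6 := Real.log_le_log (by positivity) h4
    have h7 := Real.log_le_log hp0 h5
    linarith
  calc ∑ p ∈ Sm k J, Real.log ((p : ℝ) ^ (Nat.log p k + 1))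
      ≤ ∑ p ∈ Sm k J, 2 * Real.log k := sum_le_sum h
    _ = 2 * Real.log k * (Sm k J).card := by
        rw [sum_const, nsmul_eq_mul]
        ring

end Pool.Agent.Lib.MP_d5700b_nt.FW
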