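import Pool.Agent.Lib.MP_d5700b_nt.FW.Defs2
import Pool.Agent.Lib.MP_d5700b_nt.FW.RowK

set_option autoImplicit false

/-!
Row M : the cost.
-/

namespace Pool.Agent.Lib.MP_d5700b_nt.FW

open Finset Filter Topology Pool.Agent.Lib.MP_d5700b_nt

lemma kt_nonneg (u : ℝ) (hu : 0 ≤ u) : 0 ≤ kt u := by
  unfold kt
  positivity

lemma kt_one : kt 1 = 1 := by
  unfold kt
  norm_num

lemma arg_pos {N i : ℕ} (h : i + 2 < N) : 0 < 1 - ((i : ℝ) + 2) / N := by
  have h1 : ((i : ℝ) + 2) < N := by exact_mod_cast h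
  have hN : (0 : ℝ) < N := by
    have : (0 : ℝ) ≤ i := Nat.cast_nonneg i
    linarith
  rw [sub_pos, div_lt_one hN]
  exact h1

lemma arg_le_one (N i : ℕ) : 1 - ((i : ℝ) + 2) / N ≤ 1 := by
  have : 0 ≤ ((i : ℝ) + 2) / N := by positivity
  linarith

lemma cst_nonneg (N i : ℕ) (_hN : 3 ≤ N) : 0 ≤ cst N i := by
  unfold cst
  split_ifs with h
  · have h1 := kt_mono _ 1 (arg_pos h) (arg_le_one N i) le_rfl
    rw [kt_one] at h1
    linarith
  · exact zero_le_one

lemma cst_le_one (N i : ℕ) : cst N i ≤ 1 := by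
  unfold cst
  split_ifs with h
  · have h1 := kt_nonneg _ (arg_pos h).le
    linarith
  · exact le_rfl

lemma cst_mono (N i : ℕ) (_hN : 3 ≤ N) : cst N i ≤ cst N (i + 1) := by
  by_cases h : i + 1 + 2 < N
  · have h' : i + 2 < N := by omega
    unfold cst
    rw [if_pos h, if_pos h']
    have h1 : 1 - (((i + 1 : ℕ) : ℝ) + 2) / N ≤ 1 - ((i : ℝ) + 2) / N := by
      push_cast
      have h2 : ((i : ℝ) + 2) / N ≤ ((i : ℝ) + 1 + 2) / N := by
        apply div_le_div_of_nonneg_right _ (Nat.cast_nonneg N)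
        linarith
      linarith
    have h3 := kt_mono _ _ (arg_pos h) h1 (arg_le_one N i)
    linarith
  · have h1 : cst N (i + 1) = 1 := by
      unfold cst
      rw [if_neg h]
    rw [h1]
    exact cst_le_one N i

/-- the shrunken arc `a = (p - k mod p) - p / N` -/
lemma cost_G2 {k J N p : ℕ} (hN : 3 ≤ N) (hp : p ∈ G2 k J N) :
    1 - kap p (p - k % p - p / N) ≤ cst N (N * (k % p) / p) := by
  unfold G2 at hp
  rw [mem_filter] at hp
  obtain ⟨hp1, _hp2⟩ := hp
  have hpos : 0 < p := (mem_La.mp hp1).1.2.pos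
  by_cases h : N * (k % p) / p + 2 < N
  swap
  · have h1 : cst N (N * (k % p) / p) = 1 := by
      unfold cst
      rw [if_neg h]
    rw [h1]
    have h2 := kap_nonneg p (p - k % p - p / N)
    linarith
  have hr : k % p < p := Nat.mod_lt _ hpos
  have hpR : (0 : ℝ) < p := by exact_mod_cast hpos
  have hNR : (0 : ℝ) < N := by
    have : 0 < N := by omega
    exact_mod_cast this
  -- `N r / p < i + 1`
  have h3 : N * (k % p) < (N * (k % p) / p + 1) * p := by
    have := Nat.lt_div_mul_add (a := N * (k % p)) hpos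
    linarith [this]
  have h3R : (N : ℝ) * ((k % p : ℕ) : ℝ) < (((N * (k % p) / p : ℕ) : ℝ) + 1) * p := by
    exact_mod_cast h3
  have h4 : ((p / N : ℕ) : ℝ) ≤ (p : ℝ) / N := Nat.cast_div_le
  set i := N * (k % p) / p with hi
  set r := k % p with hrd
  have h5 : 1 - ((i : ℝ) + 2) / N < ((p : ℝ) - r - (p / N : ℕ)) / p := by
    have e1 : (r : ℝ) / p < ((i : ℝ) + 1) / N := by
      rw [div_lt_div_iff₀ hpR hNR]
      linarith
    have e2 : ((p / N : ℕ) : ℝ) / p ≤ 1 / N := by
      rw [div_le_div_iff₀ hpR hNR]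
      have := mul_le_mul_of_nonneg_right h4 hNR.le
      rw [div_mul_cancel₀ _ hNR.ne'] at this
      linarith
    have e3 : ((p : ℝ) - r - (p / N : ℕ)) / p = 1 - r / p - (p / N : ℕ) / p := by
      field_simp
    rw [e3]
    have e4 : ((i : ℝ) + 2) / N = ((i : ℝ) + 1) / N + 1 / N := by ring
    rw [e4]
    linarith
  have h6 := arg_pos h
  have h7 : 0 < ((p : ℝ) - r - (p / N : ℕ)) / p := h6.trans h5
  have h8 : 0 < ((p : ℝ) - r - (p / N : ℕ)) := by
    by_contra hc
    push Not at hc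
    have := div_nonpos_of_nonpos_of_nonneg hc hpR.le
    linarith
  have h9 : r + p / N < p := by
    have : ((r : ℝ) + (p / N : ℕ)) < p := by linarith
    exact_mod_cast this
  have h10 : ((p - r - p / N : ℕ) : ℝ) = (p : ℝ) - r - (p / N : ℕ) := by
    rw [Nat.cast_sub (by omega), Nat.cast_sub (by omega)]
  have h9a : 1 ≤ p - r - p / N := by
    generalize p / N = e at h9
    omega
  have h11 := kap_ge p (p - r - p / N) hpos h9a ((Nat.sub_le _ _).trans (Nat.sub_le _ _))
  rw [h10] at h11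
  have h12 := kt_mono _ _ h6 h5.le (by
    rw [div_le_one hpR]
    have : (0 : ℝ) ≤ r := Nat.cast_nonneg r
    have : (0 : ℝ) ≤ (p / N : ℕ) := Nat.cast_nonneg _
    linarith)
  unfold cst
  rw [if_pos h]
  linarith

lemma cost_B2 {k J N p : ℕ} (hN : 3 ≤ N) (hp : p ∈ B2 k J N) :
    cst N (N * (k % p) / p) = 1 := by
  unfold B2 at hp
  rw [mem_filter] at hp
  obtain ⟨_hp1, hp2⟩ := hp
  have hpos : 0 < p := by
    rcases Nat.eq_zero_or_pos p with h | h
    · subst h
      simp at hp2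
    · exact h
  have hr : k % p < p := Nat.mod_lt _ hpos
  unfold cst
  rw [if_neg]
  intro h
  have h3 : N * (k % p) < (N * (k % p) / p + 1) * p := by
    have := Nat.lt_div_mul_add (a := N * (k % p)) hpos
    linarith [this]
  set i := N * (k % p) / p with hi
  set r := k % p with hrd
  apply hp2
  obtain ⟨s, hs⟩ : ∃ s, p = r + s := ⟨p - r, by omega⟩
  have e1 : p - r = s := by omega
  rw [e1]
  have h4 : (i + 1) * p ≤ (N - 2) * p := Nat.mul_le_mul_right p (by omega)
  obtain ⟨M, hM⟩ : ∃ M, N = M + 2 := ⟨N - 2, by omega⟩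
  have h5 : N - 2 = M := by omega
  rw [h5] at h4
  subst hM
  nlinarith

end Pool.Agent.Lib.MP_d5700b_nt.FW
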