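import Pool.Agent.Lib.MP_d5700b_nt.FW.Defs2

set_option autoImplicit false

/-!
Row N: the sum over primes.
-/

namespace Pool.Agent.Lib.MP_d5700b_nt.FW

open Finset Filter Topology Pool.Agent.Lib.MP_d5700b_nt

/-- The layer set. -/
def AL (N l k : ℕ) : Finset ℕ := (PP k).filter (fun p => l * p ≤ N * (k % p))

lemma AL_sum_le {N l k J : ℕ} (hN : 0 < N) (hl : l ≤ N) :
    ∑ p ∈ AL N l k, Real.log p ≤ Th (1 * k / (J + 1)) +
      ∑ j ∈ Icc 1 J, (Th (N * k / (N * j + l)) - Th (1 * k / (j + 1))) := by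
  have hsub : AL N l k ⊆ PP (1 * k / (J + 1)) ∪ (Icc 1 J).biUnion
      (fun j => PP (N * k / (N * j + l)) \ PP (1 * k / (j + 1))) := by
    intro p hp
    obtain ⟨h1, h2⟩ := mem_filter.mp hp
    obtain ⟨h3, h4⟩ := mem_PP.mp h1
    have hp0 : 0 < p := h4.pos
    rw [mem_union]
    by_cases hJ : p ≤ k / (J + 1)
    · left
      rw [one_mul]
      exact mem_PP.mpr ⟨hJ, h4⟩
    · right
      rw [mem_biUnion]
      have hkp : p * (k / p) + k % p = k := Nat.div_add_mod k p
      have hlt : k % p < p := Nat.mod_lt _ hp0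
      have hj1 : 1 ≤ k / p := (Nat.one_le_div_iff hp0).mpr h3
      have hjJ : k / p ≤ J := by
        by_contra hcon
        apply hJ
        rw [Nat.le_div_iff_mul_le (by omega)]
        have : J + 1 ≤ k / p := by omega
        calc p * (J + 1) ≤ p * (k / p) := Nat.mul_le_mul_left _ this
          _ ≤ k := Nat.mul_div_le _ _
      refine ⟨k / p, mem_Icc.mpr ⟨hj1, hjJ⟩, ?_⟩
      rw [Finset.mem_sdiff]
      constructor
      · apply mem_PP.mpr
        refine ⟨?_, h4⟩
        rw [Nat.le_div_iff_mul_le (by positivity)]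
        have : p * (N * (k / p) + l) = N * (p * (k / p)) + l * p := by ring
        rw [this]
        calc N * (p * (k / p)) + l * p ≤ N * (p * (k / p)) + N * (k % p) := by omega
          _ = N * (p * (k / p) + k % p) := by ring
          _ = N * k := by rw [hkp]
      · rw [mem_PP]
        rintro ⟨h5, -⟩
        rw [one_mul, Nat.le_div_iff_mul_le (by omega)] at h5
        nlinarith
  have hpos : ∀ p : ℕ, 0 ≤ Real.log p := fun p => Real.log_natCast_nonneg p
  calc ∑ p ∈ AL N l k, Real.log p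
      ≤ ∑ p ∈ PP (1 * k / (J + 1)) ∪ (Icc 1 J).biUnion
          (fun j => PP (N * k / (N * j + l)) \ PP (1 * k / (j + 1))), Real.log p :=
        sum_le_sum_of_subset_of_nonneg hsub (fun p _ _ => hpos p)
    _ ≤ ∑ p ∈ PP (1 * k / (J + 1)), Real.log p + ∑ p ∈ (Icc 1 J).biUnion
          (fun j => PP (N * k / (N * j + l)) \ PP (1 * k / (j + 1))), Real.log p := by
        rw [← sum_union_inter]
        exact le_add_of_nonneg_right (sum_nonneg (fun p _ => hpos p))
    _ ≤ ∑ p ∈ PP (1 * k / (J + 1)), Real.log p + ∑ j ∈ Icc 1 J,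
          ∑ p ∈ PP (N * k / (N * j + l)) \ PP (1 * k / (j + 1)), Real.log p := by
        apply add_le_add le_rfl
        clear hsub
        induction (Icc 1 J) using Finset.induction_on with
        | empty => simp
        | insert a s ha ih =>
          rw [biUnion_insert, sum_insert ha]
          refine le_trans ?_ (add_le_add le_rfl ih)
          rw [← sum_union_inter]
          exact le_add_of_nonneg_right (sum_nonneg (fun p _ => hpos p))
    _ ≤ _ := by
        unfold Th
        apply add_le_add le_rfl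
        apply sum_le_sum
        intro j hj
        have hj1 := (mem_Icc.mp hj).1
        have hle : 1 * k / (j + 1) ≤ N * k / (N * j + l) := by
          rw [Nat.le_div_iff_mul_le (by positivity), one_mul]
          have h1 : k / (j + 1) * (j + 1) ≤ k := Nat.div_mul_le_self _ _
          calc k / (j + 1) * (N * j + l) ≤ k / (j + 1) * (N * j + N) :=
                Nat.mul_le_mul_left _ (by omega)
            _ = N * (k / (j + 1) * (j + 1)) := by ring
            _ ≤ N * k := Nat.mul_le_mul_left _ h1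
        rw [sum_sdiff_eq_sub (PP_mono hle)]

/-- telescoping -/
lemma tele (c : ℕ → ℝ) (N i : ℕ) (hi : i < N) :
    c i = c 0 + ∑ l ∈ Ico 1 N, (if l ≤ i then c l - c (l - 1) else 0) := by
  have h1 : ∀ n : ℕ, c n = c 0 + ∑ l ∈ Ico 1 (n + 1), (c l - c (l - 1)) := by
    intro n
    induction n with
    | zero => simp
    | succ n ih =>
      rw [sum_Ico_succ_top (by omega)]
      have : c (n + 1) - c (n + 1 - 1) = c (n + 1) - c n := by
        rw [Nat.add_sub_cancel]
      rw [this]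
      linarith
  rw [← sum_filter]
  have h2 : (Ico 1 N).filter (fun l => l ≤ i) = Ico 1 (i + 1) := by
    ext l
    rw [mem_filter, mem_Ico, mem_Ico]
    omega
  rw [h2]
  exact h1 i

/-- The layers. -/
lemma sum_le_layers2 (c : ℕ → ℝ) (hc : ∀ i, c i ≤ c (i + 1)) {N k J : ℕ} (hN : 0 < N) :
    ∑ p ∈ PP k, c (N * (k % p) / p) * Real.log p ≤
      c 0 * Th k + ∑ l ∈ Ico 1 N, (c l - c (l - 1)) * (Th (1 * k / (J + 1)) +
        ∑ j ∈ Icc 1 J, (Th (N * k / (N * j + l)) - Th (1 * k / (j + 1)))) := by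
  have h1 : ∀ p ∈ PP k, c (N * (k % p) / p) * Real.log p = c 0 * Real.log p +
      ∑ l ∈ Ico 1 N, (c l - c (l - 1)) * (if l * p ≤ N * (k % p) then Real.log p else 0) := by
    intro p hp
    have hp0 := (mem_PP.mp hp).2.pos
    have hlt : N * (k % p) / p < N := by
      rw [Nat.div_lt_iff_lt_mul hp0]
      exact Nat.mul_lt_mul_of_pos_left (Nat.mod_lt _ hp0) hN
    rw [tele c N _ hlt, add_mul, sum_mul]
    congr 1
    apply sum_congr rfl
    intro l _
    by_cases h : l * p ≤ N * (k % p)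
    · have h2 : l ≤ N * (k % p) / p := (Nat.le_div_iff_mul_le hp0).mpr h
      rw [if_pos h2, if_pos h]
    · have h2 : ¬ l ≤ N * (k % p) / p := fun h3 => h ((Nat.le_div_iff_mul_le hp0).mp h3)
      rw [if_neg h2, if_neg h]
      ring
  rw [sum_congr rfl h1, sum_add_distrib, ← mul_sum, sum_comm]
  apply add_le_add le_rfl
  apply sum_le_sum
  intro l hl
  rw [mem_Ico] at hl
  rw [← mul_sum, ← sum_filter]
  have h2 : 0 ≤ c l - c (l - 1) := by
    have := hc (l - 1)
    rw [Nat.sub_add_cancel hl.1] at this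
    linarith
  exact mul_le_mul_of_nonneg_left (AL_sum_le (J := J) hN hl.2.le) h2

lemma layers2_tendsto (c : ℕ → ℝ) {N J : ℕ} (hN : 0 < N) :
    Tendsto (fun k : ℕ => (c 0 * Th k + ∑ l ∈ Ico 1 N, (c l - c (l - 1)) *
        (Th (1 * k / (J + 1)) +
        ∑ j ∈ Icc 1 J, (Th (N * k / (N * j + l)) - Th (1 * k / (j + 1))))) / k)
      atTop (𝓝 (c 0 + ∑ l ∈ Ico 1 N, (c l - c (l - 1)) *
        (1 / ((J : ℝ) + 1) + ∑ j ∈ Icc 1 J, ((N : ℝ) / (N * j + l) - 1 / ((j : ℝ) + 1))))) := by
  have h1 : Tendsto (fun k : ℕ => c 0 * (Th k / k) + ∑ l ∈ Ico 1 N, (c l - c (l - 1)) *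
        (Th (1 * k / (J + 1)) / k +
        ∑ j ∈ Icc 1 J, (Th (N * k / (N * j + l)) / k - Th (1 * k / (j + 1)) / k)))
      atTop (𝓝 (c 0 * 1 + ∑ l ∈ Ico 1 N, (c l - c (l - 1)) *
        (((1 : ℕ) : ℝ) / ((J + 1 : ℕ) : ℝ) + ∑ j ∈ Icc 1 J,
          ((N : ℝ) / ((N * j + l : ℕ) : ℝ) - ((1 : ℕ) : ℝ) / ((j + 1 : ℕ) : ℝ))))) := by
    apply Tendsto.add
    · exact Th_tendsto.const_mul _
    · apply tendsto_finsetSum
      intro l _
      apply Tendsto.const_mul
      apply Tendsto.add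
      · exact Th_div_tendsto one_pos (by omega)
      · apply tendsto_finsetSum
        intro j hj
        have hj1 := (mem_Icc.mp hj).1
        apply Tendsto.sub
        · exact Th_div_tendsto hN (by positivity)
        · exact Th_div_tendsto one_pos (by omega)
  rw [mul_one] at h1
  push_cast at h1
  refine h1.congr ?_
  intro k
  rw [add_div, mul_div_assoc, sum_div]
  congr 1
  apply sum_congr rfl
  intro l _
  rw [mul_div_assoc, add_div, sum_div]
  congr 2
  apply sum_congr rfl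
  intro j _
  rw [sub_div]

/-- Row N for a general monotone sequence. -/
theorem sum_le_gen (c : ℕ → ℝ) (hc : ∀ i, c i ≤ c (i + 1)) (N J : ℕ) (hN : 0 < N)
    (ε : ℝ) (hε : 0 < ε) : ∀ᶠ k : ℕ in atTop,
    ∑ p ∈ PP k, c (N * (k % p) / p) * Real.log p ≤
      (c 0 + ∑ l ∈ Ico 1 N, (c l - c (l - 1)) *
        (1 / ((J : ℝ) + 1) + ∑ j ∈ Icc 1 J, ((N : ℝ) / (N * j + l) - 1 / ((j : ℝ) + 1))) + ε)
        * k := by
  have h1 := (layers2_tendsto c (J := J) hN).eventually
    (gt_mem_nhds (lt_add_of_pos_right _ hε))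
  filter_upwards [h1, eventually_gt_atTop 0] with k hk hk0
  have hkR : (0 : ℝ) < k := by exact_mod_cast hk0
  rw [div_lt_iff₀ hkR] at hk
  exact (sum_le_layers2 c hc (J := J) hN).trans hk.le

/-- Row N, from `cst_mono` (row M). -/
theorem sum_le_CF_of (hmono : ∀ N i : ℕ, 3 ≤ N → cst N i ≤ cst N (i + 1))
    (N J : ℕ) (hN : 3 ≤ N) (ε : ℝ) (hε : 0 < ε) : ∀ᶠ k : ℕ in atTop,
    ∑ p ∈ PP k, cst N (N * (k % p) / p) * Real.log p ≤ (CF N J + ε) * k :=
  sum_le_gen (cst N) (fun i => hmono N i hN) N J (by omega) ε hε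

end Pool.Agent.Lib.MP_d5700b_nt.FW
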