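import Mathlib

set_option autoImplicit false

/-!
Row O : the integer computation.
-/

namespace Pool.Agent.Lib.MP_d5700b_nt.FW.RO

/-- A balanced sum. -/
def tsm (f : ℕ → ℕ) : ℕ → ℕ → ℕ
  | 0, s => f s
  | d + 1, s => tsm f d s + tsm f d (s + 2 ^ d)

/-- The integer part of `D * kt (m / N)`. -/
def aN (N D m : ℕ) : ℕ := D * (2 * m ^ 3 + (2 * m - N) ^ 3) / (3 * N * m ^ 2)

/-- An upper bound for `D` times the finite sum over `j`. -/
def bS (N D l : ℕ) : ℕ → ℕ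
  | 0 => 0
  | j + 1 => bS N D l j + (D * (N - l) / (((j + 1) * N + l) * (j + 2)) + 1)

/-- The term. -/
def tm (N D J0 l : ℕ) : ℕ :=
  (aN N D (N - 2 - (l - 1)) + 1 - aN N D (N - 2 - l)) *
    (bS N D l J0 + (2 * D * (N - l) / (2 * N * (J0 + 1) + l) + 1) + 1)

set_option maxRecDepth 100000 in
theorem check0 : 10 ^ 12 * (10 ^ 12 - aN 32768 (10 ^ 12) (32768 - 2)) +
    tsm (tm 32768 (10 ^ 12) 12) 15 0 < 5402 * 10 ^ 20 := by decide +kernel

end Pool.Agent.Lib.MP_d5700b_nt.FW.RO
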