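import Pool.Agent.Lib.MP_d5700b_nt.FW.RowM
import Pool.Agent.Lib.MP_d5700b_nt.FW.RowOc

set_option autoImplicit false

/-!
Row O : the constant.
-/

namespace Pool.Agent.Lib.MP_d5700b_nt.FW.RO

open Finset Pool.Agent.Lib.MP_d5700b_nt

lemma tsm_eq (f : ℕ → ℕ) (d s : ℕ) : tsm f d s = ∑ i ∈ range (2 ^ d), f (s + i) := by
  induction d generalizing s with
  | zero => simp [tsm]
  | succ d ih =>
    rw [tsm, ih, ih, pow_succ, mul_two, sum_range_add]
    congr 1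
    apply sum_congr rfl
    intro i _
    rw [add_assoc]

/-! ### The tail in `j` -/

/-- one term of the inner sum -/
noncomputable def hh (N l : ℕ) (j : ℕ) : ℝ := (N : ℝ) / (N * j + l) - 1 / ((j : ℝ) + 1)

lemma hh_eq (N l j : ℕ) (hN : 0 < N) (hj : 1 ≤ j) :
    hh N l j = ((N : ℝ) - l) / ((N * j + l) * (j + 1)) := by
  have h1 : (0 : ℝ) < N * j + l := by positivity
  have h2 : (0 : ℝ) < (j : ℝ) + 1 := by positivity
  unfold hh
  rw [div_sub_div _ _ h1.ne' h2.ne']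
  congr 1
  ring

lemma hh_step (N l j : ℕ) (hN : 0 < N) (hl : l ≤ N) :
    hh N l (j + 1) ≤ 2 * ((N : ℝ) - l) / (2 * N * (j + 1) + l) -
      2 * ((N : ℝ) - l) / (2 * N * (j + 2) + l) := by
  have hNR : (0 : ℝ) < N := by exact_mod_cast hN
  have hlR : (l : ℝ) ≤ N := by exact_mod_cast hl
  have hl0 : (0 : ℝ) ≤ l := Nat.cast_nonneg l
  have hj0 : (0 : ℝ) ≤ j := Nat.cast_nonneg j
  rw [hh_eq N l (j + 1) hN (by omega)]
  have h1 : (0 : ℝ) < 2 * N * (j + 1) + l := by positivity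
  have h2 : (0 : ℝ) < 2 * N * (j + 2) + l := by positivity
  rw [div_sub_div _ _ h1.ne' h2.ne']
  have e1 : 2 * ((N : ℝ) - l) * (2 * N * (j + 2) + l) - (2 * N * (j + 1) + l) * (2 * (N - l)) =
      (N - l) * (4 * N) := by ring
  rw [e1]
  push_cast
  have h3 : (0 : ℝ) < (N * ((j : ℝ) + 1) + l) * (j + 1 + 1) := by positivity
  rw [div_le_div_iff₀ h3 (by positivity)]
  have h4 : (2 * (N : ℝ) * (j + 1) + l) * (2 * N * (j + 2) + l) ≤
      (4 * N) * ((N * ((j : ℝ) + 1) + l) * (j + 1 + 1)) := by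
    nlinarith [mul_nonneg hl0 hNR.le, mul_nonneg hl0 (sub_nonneg.mpr hlR)]
  have h5 := mul_le_mul_of_nonneg_left h4 (sub_nonneg.mpr hlR)
  linarith

lemma tail_le (N l J0 J : ℕ) (hN : 0 < N) (hl : l ≤ N) (hJ : J0 ≤ J) :
    ∑ j ∈ Icc 1 J, hh N l j ≤ ∑ j ∈ Icc 1 J0, hh N l j +
      2 * ((N : ℝ) - l) / (2 * N * (J0 + 1) + l) - 2 * ((N : ℝ) - l) / (2 * N * (J + 1) + l) := by
  induction J, hJ using Nat.le_induction with
  | base => linarith
  | succ J hJ ih =>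
    rw [sum_Icc_succ_top (by omega)]
    have h := hh_step N l J hN hl
    push_cast at h ih ⊢
    have e : (J : ℝ) + 1 + 1 = J + 2 := by ring
    rw [e]
    linarith

/-- the integer bound for the inner sum -/
lemma bS_ge (N D l J0 : ℕ) (hN : 0 < N) (hl : l ≤ N) :
    (D : ℝ) * ∑ j ∈ Icc 1 J0, hh N l j ≤ bS N D l J0 := by
  induction J0 with
  | zero => simp [bS]
  | succ J ih =>
    rw [sum_Icc_succ_top (by omega), bS, mul_add]
    have h1 : (D : ℝ) * hh N l (J + 1) ≤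
        ((D * (N - l) / (((J + 1) * N + l) * (J + 2)) + 1 : ℕ) : ℝ) := by
      have h2 := Nat.lt_floor_add_one (((D * (N - l) : ℕ) : ℝ) / ((((J + 1) * N + l) * (J + 2) : ℕ) : ℝ))
      rw [Nat.floor_div_eq_div] at h2
      rw [hh_eq N l (J + 1) hN (by omega)]
      refine le_trans (le_of_eq ?_) h2.le |>.trans (le_of_eq (by push_cast; ring))
      rw [Nat.cast_mul, Nat.cast_sub hl, mul_div_assoc]
      congr 2
      push_cast
      ring
    rw [Nat.cast_add]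
    linarith

lemma H_le (N D l J0 : ℕ) (hN : 0 < N) (hl : l ≤ N) (hJ : J0 ≤ D) (hD : 0 < D) :
    (D : ℝ) * (1 / ((D : ℝ) + 1) + ∑ j ∈ Icc 1 D, ((N : ℝ) / (N * j + l) - 1 / ((j : ℝ) + 1))) ≤
      ((bS N D l J0 + (2 * D * (N - l) / (2 * N * (J0 + 1) + l) + 1) + 1 : ℕ) : ℝ) := by
  have hDR : (0 : ℝ) < D := by exact_mod_cast hD
  have hlR : (l : ℝ) ≤ N := by exact_mod_cast hl
  have h1 := tail_le N l J0 D hN hl hJ
  have h2 := bS_ge N D l J0 hN hl
  have h3 : (D : ℝ) * (2 * ((N : ℝ) - l) / (2 * N * (J0 + 1) + l)) ≤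
      ((2 * D * (N - l) / (2 * N * (J0 + 1) + l) + 1 : ℕ) : ℝ) := by
    have h4 := Nat.lt_floor_add_one (((2 * D * (N - l) : ℕ) : ℝ) / ((2 * N * (J0 + 1) + l : ℕ) : ℝ))
    rw [Nat.floor_div_eq_div] at h4
    refine le_trans (le_of_eq ?_) h4.le |>.trans (le_of_eq (by push_cast; ring))
    rw [Nat.cast_mul, Nat.cast_sub hl, ← mul_div_assoc]
    congr 1
    · push_cast
      ring
    · push_cast
      ring
  have h5 : 0 ≤ 2 * ((N : ℝ) - l) / (2 * N * ((D : ℝ) + 1) + l) := by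
    apply div_nonneg
    · linarith
    · positivity
  have h6 : (D : ℝ) * (1 / ((D : ℝ) + 1)) ≤ 1 := by
    rw [mul_one_div, div_le_one (by positivity)]
    linarith
  have h7 : ∑ j ∈ Icc 1 D, ((N : ℝ) / (N * j + l) - 1 / ((j : ℝ) + 1)) =
      ∑ j ∈ Icc 1 D, hh N l j := rfl
  rw [h7]
  push_cast at h1 h2 h3 ⊢
  have h8 := mul_le_mul_of_nonneg_left h1 hDR.le
  rw [mul_sub, mul_add] at h8
  have h9 := mul_nonneg hDR.le h5
  rw [mul_add]
  linarith

/-! ### The values of `kt` -/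

lemma kt_frac (N m : ℕ) (hN : 0 < N) :
    kt ((m : ℝ) / N) = ((2 * m ^ 3 + (2 * m - N) ^ 3 : ℕ) : ℝ) / ((3 * N * m ^ 2 : ℕ) : ℝ) := by
  have hNR : (0 : ℝ) < N := by exact_mod_cast hN
  rcases Nat.eq_zero_or_pos m with h | h
  · subst h
    simp [kt]
  · have hm : (0 : ℝ) < m := by exact_mod_cast h
    have h1 : max (2 * ((m : ℝ) / N) - 1) 0 = ((2 * m - N : ℕ) : ℝ) / N := by
      rcases le_total N (2 * m) with h2 | h2
      · rw [Nat.cast_sub h2, max_eq_left]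
        · push_cast
          field_simp
        · have : (N : ℝ) ≤ 2 * m := by exact_mod_cast h2
          rw [sub_nonneg, ← mul_div_assoc, one_le_div hNR]
          exact this
      · rw [Nat.sub_eq_zero_of_le h2, max_eq_right]
        · simp
        · have : (2 * m : ℝ) ≤ N := by exact_mod_cast h2
          rw [sub_nonpos, ← mul_div_assoc, div_le_one hNR]
          exact this
    unfold kt
    rw [h1]
    push_cast
    field_simp

lemma aN_le (N D m : ℕ) (hN : 0 < N) : ((aN N D m : ℕ) : ℝ) ≤ D * kt ((m : ℝ) / N) := by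
  rw [kt_frac N m hN, ← mul_div_assoc, ← Nat.cast_mul]
  exact Nat.cast_div_le

lemma le_aN (N D m : ℕ) (hN : 0 < N) : D * kt ((m : ℝ) / N) ≤ ((aN N D m + 1 : ℕ) : ℝ) := by
  rw [kt_frac N m hN, ← mul_div_assoc, ← Nat.cast_mul]
  have h := Nat.lt_floor_add_one (((D * (2 * m ^ 3 + (2 * m - N) ^ 3) : ℕ) : ℝ) /
    ((3 * N * m ^ 2 : ℕ) : ℝ))
  rw [Nat.floor_div_eq_div] at h
  have e : ((aN N D m + 1 : ℕ) : ℝ) =
      ((D * (2 * m ^ 3 + (2 * m - N) ^ 3) / (3 * N * m ^ 2) : ℕ) : ℝ) + 1 := by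
    unfold aN
    push_cast
    rfl
  rw [e]
  exact h.le

lemma cst_eq (N i : ℕ) (hN : 3 ≤ N) : cst N i = 1 - kt (((N - 2 - i : ℕ) : ℝ) / N) := by
  have hNR : (0 : ℝ) < N := by
    have : 0 < N := by omega
    exact_mod_cast this
  unfold cst
  split_ifs with h
  · rw [Nat.cast_sub (by omega), Nat.cast_sub (by omega)]
    congr 2
    field_simp
    push_cast
    ring
  · have h1 : N - 2 - i = 0 := by omega
    rw [h1]
    simp [kt]

theorem CF_le (N D J0 d c : ℕ) (hN : 3 ≤ N) (hD : 0 < D) (hJ : J0 ≤ D) (hd : N = 2 ^ d)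
    (hc : D * (D - aN N D (N - 2)) + tsm (tm N D J0) d 0 < c) :
    CF N D < (c : ℝ) / (D : ℝ) ^ 2 := by
  have hN0 : 0 < N := by omega
  have hDR : (0 : ℝ) < D := by exact_mod_cast hD
  rw [tsm_eq, ← hd] at hc
  have hsub : ∑ l ∈ Ico 1 N, tm N D J0 l ≤ ∑ i ∈ range N, tm N D J0 (0 + i) := by
    rw [range_eq_Ico]
    simp only [zero_add]
    apply sum_le_sum_of_subset
    intro x hx
    simp only [mem_Ico] at hx ⊢
    omega
  have hc2 : D * (D - aN N D (N - 2)) + ∑ l ∈ Ico 1 N, tm N D J0 l < c := by omega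
  have hc3 : (D : ℝ) * ((D - aN N D (N - 2) : ℕ) : ℝ) + ∑ l ∈ Ico 1 N, (tm N D J0 l : ℝ) < c := by
    exact_mod_cast hc2
  have h0 : (D : ℝ) * cst N 0 ≤ ((D - aN N D (N - 2) : ℕ) : ℝ) := by
    rw [cst_eq N 0 hN]
    have h1 := aN_le N D (N - 2) hN0
    have h2 : (D : ℝ) - (aN N D (N - 2) : ℕ) ≤ ((D - aN N D (N - 2) : ℕ) : ℝ) := by
      rw [sub_le_iff_le_add]
      have : D ≤ D - aN N D (N - 2) + aN N D (N - 2) := by omega
      exact_mod_cast this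
    have e : N - 2 - 0 = N - 2 := by omega
    rw [e, mul_sub, mul_one]
    have h3 : (D : ℝ) * kt (((N - 2 : ℕ) : ℝ) / N) ≤ 0 ∨ True := Or.inr trivial
    linarith
  have hterm : ∀ l ∈ Ico 1 N, (D : ℝ) ^ 2 * ((cst N l - cst N (l - 1)) *
      (1 / ((D : ℝ) + 1) + ∑ j ∈ Icc 1 D, ((N : ℝ) / (N * j + l) - 1 / ((j : ℝ) + 1)))) ≤
      (tm N D J0 l : ℝ) := by
    intro l hl
    rw [mem_Ico] at hl
    have hH := H_le N D l J0 hN0 hl.2.le hJ hD
    set H : ℝ := 1 / ((D : ℝ) + 1) + ∑ j ∈ Icc 1 D, ((N : ℝ) / (N * j + l) - 1 / ((j : ℝ) + 1))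
      with hHd
    have hd1 : 0 ≤ cst N l - cst N (l - 1) := by
      have := cst_mono N (l - 1) hN
      rw [Nat.sub_add_cancel hl.1] at this
      linarith
    have hd2 : (D : ℝ) * (cst N l - cst N (l - 1)) ≤
        ((aN N D (N - 2 - (l - 1)) + 1 - aN N D (N - 2 - l) : ℕ) : ℝ) := by
      rw [cst_eq N l hN, cst_eq N (l - 1) hN]
      have h1 := le_aN N D (N - 2 - (l - 1)) hN0
      have h2 := aN_le N D (N - 2 - l) hN0
      have h3 : ((aN N D (N - 2 - (l - 1)) + 1 : ℕ) : ℝ) - (aN N D (N - 2 - l) : ℕ) ≤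
          ((aN N D (N - 2 - (l - 1)) + 1 - aN N D (N - 2 - l) : ℕ) : ℝ) := by
        rw [sub_le_iff_le_add]
        have : aN N D (N - 2 - (l - 1)) + 1 ≤
          aN N D (N - 2 - (l - 1)) + 1 - aN N D (N - 2 - l) + aN N D (N - 2 - l) := by omega
        exact_mod_cast this
      linarith
    have e : (D : ℝ) ^ 2 * ((cst N l - cst N (l - 1)) * H) =
        ((D : ℝ) * (cst N l - cst N (l - 1))) * ((D : ℝ) * H) := by ring
    rw [e]
    unfold tm
    rw [Nat.cast_mul]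
    have h4 : 0 ≤ (D : ℝ) * (cst N l - cst N (l - 1)) := mul_nonneg hDR.le hd1
    calc ((D : ℝ) * (cst N l - cst N (l - 1))) * ((D : ℝ) * H)
        ≤ ((D : ℝ) * (cst N l - cst N (l - 1))) * ((bS N D l J0 +
          (2 * D * (N - l) / (2 * N * (J0 + 1) + l) + 1) + 1 : ℕ) : ℝ) :=
          mul_le_mul_of_nonneg_left hH h4
      _ ≤ _ := mul_le_mul_of_nonneg_right hd2 (Nat.cast_nonneg _)
  rw [lt_div_iff₀ (by positivity)]
  unfold CF
  rw [add_mul, sum_mul]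
  have h5 : ∑ l ∈ Ico 1 N, (cst N l - cst N (l - 1)) *
      (1 / ((D : ℝ) + 1) + ∑ j ∈ Icc 1 D, ((N : ℝ) / (N * j + l) - 1 / ((j : ℝ) + 1))) *
      (D : ℝ) ^ 2 ≤ ∑ l ∈ Ico 1 N, (tm N D J0 l : ℝ) := by
    apply sum_le_sum
    intro l hl
    have := hterm l hl
    linarith
  have h6 : cst N 0 * (D : ℝ) ^ 2 ≤ (D : ℝ) * ((D - aN N D (N - 2) : ℕ) : ℝ) := by
    have := mul_le_mul_of_nonneg_left h0 hDR.le
    nlinarith
  linarith

/-- the constant -/
theorem CF_lt : ∃ N J : ℕ, 3 ≤ N ∧ CF N J < 5402 / 10000 := by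
  refine ⟨32768, 10 ^ 12, by norm_num, ?_⟩
  have h := CF_le 32768 (10 ^ 12) 12 15 (5402 * 10 ^ 20) (by norm_num) (by norm_num) (by norm_num)
    (by norm_num) check0
  refine lt_of_lt_of_le h (le_of_eq ?_)
  norm_num

end Pool.Agent.Lib.MP_d5700b_nt.FW.RO
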