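import Pool.Agent.Lib.MP_d5700b_nt.FW.RowQ
import Pool.Agent.Lib.MP_d5700b_nt.Upper

set_option autoImplicit false

/-!
Row P: the upper bound for large `k`.
-/

namespace Pool.Agent.Lib.MP_d5700b_nt.FW

open Finset Filter Topology Pool.Agent.Lib.MP_d5700b_nt

lemma split_sum {k J N : ℕ} (cost : ℕ → ℕ → ℝ) (hc0 : ∀ i, 0 ≤ cost N i)
    (hG : ∀ k J p : ℕ, p ∈ G2 k J N → 1 - kap p (p - k % p - p / N) ≤ cost N (N * (k % p) / p))
    (hB : ∀ k J p : ℕ, p ∈ B2 k J N → cost N (N * (k % p) / p) = 1) :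
    ∑ p ∈ G2 k J N, (1 - kap p (p - k % p - p / N)) * Real.log p + ∑ p ∈ B2 k J N, Real.log p ≤
      ∑ p ∈ PP k, cost N (N * (k % p) / p) * Real.log p := by
  classical
  have hlog : ∀ p : ℕ, 0 ≤ Real.log p := fun p => Real.log_natCast_nonneg p
  have h1 : ∑ p ∈ G2 k J N, (1 - kap p (p - k % p - p / N)) * Real.log p ≤
      ∑ p ∈ G2 k J N, cost N (N * (k % p) / p) * Real.log p := by
    apply sum_le_sum
    intro p hp
    exact mul_le_mul_of_nonneg_right (hG k J p hp) (hlog p)
  have h2 : ∑ p ∈ B2 k J N, Real.log p =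
      ∑ p ∈ B2 k J N, cost N (N * (k % p) / p) * Real.log p := by
    apply sum_congr rfl
    intro p hp
    rw [hB k J p hp, one_mul]
  have h3 : ∑ p ∈ G2 k J N, cost N (N * (k % p) / p) * Real.log p +
      ∑ p ∈ B2 k J N, cost N (N * (k % p) / p) * Real.log p =
      ∑ p ∈ La k J, cost N (N * (k % p) / p) * Real.log p := by
    unfold G2 B2
    exact sum_filter_add_sum_filter_not _ _ _
  have h4 : ∑ p ∈ La k J, cost N (N * (k % p) / p) * Real.log p ≤
      ∑ p ∈ PP k, cost N (N * (k % p) / p) * Real.log p :=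
    sum_le_sum_of_subset_of_nonneg (La_sub k J) (fun p _ _ => mul_nonneg (hc0 _) (hlog p))
  linarith

/-- The upper bound. -/
theorem upper2 (cost : ℕ → ℕ → ℝ) (N : ℕ) (hN : 3 ≤ N) (hc0 : ∀ i, 0 ≤ cost N i)
    (hG : ∀ k J p : ℕ, p ∈ G2 k J N → 1 - kap p (p - k % p - p / N) ≤ cost N (N * (k % p) / p))
    (hB : ∀ k J p : ℕ, p ∈ B2 k J N → cost N (N * (k % p) / p) = 1)
    (ε : ℝ) (hε : 0 < ε) : ∀ᶠ k : ℕ in atTop,
    ∃ m, k + 2 ≤ m ∧ (∀ p, p.Prime → p ∣ m.choose k → k < p) ∧
      Real.log m ≤ ∑ p ∈ PP k, cost N (N * (k % p) / p) * Real.log p + ε * k := by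
  set δ : ℝ := min 1 (ε / 5) with hδ
  have hδ0 : 0 < δ := lt_min one_pos (by positivity)
  have hδ1 : δ ≤ 1 := min_le_left _ _
  have hδε : 5 * δ ≤ ε := by
    have : δ ≤ ε / 5 := min_le_right _ _
    linarith
  set J : ℕ := ⌈8 / δ⌉₊ + 2 with hJdef
  have hJ2 : 2 ≤ J := by omega
  have hJδ : 8 / δ ≤ J := by
    have : 8 / δ ≤ (⌈8 / δ⌉₊ : ℝ) := Nat.le_ceil _
    rw [hJdef]
    push_cast
    linarith
  have hJ0 : (0 : ℝ) < J := by positivity
  set M : ℕ := ⌈5 / δ⌉₊ + 1 with hMdef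
  have hM1 : 1 ≤ M := by omega
  have hMR : (1 : ℝ) ≤ M := by exact_mod_cast hM1
  have hlog4 : Real.log 4 ≤ 14 / 10 := by
    have h6 : Real.log 4 = 2 * Real.log 2 := by
      rw [show (4 : ℝ) = 2 ^ 2 by norm_num, Real.log_pow]
      norm_num
    rw [h6]
    have := Real.log_two_lt_d9
    linarith
  have hM : Real.log 4 + 3 * δ ≤ M * δ := by
    have h1 : 5 / δ ≤ (⌈5 / δ⌉₊ : ℝ) := Nat.le_ceil _
    have h2 : 5 / δ ≤ M := by
      rw [hMdef]
      push_cast
      linarith
    rw [div_le_iff₀ hδ0] at h2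
    linarith
  have hN0 : (0 : ℝ) < N := by exact_mod_cast (by omega : 0 < N)
  have hlogtop : Tendsto (fun k : ℕ => Real.log k) atTop atTop :=
    Real.tendsto_log_atTop.comp tendsto_natCast_atTop_atTop
  have hpi : ∀ᶠ x : ℝ in atTop, (Nat.primeCounting ⌊x⌋₊ : ℝ) ≤ 2 * x / Real.log x := by
    have h1 := Chebyshev.eventually_primeCounting_le (ε := 6 / 10) (by norm_num)
    filter_upwards [h1, eventually_ge_atTop 2] with x hx hx2
    refine hx.trans ?_
    have h2 : 0 < Real.log x := Real.log_pos (by linarith)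
    apply div_le_div_of_nonneg_right _ h2.le
    nlinarith
  have e1 : ∀ᶠ k : ℕ in atTop, J * J < k := eventually_gt_atTop _
  have e1b : ∀ᶠ k : ℕ in atTop, J * N ≤ k := eventually_ge_atTop _
  have e1c : ∀ᶠ k : ℕ in atTop, 8 * J * J ≤ k := eventually_ge_atTop _
  have e2 : ∀ᶠ k : ℕ in atTop, max (640 * (M : ℝ) * J * J) 1 ≤ Real.log k :=
    hlogtop.eventually_ge_atTop _
  have e3 : ∀ᶠ k : ℕ in atTop, (Nat.primeCounting k : ℝ) ≤ 2 * k / Real.log k := by
    have := tendsto_natCast_atTop_atTop.eventually hpi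
    filter_upwards [this] with k hk
    rwa [Nat.floor_natCast] at hk
  have e4 : ∀ᶠ k : ℕ in atTop, (Nat.primeCounting ⌊(k : ℝ) / J⌋₊ : ℝ) ≤
      2 * ((k : ℝ) / J) / Real.log ((k : ℝ) / J) := by
    have h1 : Tendsto (fun k : ℕ => (k : ℝ) / J) atTop atTop :=
      tendsto_natCast_atTop_atTop.atTop_div_const hJ0
    exact h1.eventually hpi
  have e5 : ∀ᶠ k : ℕ in atTop, Real.log (4 * M + 1) + 4 * Real.log k + 10 ≤ δ * k := by
    have h1 := (Real.isLittleO_log_id_atTop.bound (c := δ / 8) (by positivity))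
    have h2 := tendsto_natCast_atTop_atTop.eventually h1
    have h3 : ∀ᶠ k : ℕ in atTop, 2 * (Real.log (4 * M + 1) + 10) / δ ≤ (k : ℝ) :=
      tendsto_natCast_atTop_atTop.eventually_ge_atTop _
    filter_upwards [h2, h3, eventually_ge_atTop 1] with k hk hk3 hk1
    have hk1' : (1 : ℝ) ≤ k := by exact_mod_cast hk1
    simp only [id, Real.norm_eq_abs] at hk
    rw [abs_of_nonneg (Real.log_nonneg hk1'), abs_of_nonneg (by linarith)] at hk
    rw [div_le_iff₀ hδ0] at hk3
    nlinarith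
  -- `log (c k) * log k` is small compared with `k`
  have hsmall : ∀ c d : ℝ, 1 ≤ c → 0 < d → ∀ᶠ k : ℕ in atTop,
      (Real.log (c * k) + 1) * Real.log k ≤ d * k := by
    intro c d hc hd
    have h0 : (0 : ℝ) < d / 3 := by positivity
    have h1 := ((Real.isLittleO_pow_log_id_atTop (n := 2)).bound h0)
    have h2 := tendsto_natCast_atTop_atTop.eventually h1
    have h3 : ∀ᶠ k : ℕ in atTop, Real.log c + 1 ≤ Real.log k := hlogtop.eventually_ge_atTop _
    filter_upwards [h2, h3, eventually_ge_atTop 1] with k hk hk3 hk1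
    have hk1' : (1 : ℝ) ≤ k := by exact_mod_cast hk1
    have hkpos : (0 : ℝ) < k := by linarith
    have hlk : 0 ≤ Real.log k := Real.log_nonneg hk1'
    simp only [id, Real.norm_eq_abs] at hk
    rw [abs_of_nonneg (sq_nonneg _), abs_of_nonneg hkpos.le] at hk
    rw [Real.log_mul (by positivity) hkpos.ne']
    nlinarith
  have e6 := hsmall (24 * M) (3 / 10 * δ ^ 2) (by linarith) (by positivity)
  have e7 := hsmall (8 * (4 * M + 1) * M) (3 * δ / (100 * N ^ 2)) (by nlinarith) (by positivity)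
  filter_upwards [e1, e1b, e1c, e2, e3, e4, e5, e6, e7] with k hk1 hk1b hk1c hk2 hk3 hk4 hk5 hk6 hk7
  have hkpos : 0 < k := by omega
  have hkR : (0 : ℝ) < k := by exact_mod_cast hkpos
  have hk1R : (1 : ℝ) ≤ k := by exact_mod_cast hkpos
  set L := Real.log k with hL
  have hL1 : 640 * (M : ℝ) * J * J ≤ L := (le_max_left _ _).trans hk2
  have hL2 : 1 ≤ L := (le_max_right _ _).trans hk2
  have hLpos : 0 < L := by linarith
  have hLa : ((La k J).card : ℝ) ≤ 2 * k / L := by
    refine le_trans ?_ hk3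
    rw [← PP_card_eq]
    exact_mod_cast card_le_card (La_sub k J)
  obtain ⟨m, hm1, hm2, hm3⟩ := bound_core2 (k := k) (J := J) (N := N) (M := M) (ε := δ)
    hJ2 hN hk1 hk1b hk1c hδ0 hδ1 hM1 hM hL2 (by
      -- damping
      have h1 : Real.log (8 * (4 * M + 1) * M * k) + 1 ≤ 3 * δ * k / (100 * N ^ 2 * L) := by
        rw [le_div_iff₀ (by positivity)]
        have h2 : 3 * δ / (100 * (N : ℝ) ^ 2) * k = 3 * δ * k / (100 * N ^ 2) := by ring
        rw [h2, le_div_iff₀ (by positivity)] at hk7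
        calc (Real.log (8 * (4 * M + 1) * M * k) + 1) * (100 * (N : ℝ) ^ 2 * L) =
            (Real.log (8 * (4 * M + 1) * M * k) + 1) * L * (100 * (N : ℝ) ^ 2) := by ring
          _ ≤ 3 * δ * k := hk7
      have hpos : (0 : ℝ) < 8 * (4 * M + 1) * M * k := by positivity
      have h3 : Real.exp (-(3 * δ * k / (100 * N ^ 2 * L))) ≤ 1 / (8 * (4 * M + 1) * M * k) := by
        have h4 : 8 * (4 * (M : ℝ) + 1) * M * k ≤ Real.exp (3 * δ * k / (100 * N ^ 2 * L)) := by
          calc 8 * (4 * (M : ℝ) + 1) * M * k = Real.exp (Real.log (8 * (4 * M + 1) * M * k)) :=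
                (Real.exp_log hpos).symm
            _ ≤ _ := Real.exp_le_exp.mpr (by linarith)
        rw [Real.exp_neg, ← one_div]
        exact one_div_le_one_div_of_le hpos h4
      calc 2 * (4 * (M : ℝ) + 1) * Real.exp (-(3 * δ * k / (100 * N ^ 2 * L))) * M ≤
          2 * (4 * M + 1) * (1 / (8 * (4 * M + 1) * M * k)) * M := by gcongr
        _ = 1 / (4 * k) := by
            field_simp
            ring
        _ ≤ 1 / 4 := by
            apply one_div_le_one_div_of_le (by norm_num)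
            linarith) (by
      have h1 : Real.log (24 * M * k) + 1 ≤ 3 / 10 * δ ^ 2 * (k / L) := by
        rw [← mul_div_assoc, le_div_iff₀ hLpos]
        exact hk6
      have hpos : (0 : ℝ) < 24 * M * k := by positivity
      have h3 : Real.exp (-(3 / 10 * δ ^ 2 * (k / L)) + 1 / 2) < 1 / (24 * M * k) := by
        have h4 : 24 * (M : ℝ) * k < Real.exp (3 / 10 * δ ^ 2 * (k / L) - 1 / 2) := by
          calc 24 * (M : ℝ) * k = Real.exp (Real.log (24 * M * k)) := (Real.exp_log hpos).symm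
            _ < _ := Real.exp_lt_exp.mpr (by linarith)
        have h5 : -(3 / 10 * δ ^ 2 * (k / L)) + 1 / 2 = -(3 / 10 * δ ^ 2 * (k / L) - 1 / 2) := by
          ring
        rw [h5, Real.exp_neg, ← one_div]
        exact one_div_lt_one_div_of_lt hpos h4
      have h4 : 5 * (M : ℝ) * k + 1 / 4 ≤ 6 * M * k := by nlinarith
      calc (5 * (M : ℝ) * k + 1 / 4) * Real.exp (-(3 / 10 * δ ^ 2 * (k / L)) + 1 / 2) ≤
          (6 * M * k) * Real.exp (-(3 / 10 * δ ^ 2 * (k / L)) + 1 / 2) :=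
            mul_le_mul_of_nonneg_right h4 (Real.exp_nonneg _)
        _ < (6 * M * k) * (1 / (24 * M * k)) := mul_lt_mul_of_pos_left h3 (by positivity)
        _ = 1 / 4 := by
            field_simp
            norm_num) (by
      calc ((La k J).card : ℝ) * (80 * M * J * J) ≤ (2 * k / L) * (80 * M * J * J) := by gcongr
        _ = (160 * M * J * J / L) * k := by ring
        _ ≤ (1 / 4) * k := by
            apply mul_le_mul_of_nonneg_right _ hkR.le
            rw [div_le_iff₀ hLpos]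
            linarith
        _ = k / 4 := by ring)
  refine ⟨m, hm1, hm2, hm3.trans ?_⟩
  have h1 := log_Q2_le (k := k) (J := J) (N := N)
  have h2 := split_sum (k := k) (J := J) cost hc0 hG hB
  -- the small primes
  have h3 : 2 * L * (Sm k J).card ≤ δ * k := by
    have h4 : ((Sm k J).card : ℝ) ≤ Nat.primeCounting ⌊(k : ℝ) / J⌋₊ := by
      rw [← PP_card_eq]
      have : Sm k J ⊆ PP ⌊(k : ℝ) / J⌋₊ := by
        intro p hp
        obtain ⟨⟨h5, h6⟩, h7⟩ := mem_Sm.mp hp
        rw [mem_PP]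
        refine ⟨?_, h6⟩
        apply Nat.le_floor
        rw [le_div_iff₀ hJ0]
        have : ((J * p : ℕ) : ℝ) ≤ k := by exact_mod_cast h7
        push_cast at this
        linarith
      exact_mod_cast card_le_card this
    have h5 : L / 2 ≤ Real.log ((k : ℝ) / J) := by
      have h6 : (J : ℝ) * J ≤ k := by exact_mod_cast hk1.le
      rw [Real.log_div hkR.ne' hJ0.ne']
      have h7 := Real.log_le_log (by positivity) h6
      rw [Real.log_mul hJ0.ne' hJ0.ne'] at h7
      linarith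
    have h6 : 2 * ((k : ℝ) / J) / Real.log ((k : ℝ) / J) ≤ 2 * ((k : ℝ) / J) / (L / 2) :=
      div_le_div_of_nonneg_left (by positivity) (by positivity) h5
    calc 2 * L * (Sm k J).card ≤ 2 * L * (2 * ((k : ℝ) / J) / (L / 2)) := by
          apply mul_le_mul_of_nonneg_left _ (by positivity)
          exact h4.trans (hk4.trans h6)
      _ = 8 / J * k := by
          field_simp
          ring
      _ ≤ δ * k := by
          apply mul_le_mul_of_nonneg_right _ hkR.le
          rw [div_le_iff₀ hJ0]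
          rw [div_le_iff₀ hδ0] at hJδ
          linarith
  have h5 : 5 * δ * k ≤ ε * k := mul_le_mul_of_nonneg_right hδε hkR.le
  linarith

end Pool.Agent.Lib.MP_d5700b_nt.FW
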