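import Pool.Agent.Lib.MP_d5700b_nt.FW.Core2
import Pool.Agent.Lib.MP_d5700b_nt.FW.RowL
import Pool.Agent.Lib.MP_d5700b_nt.Asymp

set_option autoImplicit false

/-!
Row Q: the deterministic estimate.
-/

namespace Pool.Agent.Lib.MP_d5700b_nt.FW

open Finset Pool.Agent.Lib.MP_d5700b_nt

theorem bound_core2 {k J N M : ℕ} {ε : ℝ} (hJ : 2 ≤ J) (hN : 3 ≤ N) (hk : J * J < k)
    (hkN : J * N ≤ k) (hk8 : 8 * J * J ≤ k) (hε0 : 0 < ε) (hε1 : ε ≤ 1) (hM1 : 1 ≤ M)
    (hM : Real.log 4 + 3 * ε ≤ M * ε) (hL : 1 ≤ Real.log k)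
    (hρ : 2 * (4 * M + 1) * Real.exp (-(3 * ε * k / (100 * N ^ 2 * Real.log k))) * M ≤ 1 / 4)
    (hP : (5 * M * k + 1 / 4) *
      Real.exp (-(3 / 10 * ε ^ 2 * (k / Real.log k)) + 1 / 2) < 1 / 4)
    (hs : ((La k J).card : ℝ) * (80 * M * J * J) ≤ k / 4) :
    ∃ m, k + 2 ≤ m ∧ (∀ p, p.Prime → p ∣ m.choose k → k < p) ∧
      Real.log m ≤ Real.log (Q2 k J N) +
        ∑ p ∈ G2 k J N, (1 - kap p (p - k % p - p / N)) * Real.log p +
        3 * ε * k + Real.log (4 * M + 1) + 4 * Real.log k + 10 := by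
  classical
  have hk0 : 0 < k := by nlinarith
  have hkR : (0 : ℝ) < k := by exact_mod_cast hk0
  have hMR : (1 : ℝ) ≤ M := by exact_mod_cast hM1
  have hN0 : 0 < N := by omega
  have hNR : (0 : ℝ) < N := by exact_mod_cast hN0
  have hJR : (0 : ℝ) < J := by exact_mod_cast (by omega : 0 < J)
  set L := Real.log k with hLdef
  have hLpos : 0 < L := by linarith
  -- the index type
  set p : {x // x ∈ G2 k J N} → ℕ := fun i => i.1 with hp
  set a : {x // x ∈ G2 k J N} → ℕ := fun i => i.1 - k % i.1 - i.1 / N with ha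
  set S : {x // x ∈ G2 k J N} → ℕ := fun i => i.1 / N + 1 with hS
  have hmem : ∀ i : {x // x ∈ G2 k J N}, ((i.1 ≤ k ∧ i.1.Prime) ∧ k < J * i.1) ∧
      2 * i.1 ≤ N * (i.1 - k % i.1) := by
    intro i
    have := i.2
    unfold G2 at this
    rw [mem_filter, mem_La] at this
    exact this
  have hNp : ∀ q, k < J * q → N < q := by
    intro q hq
    have : J * N < J * q := lt_of_le_of_lt hkN hq
    exact Nat.lt_of_mul_lt_mul_left this
  have hhalf : ∀ i : {x // x ∈ G2 k J N}, 2 * (i.1 / N) ≤ i.1 - k % i.1 ∧ k % i.1 < i.1 := by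
    intro i
    obtain ⟨⟨⟨h1, h2⟩, h3⟩, h4⟩ := hmem i
    refine ⟨?_, Nat.mod_lt _ h2.pos⟩
    have h5 : N * (i.1 / N) ≤ i.1 := Nat.mul_div_le _ _
    have h6 : N * (2 * (i.1 / N)) ≤ N * (i.1 - k % i.1) := by
      calc N * (2 * (i.1 / N)) = 2 * (N * (i.1 / N)) := by ring
        _ ≤ 2 * i.1 := Nat.mul_le_mul_left _ h5
        _ ≤ _ := h4
    exact Nat.le_of_mul_le_mul_left h6 hN0
  have D : Setup p a S (Q2 k J N) N := by
    refine ⟨?_, ?_, ?_, ?_, ?_, ?_, ?_⟩
    · intro i
      exact (hmem i).1.1.2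
    · exact Subtype.val_injective
    · intro i
      exact coprime_Q2 i.2
    · intro i
      obtain ⟨h1, h2⟩ := hhalf i
      simp only [ha]
      omega
    · intro i
      simp only [hS]
      have h1 := hNp i.1 (hmem i).1.2
      have : 1 ≤ i.1 / N := (Nat.one_le_div_iff hN0).mpr h1.le
      omega
    · intro i
      obtain ⟨h1, h2⟩ := hhalf i
      simp only [ha, hS, hp]
      omega
    · intro i
      simp only [hS, hp]
      exact Nat.lt_mul_div_succ _ hN0
  -- sums over the index type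
  set W : ℝ := ∑ i, Real.log (p i) with hW
  set K : ℝ := ∑ i, Real.log (p i) * kap (p i) (a i) with hK
  have hWle : W ≤ Real.log 4 * k := by
    have h1 : W = ∑ q ∈ G2 k J N, Real.log q := by
      rw [hW]
      exact Finset.sum_coe_sort (G2 k J N) (fun q => Real.log (q : ℝ))
    rw [h1]
    refine le_trans ?_ (sum_log_PP k)
    apply sum_le_sum_of_subset_of_nonneg
    · intro q hq
      exact La_sub k J ((filter_subset _ _) hq)
    · intro q _ _
      exact Real.log_natCast_nonneg q
  have hKW : K ≤ W := by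
    apply sum_le_sum
    intro i _
    have h1 := kap_le_one (p i) (a i) (D.ppos i) (D.a1 i) (D.ap i)
    have h2 := D.lnn i
    nlinarith
  have hK0 : 0 ≤ K := sum_nonneg (fun i _ => mul_nonneg (D.lnn i) (kap_nonneg _ _))
  have hlog4 : Real.log 4 ≤ 14 / 10 := by
    have h6 : Real.log 4 = 2 * Real.log 2 := by
      rw [show (4 : ℝ) = 2 ^ 2 by norm_num, Real.log_pow]
      norm_num
    rw [h6]
    have := Real.log_two_lt_d9
    linarith
  set η := ε * k with hη
  have hη0 : 0 < η := by positivity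
  set V := W - K + 3 * η with hV
  have hV3 : 3 * ε * k ≤ V := by
    rw [hV, hη]
    linarith
  have hM' : W + 3 * η ≤ M * η := by
    calc W + 3 * η ≤ Real.log 4 * k + 3 * η := by linarith
      _ = (Real.log 4 + 3 * ε) * k := by rw [hη]; ring
      _ ≤ (M * ε) * k := mul_le_mul_of_nonneg_right hM hkR.le
      _ = M * η := by rw [hη]; ring
  set X := V + Real.log (4 * M + 1) + 2 * L with hX
  set T := ⌈Real.exp X⌉₊ with hT
  have hlM : 0 ≤ Real.log (4 * (M : ℝ) + 1) := Real.log_nonneg (by linarith)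
  have hX0 : 0 ≤ X := by
    have : 0 ≤ V := le_trans (by positivity) hV3
    rw [hX]
    positivity
  have hexp1 : 1 ≤ Real.exp X := Real.one_le_exp hX0
  have hTge : Real.exp X ≤ T := Nat.le_ceil _
  have hT1 : 1 ≤ T := by
    have : (1 : ℝ) ≤ T := hexp1.trans hTge
    exact_mod_cast this
  have hTle : (T : ℝ) ≤ 2 * Real.exp X := by
    have := (Nat.ceil_lt_add_one (Real.exp_nonneg X)).le
    linarith
  have hlogT : V + Real.log (((4 * M : ℕ) : ℝ) + 1) + 2 * L ≤ Real.log T := by
    have h1 : X ≤ Real.log T := by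
      rw [← Real.log_exp X]
      exact Real.log_le_log (Real.exp_pos _) hTge
    push_cast
    exact h1
  -- the probability
  set lam := ε / (2 * L) with hlam
  set P := Real.exp (-lam * (η - L) + lam ^ 2 * L * K / 2) with hPdef
  set E := Real.exp (-(3 / 10 * ε ^ 2 * (k / L)) + 1 / 2) with hE
  have hPE : P ≤ E := by
    apply Real.exp_le_exp.mpr
    have h1 : -lam * (η - L) + lam ^ 2 * L * K / 2 =
        -(ε ^ 2 * (k / L)) / 2 + ε / 2 + ε ^ 2 * (K / L) / 8 := by
      rw [hlam, hη]
      field_simp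
      ring
    rw [h1]
    have h2 : K / L ≤ (14 / 10 * k) / L := by
      apply div_le_div_of_nonneg_right _ hLpos.le
      nlinarith
    have h3 : (14 / 10 * (k : ℝ)) / L = 14 / 10 * (k / L) := by ring
    rw [h3] at h2
    have h4 : ε ^ 2 * (K / L) ≤ ε ^ 2 * (14 / 10 * (k / L)) :=
      mul_le_mul_of_nonneg_left h2 (sq_nonneg _)
    have h5 : 0 ≤ ε ^ 2 * (k / L) := by positivity
    nlinarith
  have hE0 : 0 < E := Real.exp_pos _
  have hP0 : 0 < P := Real.exp_pos _
  have hE1 : E < 1 := by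
    have h1 : 0 ≤ 5 * (M : ℝ) * k := by positivity
    nlinarith
  have hcard : ((Fintype.card {x // x ∈ G2 k J N} : ℕ) : ℝ) ≤ k := by
    rw [Fintype.card_coe]
    have h1 : (G2 k J N).card ≤ k :=
      (card_le_card ((filter_subset _ _).trans (La_sub k J))).trans (PP_card_le k)
    exact_mod_cast h1
  obtain ⟨t, htT, hgood, hdig⟩ := D.core (La k J) (J := J) (k := k) (M := M) (m0 := 4 * M) (T := T)
    (K := K) (η := η) (V := V) (lam := lam) (P := P) (by omega) (by omega)
    (fun i => (hmem i).1.1.1) hLpos (by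
      intro q hq
      obtain ⟨⟨h1, h2⟩, h3⟩ := mem_La.mp hq
      refine ⟨h2, h1, ?_, ?_⟩
      · have : 8 * J < q := by
          have h4 : J * (8 * J) < J * q := by
            calc J * (8 * J) = 8 * J * J := by ring
              _ ≤ k := hk8
              _ < J * q := h3
          exact Nat.lt_of_mul_lt_mul_left h4
        omega
      · by_cases h4 : 2 * q ≤ N * (q - k % q)
        · left
          exact ⟨⟨q, mem_filter.mpr ⟨hq, h4⟩⟩, rfl⟩
        · right
          refine ⟨?_, Q2_eq (mem_filter.mpr ⟨hq, h4⟩)⟩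
          intro i hi
          apply h4
          rw [← hi]
          exact (hmem i).2) hη0 hK hV hM' (by omega) hT1 hlogT (by
      have h1 : Real.exp (-(V / (100 * N ^ 2 * L))) ≤
          Real.exp (-(3 * ε * k / (100 * N ^ 2 * L))) := by
        apply Real.exp_le_exp.mpr
        rw [neg_le_neg_iff]
        exact div_le_div_of_nonneg_right hV3 (by positivity)
      have h2 : (2 * (((4 * M : ℕ) : ℝ) + 1) * Real.exp (-(V / (100 * N ^ 2 * L))) +
          1 / ((4 * M : ℕ) : ℝ)) * M =
          2 * (4 * M + 1) * Real.exp (-(V / (100 * N ^ 2 * L))) * M + 1 / 4 := by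
        push_cast
        field_simp
      rw [h2]
      have h3 : 2 * (4 * (M : ℝ) + 1) * Real.exp (-(V / (100 * N ^ 2 * L))) * M ≤
          2 * (4 * M + 1) * Real.exp (-(3 * ε * k / (100 * N ^ 2 * L))) * M := by gcongr
      linarith) (by positivity) rfl (by linarith) (by
      have h1 : 5 * (M : ℝ) * ((Fintype.card {x // x ∈ G2 k J N} : ℕ) : ℝ) * P ≤
          5 * M * k * E := by gcongr
      nlinarith) (by
      have h1 : ∀ q ∈ La k J, (10 * M : ℝ) / ((q / (4 * J) : ℕ) : ℝ) ≤ 80 * M * J * J / k := by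
        intro q hq
        obtain ⟨⟨h1, h2⟩, h3⟩ := mem_La.mp hq
        have h4 : 8 * J < q := by
          have h4 : J * (8 * J) < J * q := by
            calc J * (8 * J) = 8 * J * J := by ring
              _ ≤ k := hk8
              _ < J * q := h3
          exact Nat.lt_of_mul_lt_mul_left h4
        have h5 : q < 4 * J * (q / (4 * J) + 1) := Nat.lt_mul_div_succ _ (by omega)
        have h6 : q ≤ 8 * J * (q / (4 * J)) := by nlinarith
        have h7 : k ≤ 8 * J * J * (q / (4 * J)) := by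
          calc k ≤ J * q := h3.le
            _ ≤ J * (8 * J * (q / (4 * J))) := Nat.mul_le_mul_left _ h6
            _ = _ := by ring
        have h8 : (k : ℝ) ≤ 8 * J * J * ((q / (4 * J) : ℕ) : ℝ) := by exact_mod_cast h7
        have h9 : (0 : ℝ) < ((q / (4 * J) : ℕ) : ℝ) := by
          have : 1 ≤ q / (4 * J) := (Nat.one_le_div_iff (by omega)).mpr (by omega)
          exact_mod_cast this
        rw [div_le_div_iff₀ h9 hkR]
        nlinarith
      calc ∑ q ∈ La k J, (10 * M : ℝ) / ((q / (4 * J) : ℕ) : ℝ) ≤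
          ∑ _q ∈ La k J, (80 * M * J * J / k : ℝ) := sum_le_sum h1
        _ = ((La k J).card : ℝ) * (80 * M * J * J) / k := by
            rw [sum_const, nsmul_eq_mul]
            ring
        _ ≤ (k / 4) / k := by gcongr
        _ = 1 / 4 := by field_simp)
  -- the integer
  set n := Q2 k J N * (t + 1) with hn
  have hdiv := construct2 (N := N) hJ hk t (by
    intro q hq
    have h1 := hgood ⟨q, hq⟩
    obtain ⟨h2, h3⟩ := hhalf ⟨q, hq⟩
    simp only [hp, ha, hS] at h1
    simp only at h2 h3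
    have h4 : q - k % q - q / N + (q / N + 1) - 1 = q - k % q := by omega
    rw [h4] at h1
    exact h1) hdig
  have hQ2 := two_le_Q2 N hJ hk
  have hn2 : 2 ≤ n := by
    rw [hn]
    nlinarith
  refine ⟨n + k, by omega, ?_, ?_⟩
  · intro q hq hdvd
    by_contra hcon
    exact hdiv q hq (not_lt.mp hcon) hdvd
  · have hn0 : (0 : ℝ) < n := by exact_mod_cast (by omega : 0 < n)
    have hk1R : (1 : ℝ) ≤ k := by exact_mod_cast hk0
    have hQ0 : (0 : ℝ) < Q2 k J N := by exact_mod_cast Q2_pos k J N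
    have h1 : (n : ℝ) ≤ Q2 k J N * (4 * Real.exp X) := by
      have h2 : t + 1 ≤ 2 * T := by omega
      have h3 : ((t : ℝ) + 1) ≤ 2 * T := by exact_mod_cast h2
      rw [hn]
      push_cast
      apply mul_le_mul_of_nonneg_left _ hQ0.le
      linarith
    have h2 : ((n + k : ℕ) : ℝ) ≤ Q2 k J N * (4 * Real.exp X) * (2 * k) := by
      have h3 : ((n + k : ℕ) : ℝ) ≤ n * (2 * k) := by
        push_cast
        have h6 : (2 : ℝ) ≤ n := by exact_mod_cast hn2
        nlinarith
      exact h3.trans (mul_le_mul_of_nonneg_right h1 (by positivity))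
    have h3 := Real.log_le_log (by exact_mod_cast (by omega : 0 < n + k)) h2
    rw [Real.log_mul (by positivity) (by positivity), Real.log_mul (by positivity) (by positivity),
      Real.log_mul (by norm_num) (Real.exp_pos _).ne', Real.log_exp,
      Real.log_mul (by norm_num) hkR.ne'] at h3
    have h4 : W - K = ∑ q ∈ G2 k J N, (1 - kap q (q - k % q - q / N)) * Real.log q := by
      rw [hW, hK, ← sum_sub_distrib]
      rw [← Finset.sum_coe_sort (G2 k J N)
        (fun q => (1 - kap q (q - k % q - q / N)) * Real.log (q : ℝ))]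
      apply sum_congr rfl
      intro i _
      simp only [hp, ha]
      ring
    rw [← h4]
    have hl2 := Real.log_two_lt_d9
    have h5 : X = W - K + 3 * ε * k + Real.log (4 * M + 1) + 2 * L := by
      rw [hX, hV, hη]
      ring
    rw [h5] at h3
    linarith

end Pool.Agent.Lib.MP_d5700b_nt.FW
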