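import Pool.Agent.Lib.MP_d5700b_nt.FW.RowA
import Pool.Agent.Lib.MP_d5700b_nt.FW.RowB
import Pool.Agent.Lib.MP_d5700b_nt.FW.RowDIG
import Pool.Agent.Lib.MP_d5700b_nt.FW.RowE
import Pool.Agent.Lib.MP_d5700b_nt.FW.RowF
import Pool.Agent.Lib.MP_d5700b_nt.FW.RowH
import Pool.Agent.Lib.MP_d5700b_nt.FW.RowK
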